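import Mathlib
import Pool.Agent.Lib.MP_d87a8f_pr.Asymp

/-!
The entropic time.
-/

namespace Pool.Agent.Lib.MP_d87a8f_pr.Q

open Finset

lemma ent_term_eq {s : ℝ} (hs : 0 < s) (j : ℕ) :
    -(poisson s j * Real.log (poisson s j)) =
      s * poisson s j - (j : ℝ) * poisson s j * Real.log s +
        poisson s j * Real.log (j.factorial : ℝ) := by
  have h1 : Real.log (poisson s j) = -s + j * Real.log s - Real.log (j.factorial : ℝ) := by
    unfold poisson
    have hf : (0 : ℝ) < (j.factorial : ℝ) := by exact_mod_cast j.factorial_pos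
    rw [Real.log_div (by positivity) hf.ne', Real.log_mul (Real.exp_pos _).ne' (by positivity),
      Real.log_exp, Real.log_pow]
  rw [h1]
  ring

lemma hasSum_base {s : ℝ} (hs : 0 < s) :
    HasSum (fun j : ℕ => s * poisson s j - (j : ℝ) * poisson s j * Real.log s)
      (s - s * Real.log s) := by
  have h := ((hasSum_poisson hs.le).mul_left s).sub ((hasSum_mean hs.le).mul_right (Real.log s))
  rwa [mul_one] at h

lemma hasSum_fact_two {s : ℝ} (hs : 0 ≤ s) :
    HasSum (fun j : ℕ => (j : ℝ) * ((j : ℝ) - 1) * poisson s j) (s ^ 2) := by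
  rw [← hasSum_nat_add_iff' 1]
  have h1 : ∀ j : ℕ, ((j + 1 : ℕ) : ℝ) * (((j + 1 : ℕ) : ℝ) - 1) * poisson s (j + 1) =
      s * ((j : ℝ) * poisson s j) := by
    intro j
    have h := poisson_succ s j
    push_cast at h ⊢
    linear_combination (j : ℝ) * h
  simp only [h1]
  have h2 := (hasSum_mean hs).mul_left s
  simpa [sq] using h2

lemma log_factorial_le (j : ℕ) : Real.log (j.factorial : ℝ) ≤ (j : ℝ) * ((j : ℝ) - 1) := by
  rcases Nat.eq_zero_or_pos j with rfl | hj
  · simp
  · have hj' : (0 : ℝ) < j := by exact_mod_cast hj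
    have hf : (0 : ℝ) < (j.factorial : ℝ) := by exact_mod_cast j.factorial_pos
    have h1 : (j.factorial : ℝ) ≤ (j : ℝ) ^ j := by exact_mod_cast Nat.factorial_le_pow j
    have h2 := Real.log_le_log hf h1
    rw [Real.log_pow] at h2
    exact h2.trans (mul_le_mul_of_nonneg_left (Real.log_le_sub_one_of_pos hj') hj'.le)

/-- `H s = s - s log s + E log j!` -/
theorem entropy_lower {s : ℝ} (hs : 0 < s) : s - s * Real.log s ≤ poissonEntropy s := by
  refine hasSum_le (fun j => ?_) (hasSum_base hs) (summable_entropy hs.le).hasSum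
  rw [ent_term_eq hs]
  have h1 : 0 ≤ Real.log (j.factorial : ℝ) :=
    Real.log_nonneg (by exact_mod_cast j.factorial_pos)
  have h2 := mul_nonneg (poisson_nonneg hs.le j) h1
  linarith

/-- `log j! ≤ j (j - 1)` and the second factorial moment is `s ^ 2` -/
theorem entropy_upper {s : ℝ} (hs : 0 < s) : poissonEntropy s ≤ s - s * Real.log s + s ^ 2 := by
  refine hasSum_le (fun j => ?_) (summable_entropy hs.le).hasSum
    ((hasSum_base hs).add (hasSum_fact_two hs.le))
  rw [ent_term_eq hs]
  have h2 := mul_le_mul_of_nonneg_left (log_factorial_le j) (poisson_nonneg hs.le j)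
  linarith

/-- intermediate values on `[0, k / 2]` -/
theorem exists_time (k : ℕ) (a : ℝ) (ha : 0 ≤ a) (hk : 0 < k) (hak : 4 * a ≤ k) :
    ∃ t : ℝ, 0 ≤ t ∧ (k : ℝ) * poissonEntropy (t / k) = a := by
  have hk0 : (0 : ℝ) < k := by exact_mod_cast hk
  have hc : ContinuousOn (fun t : ℝ => (k : ℝ) * poissonEntropy (t / k)) (Set.Icc 0 (k / 2)) := by
    refine continuousOn_const.mul (continuousOn_entropy.comp (by fun_prop) ?_)
    intro t ht
    exact ⟨div_nonneg ht.1 hk0.le, by rw [div_le_one hk0]; linarith [ht.2]⟩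
  have h0 : (k : ℝ) * poissonEntropy (0 / k) ≤ a := by
    rw [zero_div, entropy_zero, mul_zero]
    exact ha
  have h4 : a ≤ (k : ℝ) * poissonEntropy ((k / 2) / k) := by
    have h1 : ((k : ℝ) / 2) / k = 1 / 2 := by field_simp
    rw [h1]
    have h2 := mul_le_mul_of_nonneg_left (entropy_ge_half (s := 1 / 2) le_rfl) hk0.le
    linarith
  obtain ⟨t, ht, hteq⟩ :=
    intermediate_value_Icc (by positivity : (0 : ℝ) ≤ k / 2) hc ⟨h0, h4⟩
  exact ⟨t, ht.1, hteq⟩

/-- `entropy_ge`, `entropy_ge_half` -/
theorem time_le_two (k : ℕ) (a t : ℝ) (hk : 0 < k) (hak : 4 * a ≤ k) (ht : 0 ≤ t)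
    (h : (k : ℝ) * poissonEntropy (t / k) = a) : t ≤ 2 * a := by
  have hk0 : (0 : ℝ) < k := by exact_mod_cast hk
  rcases le_total (t / k) (1 / 2) with h2 | h2
  · have h3 := entropy_ge (s := t / k) ⟨by positivity, by linarith⟩
    have h4 : (k : ℝ) * (t / k * (1 - t / k)) = t * (1 - t / k) := by field_simp
    have h5 := mul_le_mul_of_nonneg_left h3 hk0.le
    nlinarith
  · have h3 := mul_le_mul_of_nonneg_left (entropy_ge_half h2) hk0.le
    linarith

/-- `x log (k / x)` is increasing for `x ≤ k / 3` -/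
theorem xlog_mono {k x y : ℝ} (hx : 0 < x) (hxy : x ≤ y) (hy : 3 * y ≤ k) :
    x * Real.log (k / x) ≤ y * Real.log (k / y) := by
  have hy0 : 0 < y := by linarith
  have hk : 0 < k := by linarith
  have h1 : Real.log (k / x) = Real.log (k / y) + Real.log (y / x) := by
    rw [← Real.log_mul (by positivity) (by positivity)]
    congr 1
    field_simp
  have h2 : x * Real.log (y / x) ≤ y - x := by
    have h3 := mul_le_mul_of_nonneg_left
      (Real.log_le_sub_one_of_pos (show 0 < y / x by positivity)) hx.le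
    have h4 : x * (y / x - 1) = y - x := by field_simp
    linarith
  have h3 : 1 ≤ Real.log (k / y) := by
    rw [Real.le_log_iff_exp_le (by positivity), le_div_iff₀ hy0]
    have := Real.exp_one_lt_d9
    nlinarith
  rw [h1]
  nlinarith

lemma log_div_swap {t k : ℝ} : Real.log (t / k) = -Real.log (k / t) := by
  rw [← Real.log_inv, inv_div]

/-- a time with `a ≤ l log (k / l)` is at least the entropic time -/
theorem time_le_of (k : ℕ) (a t l : ℝ) (hk : 0 < k) (hak : 8 * a ≤ k) (ht : 0 ≤ t)
    (h : (k : ℝ) * poissonEntropy (t / k) = a) (hl : 0 < l)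
    (hal : a ≤ l * Real.log (k / l)) : t ≤ l := by
  have hk0 : (0 : ℝ) < k := by exact_mod_cast hk
  by_contra hlt
  have hlt' : l < t := not_le.1 hlt
  have ht0 : 0 < t := by linarith
  have h1 : t ≤ 2 * a := time_le_two k a t hk (by linarith) ht h
  have h2 := xlog_mono (k := (k : ℝ)) hl hlt'.le (by linarith)
  have h3 := mul_le_mul_of_nonneg_left (entropy_lower (s := t / k) (by positivity)) hk0.le
  have h4 : (k : ℝ) * (t / k - t / k * Real.log (t / k)) = t + t * Real.log (k / t) := by
    rw [log_div_swap]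
    field_simp
    ring
  linarith

/-- after `(1 + ε) t` there is room: `a ≤ t (log (k / t) + 2) ≤ l' (log (k / l') + 2)` for
`l' = l / (1 + ε) ≥ t` -/
theorem room (ε C : ℝ) (hε : 0 < ε) (hε1 : ε < 1) (hC : 0 ≤ C) : ∃ K : ℕ, ∀ (k : ℕ) (a t l : ℝ),
    0 < l → K * l ≤ k → 0 ≤ t → (k : ℝ) * poissonEntropy (t / k) = a → (1 + ε) * t ≤ l →
    a + C * l ≤ l * Real.log (k / l) := by
  refine ⟨⌈Real.exp ((3 + 2 * C) / ε)⌉₊ + 3, fun k a t l hl hK ht h htl => ?_⟩
  push_cast at hK
  have hce := Nat.le_ceil (Real.exp ((3 + 2 * C) / ε))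
  have hep := Real.exp_pos ((3 + 2 * C) / ε)
  have hk3 : 3 * l ≤ k := by nlinarith
  have hk0 : (0 : ℝ) < k := by linarith
  have hL : (3 + 2 * C) / ε ≤ Real.log (k / l) := by
    rw [Real.le_log_iff_exp_le (by positivity), le_div_iff₀ hl]
    nlinarith
  rw [div_le_iff₀ hε] at hL
  set L := Real.log (k / l) with hLdef
  have hL0 : 0 ≤ L := by nlinarith
  set m := l / (1 + ε) with hm
  have hm0 : 0 < m := by positivity
  have hml : m * (1 + ε) = l := by
    rw [hm]
    field_simp
  have htm : t ≤ m := by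
    rw [hm, le_div_iff₀ (by positivity)]
    linarith
  have hm1 : m ≤ l := by nlinarith
  have ha : a ≤ m * (L + 3) := by
    rcases ht.eq_or_lt with h0 | ht0
    · rw [← h0, zero_div, entropy_zero, mul_zero] at h
      rw [← h]
      positivity
    · have h3 := mul_le_mul_of_nonneg_left (entropy_upper (s := t / k) (by positivity)) hk0.le
      have h4 : (k : ℝ) * (t / k - t / k * Real.log (t / k) + (t / k) ^ 2) =
          t + t * Real.log (k / t) + t * (t / k) := by
        rw [log_div_swap]
        field_simp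
        ring
      have h5 : t / k ≤ 1 := by
        rw [div_le_one hk0]
        linarith
      have h6 := xlog_mono (k := (k : ℝ)) ht0 htm (by linarith)
      have h7 : Real.log (k / m) = L + Real.log (1 + ε) := by
        rw [hLdef, ← Real.log_mul (by positivity) (by positivity)]
        congr 1
        rw [hm]
        field_simp
      have h8 : Real.log (1 + ε) ≤ 1 := by
        have := Real.log_le_sub_one_of_pos (show 0 < 1 + ε by positivity)
        linarith
      have h9 := mul_le_mul_of_nonneg_left h5 ht0.le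
      have h10 := mul_le_mul_of_nonneg_left h8 hm0.le
      rw [h7] at h6
      nlinarith
  have hb : C * l ≤ m * (2 * C) := by
    rw [← hml]
    nlinarith [mul_nonneg hm0.le hC]
  have hc := mul_le_mul_of_nonneg_left hL hm0.le
  rw [← hml]
  rw [← hml] at hb
  nlinarith

end Pool.Agent.Lib.MP_d87a8f_pr.Q
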