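import Mathlib
import Pool.Agent.Lib.MP_d87a8f_pr.U.Defs

/-!
Definitions for the bounds on the cutoff time in terms of the degrees of representations.
-/

namespace Pool.Agent.Lib.MP_d87a8f_pr

/-- The matrix coefficients of the complex representations of `G` of dimension at most `D`. -/
def coeffs (G : Type) [Group G] (D : ℕ) : Set (G → ℂ) :=
  {f | ∃ (d : ℕ) (ρ : G →* Matrix (Fin d) (Fin d) ℂ) (a b : Fin d), d ≤ D ∧ f = fun g => ρ g a b}

/-- The dimension of the span of these coefficients; for a finite group this is the sum of the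
squares of the degrees of the irreducible representations of degree at most `D`. -/
noncomputable def lowDim (G : Type) [Group G] (D : ℕ) : ℕ :=
  Module.finrank ℂ (Submodule.span ℂ (coeffs G D))

/-- The condition `|G| ≤ k ^ l` and `lowDim G d * l ^ l ≤ (k * d ^ c) ^ l` for all `d ≥ 1`. -/
def DegCond (c : ℕ) (G : Type) [Group G] [Fintype G] (k l : ℕ) : Prop :=
  Fintype.card G ≤ k ^ l ∧ ∀ d : ℕ, 1 ≤ d → lowDim G d * l ^ l ≤ (k * d ^ c) ^ l

/-- The least `l` satisfying the condition. -/
noncomputable def degTime (c : ℕ) (G : Type) [Group G] [Fintype G] (k : ℕ) : ℕ :=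
  sInf {l : ℕ | DegCond c G k l}

end Pool.Agent.Lib.MP_d87a8f_pr
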