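import Mathlib

/-!
Matrix units attached to a representation that satisfies the Schur relations.
-/

namespace Pool.Agent.Lib.MP_d87a8f_pr.Q

open Finset

variable {G : Type} [Group G] [Fintype G] {n d : ℕ}

/-- the image under `π` of a matrix unit of the block of `ρ` -/
noncomputable def unitOf (ρ : G →* Matrix (Fin n) (Fin n) ℂ) (π : G →* Matrix (Fin d) (Fin d) ℂ)
    (a b : Fin n) : Matrix (Fin d) (Fin d) ℂ :=
  ∑ g : G, ((n : ℂ) / Fintype.card G * ρ g⁻¹ b a) • π g

theorem mul_unitOf (ρ : G →* Matrix (Fin n) (Fin n) ℂ) (π : G →* Matrix (Fin d) (Fin d) ℂ)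
    (x : G) (c e : Fin n) : π x * unitOf ρ π c e = ∑ f, ρ x f c • unitOf ρ π f e := by
  unfold unitOf
  simp only [smul_sum, smul_smul]
  rw [sum_comm, mul_sum, ← Equiv.sum_comp (Equiv.mulLeft x⁻¹)]
  refine sum_congr rfl fun h _ => ?_
  rw [← sum_smul, mul_smul_comm, ← map_mul]
  simp only [Equiv.coe_mulLeft, mul_inv_rev, inv_inv, mul_inv_cancel_left, map_mul,
    Matrix.mul_apply, mul_sum]
  congr 1
  exact sum_congr rfl fun f _ => by ring

theorem unitOf_mul (hn : 0 < n) (ρ : G →* Matrix (Fin n) (Fin n) ℂ)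
    (hS : ∀ a b c e : Fin n, ∑ g : G, ρ g a b * ρ g⁻¹ c e =
      if a = e ∧ b = c then (Fintype.card G : ℂ) / n else 0)
    (π : G →* Matrix (Fin d) (Fin d) ℂ) (a b c e : Fin n) :
    unitOf ρ π a b * unitOf ρ π c e = if c = b then unitOf ρ π a e else 0 := by
  have n0 : (n : ℂ) ≠ 0 := by exact_mod_cast hn.ne'
  have g0 : (Fintype.card G : ℂ) ≠ 0 := by exact_mod_cast Fintype.card_ne_zero
  have h1 : unitOf ρ π a b * unitOf ρ π c e =
      ∑ f, ((n : ℂ) / Fintype.card G * ∑ g : G, ρ g f c * ρ g⁻¹ b a) • unitOf ρ π f e := by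
    conv_lhs => rw [unitOf, sum_mul]
    simp only [smul_mul_assoc, mul_unitOf, smul_sum, smul_smul]
    rw [sum_comm]
    refine sum_congr rfl fun f _ => ?_
    rw [← sum_smul, mul_sum]
    congr 1
    exact sum_congr rfl fun g _ => by ring
  rw [h1, sum_eq_single a (fun f _ hf => by simp [hS, hf]) (by simp)]
  by_cases h : c = b
  · rw [hS, if_pos ⟨rfl, h⟩, if_pos h, show (n : ℂ) / Fintype.card G *
      (Fintype.card G / n) = 1 by field_simp, one_smul]
  · simp [hS, h]

theorem unitOf_eq_zero (ρ : G →* Matrix (Fin n) (Fin n) ℂ)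
    (hS : ∀ a b c e : Fin n, ∑ g : G, ρ g a b * ρ g⁻¹ c e =
      if a = e ∧ b = c then (Fintype.card G : ℂ) / n else 0)
    (π : G →* Matrix (Fin d) (Fin d) ℂ) (hd : d < n) (a b : Fin n) : unitOf ρ π a b = 0 := by
  by_contra h0
  obtain ⟨v, hv⟩ : ∃ v, (unitOf ρ π a b).mulVec v ≠ 0 := by
    by_contra h
    push Not at h
    exact h0 (Matrix.ext fun i j => by simpa using congrFun (h (Pi.single j 1)) i)
  have li : LinearIndependent ℂ fun c : Fin n => (unitOf ρ π c b).mulVec v := by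
    refine Fintype.linearIndependent_iff.2 fun l hl e => ?_
    have := congrArg (unitOf ρ π a e).mulVec hl
    simp only [Matrix.mulVec_sum, Matrix.mulVec_smul, Matrix.mulVec_mulVec, Matrix.mulVec_zero,
      unitOf_mul (by omega) ρ hS] at this
    rw [sum_eq_single e (fun f _ hf => by simp [hf]) (by simp), if_pos rfl] at this
    exact (smul_eq_zero.1 this).resolve_right hv
  have := li.fintype_card_le_finrank
  simp at this
  omega

theorem sum_unitOf (ρ : G →* Matrix (Fin n) (Fin n) ℂ) (π : G →* Matrix (Fin d) (Fin d) ℂ)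
    (x : G) : ∑ a, ∑ b, ρ x a b • unitOf ρ π a b =
      ∑ g : G, ((n : ℂ) * (ρ (x * g⁻¹)).trace / Fintype.card G) • π g := by
  unfold unitOf
  simp only [smul_sum, smul_smul]
  rw [sum_congr rfl fun a _ => sum_comm, sum_comm]
  refine sum_congr rfl fun g _ => ?_
  simp only [← sum_smul]
  congr 1
  simp only [map_mul, Matrix.trace, Matrix.diag_apply, Matrix.mul_apply, mul_sum, sum_div]
  exact sum_congr rfl fun a _ => sum_congr rfl fun b _ => by ring

end Pool.Agent.Lib.MP_d87a8f_pr.Q
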