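import Mathlib
import Pool.Agent.Lib.MP_d87a8f_pr.Q.Defs
import Pool.Agent.Lib.MP_d87a8f_pr.Q.WedL

/-!
The irreducible representations of a finite group through the Wedderburn decomposition.
-/

namespace Pool.Agent.Lib.MP_d87a8f_pr.Q

open Finset

variable {G : Type} [Group G] [Fintype G]

/-- the Schur orthogonality relations of one representation -/
def Schur {d : ℕ} (ρ : G →* Matrix (Fin d) (Fin d) ℂ) : Prop :=
  ∀ a b c e : Fin d, ∑ g : G, ρ g a b * ρ g⁻¹ c e =
    if a = e ∧ b = c then (Fintype.card G : ℂ) / d else 0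

/-- a complete list of irreducible representations, given by the facts that are used -/
structure Irr (G : Type) [Group G] [Fintype G] [DecidableEq G] where
  s : ℕ
  d : Fin s → ℕ
  ρ : ∀ i, G →* Matrix (Fin (d i)) (Fin (d i)) ℂ
  pos : ∀ i, 0 < d i
  reg : ∀ x : G, ∑ i, (d i : ℂ) * (ρ i x).trace = if x = 1 then (Fintype.card G : ℂ) else 0
  schur : ∀ i, Schur (ρ i)
  cross : ∀ i j, i ≠ j → ∀ a b c e, ∑ g : G, ρ i g a b * ρ j g⁻¹ c e = 0

theorem trace_form_one {n : ℕ} (ψ : Matrix (Fin n) (Fin n) ℂ →ₗ[ℂ] ℂ)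
    (hψ : ∀ x y, ψ (x * y) = ψ (y * x)) : ∃ c : ℂ, ∀ x, ψ x = c * x.trace := by
  obtain ⟨c, hc⟩ : ∃ c : ℂ, ∀ a b : Fin n, ψ (Matrix.single a b 1) = if a = b then c else 0 := by
    rcases isEmpty_or_nonempty (Fin n) with h | ⟨⟨o⟩⟩
    · exact ⟨0, fun a => h.elim a⟩
    refine ⟨ψ (Matrix.single o o 1), fun a b => ?_⟩
    have h1 := hψ (Matrix.single a o 1) (Matrix.single o b 1)
    rw [Matrix.single_mul_single_same, one_mul] at h1
    rw [h1]
    split_ifs with h
    · rw [h, Matrix.single_mul_single_same, one_mul]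
    · rw [Matrix.single_mul_single_of_ne _ _ _ _ (Ne.symm h), map_zero]
  refine ⟨c, fun x => ?_⟩
  have h2 : ∀ a b, ψ (Matrix.single a b (x a b)) = if a = b then c * x a b else 0 := fun a b => by
    have h3 : Matrix.single a b (x a b) = x a b • Matrix.single a b (1 : ℂ) := by
      rw [Matrix.smul_single, smul_eq_mul, mul_one]
    rw [h3, map_smul, hc, smul_eq_mul, mul_ite, mul_zero, mul_comm]
  conv_lhs => rw [Matrix.matrix_eq_sum_single x]
  simp only [map_sum, h2, sum_ite_eq, mem_univ, if_true, Matrix.trace, Matrix.diag_apply, mul_sum]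

/-- a trace functional on a product of matrix algebras is a combination of the traces -/
theorem trace_form {s : ℕ} (d : Fin s → ℕ)
    (φ : (∀ i, Matrix (Fin (d i)) (Fin (d i)) ℂ) →ₗ[ℂ] ℂ) (hφ : ∀ x y, φ (x * y) = φ (y * x)) :
    ∃ c : Fin s → ℂ, ∀ x, φ x = ∑ i, c i * (x i).trace := by
  have h : ∀ i, ∃ c : ℂ, ∀ x : Matrix (Fin (d i)) (Fin (d i)) ℂ,
      φ (Pi.single i x) = c * x.trace := fun i =>
    trace_form_one (φ ∘ₗ LinearMap.single ℂ (fun j => Matrix (Fin (d j)) (Fin (d j)) ℂ) i)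
      fun x y => by
        simp only [LinearMap.comp_apply, LinearMap.single_apply, Pi.single_mul]
        exact hφ _ _
  choose c hc using h
  refine ⟨c, fun x => ?_⟩
  conv_lhs => rw [← univ_sum_single x]
  rw [map_sum]
  exact sum_congr rfl fun i _ => hc i (x i)

omit [Fintype G] in
theorem coeff_one_comm (x y : MonoidAlgebra ℂ G) : (x * y).coeff 1 = (y * x).coeff 1 := by
  rw [MonoidAlgebra.coeff_mul_apply_left, MonoidAlgebra.coeff_mul_apply_right]
  exact Finsupp.sum_congr fun g _ => by rw [mul_one, one_mul, mul_comm]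

theorem alg_expand (y : MonoidAlgebra ℂ G) :
    y = ∑ g : G, (y * MonoidAlgebra.single g⁻¹ 1).coeff 1 • MonoidAlgebra.single g (1 : ℂ) := by
  conv_lhs => rw [← y.sum_coeff_single]
  rw [Finsupp.sum_fintype _ _ fun g => MonoidAlgebra.single_zero g]
  refine sum_congr rfl fun g _ => ?_
  rw [MonoidAlgebra.coeff_mul_single_apply, MonoidAlgebra.smul_single, inv_inv, one_mul, mul_one,
    smul_eq_mul, mul_one]

/-- Maschke and Wedderburn give `e : ℂ[G] ≃ₐ Π matrices`; put `ρ i g = e (single g 1) i`, take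
`φ` = coefficient at `1` composed with `e.symm` in `trace_form`; expand `e.symm` of a matrix unit
as `∑ g, φ (unit * e g⁻¹) • g` to get the orthogonality relations with constant `1 / c i`, and
`∑ g, ρ g * ρ g⁻¹ = |G|` gives `c i = d i / |G|` -/
theorem exists_irr (G : Type) [Group G] [Fintype G] [DecidableEq G] : Nonempty (Irr G) := by
  have hG : (Fintype.card G : ℂ) ≠ 0 := Nat.cast_ne_zero.2 Fintype.card_ne_zero
  have : NeZero (Nat.card G : ℂ) := ⟨by rwa [Nat.card_eq_fintype_card]⟩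
  obtain ⟨s, d, hd, ⟨e⟩⟩ :=
    IsSemisimpleRing.exists_algEquiv_pi_matrix_of_isAlgClosed ℂ (MonoidAlgebra ℂ G)
  let ρ : ∀ i, G →* Matrix (Fin (d i)) (Fin (d i)) ℂ := fun i =>
    { toFun := fun g => e (MonoidAlgebra.single g 1) i
      map_one' := by rw [← MonoidAlgebra.one_def, map_one, Pi.one_apply]
      map_mul' := fun g h => by
        rw [← Pi.mul_apply, ← map_mul, MonoidAlgebra.single_mul_single, mul_one] }
  have hρ : ∀ i g, ρ i g = e (MonoidAlgebra.single g 1) i := fun _ _ => rfl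
  let φ : (∀ i, Matrix (Fin (d i)) (Fin (d i)) ℂ) →ₗ[ℂ] ℂ :=
    { toFun := fun x => (e.symm x).coeff 1
      map_add' := fun x y => by rw [map_add, MonoidAlgebra.coeff_add, Finsupp.add_apply]
      map_smul' := fun r x => by rw [map_smul, MonoidAlgebra.coeff_smul_apply, RingHom.id_apply] }
  have hφ : ∀ x, φ x = (e.symm x).coeff 1 := fun _ => rfl
  obtain ⟨c, hc⟩ := trace_form d φ fun x y => by
    rw [hφ, hφ, map_mul, map_mul, coeff_one_comm]
  have key : ∀ i j a b p q, (∑ g : G, ρ i g a b * ρ j g⁻¹ q p) * c j =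
      Pi.single (M := fun k => Matrix (Fin (d k)) (Fin (d k)) ℂ) j (Matrix.single p q 1) i a b := by
    intro i j a b p q
    obtain ⟨x, hx⟩ : ∃ x, x = Pi.single (M := fun k => Matrix (Fin (d k)) (Fin (d k)) ℂ) j
      (Matrix.single p q 1) := ⟨_, rfl⟩
    have h1 := congrArg e (alg_expand (e.symm x))
    have h2 : ∀ g : G, (e.symm x * MonoidAlgebra.single g⁻¹ 1).coeff 1 = c j * ρ j g⁻¹ q p := by
      intro g
      have h3 := hc (x * e (MonoidAlgebra.single g⁻¹ 1))
      rw [hφ, map_mul, e.symm_apply_apply] at h3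
      rw [h3, sum_eq_single j]
      · rw [hx, Pi.mul_apply, Pi.single_eq_same, Matrix.trace_single_mul, one_smul, hρ]
      · intro k _ hk
        rw [hx, Pi.mul_apply, Pi.single_eq_of_ne hk, zero_mul, Matrix.trace_zero, mul_zero]
      · exact fun h => absurd (mem_univ j) h
    rw [e.apply_symm_apply, map_sum] at h1
    rw [← hx, h1, Finset.sum_apply, Matrix.sum_apply, sum_mul]
    refine sum_congr rfl fun g _ => ?_
    rw [h2, map_smul, Pi.smul_apply, Matrix.smul_apply, smul_eq_mul, ← hρ]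
    ring
  have hpos : ∀ i, 0 < d i := fun i => Nat.pos_of_ne_zero (hd i).ne
  have hcd : ∀ j, (Fintype.card G : ℂ) * c j = d j := fun j => by
    let o : Fin (d j) := ⟨0, hpos j⟩
    have h1 : ∑ b, (∑ g : G, ρ j g o b * ρ j g⁻¹ b o) * c j = ∑ _b : Fin (d j), (1 : ℂ) :=
      sum_congr rfl fun b _ => by rw [key, Pi.single_eq_same, Matrix.single_apply_same]
    rw [← sum_mul, sum_comm] at h1
    have h2 : ∀ g : G, ∑ b, ρ j g o b * ρ j g⁻¹ b o = 1 := fun g => by
      rw [← Matrix.mul_apply, ← map_mul, mul_inv_cancel, map_one, Matrix.one_apply_eq]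
    simpa [h2] using h1
  have hd0 : ∀ j, (d j : ℂ) ≠ 0 := fun j => Nat.cast_ne_zero.2 (hpos j).ne'
  have hc0 : ∀ j, c j ≠ 0 := fun j h => hd0 j (by rw [← hcd, h, mul_zero])
  refine ⟨⟨s, d, ρ, hpos, fun x => ?_, fun i a b q p => ?_, fun i j hij a b q p => ?_⟩⟩
  · have h1 := hc (e (MonoidAlgebra.single x 1))
    rw [hφ, e.symm_apply_apply, MonoidAlgebra.coeff_single, Finsupp.single_apply] at h1
    have h2 : ∑ i, (d i : ℂ) * (ρ i x).trace =
        Fintype.card G * ∑ i, c i * (e (MonoidAlgebra.single x 1) i).trace := by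
      rw [mul_sum]
      exact sum_congr rfl fun i _ => by rw [← hcd, mul_assoc, hρ]
    rw [h2, ← h1, mul_ite, mul_one, mul_zero]
  · refine mul_right_cancel₀ (hc0 i) ?_
    rw [key, Pi.single_eq_same, Matrix.single_apply]
    by_cases h : a = p ∧ b = q
    · rw [if_pos h, if_pos ⟨h.1.symm, h.2.symm⟩, div_mul_eq_mul_div, hcd, div_self (hd0 i)]
    · rw [if_neg h, if_neg fun h' => h ⟨h'.1.symm, h'.2.symm⟩, zero_mul]
  · refine mul_right_cancel₀ (hc0 j) ?_
    rw [key, Pi.single_eq_of_ne hij, zero_mul, Matrix.zero_apply]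

open scoped ComplexOrder Matrix in
/-- with `H = ∑ g, (ρ g)ᴴ * ρ g` positive definite, `(ρ x)ᴴ * H * ρ x = H` -/
theorem trace_inv {d : ℕ} (ρ : G →* Matrix (Fin d) (Fin d) ℂ) (x : G) :
    (ρ x⁻¹).trace = (starRingEnd ℂ) (ρ x).trace := by
  classical
  set H : Matrix (Fin d) (Fin d) ℂ := ∑ g : G, (ρ g)ᴴ * ρ g with hH
  have h1 : H.PosDef := by
    rw [hH, ← add_sum_erase _ _ (mem_univ (1 : G))]
    refine Matrix.PosDef.add_posSemidef (by simpa using Matrix.PosDef.one) ?_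
    exact Matrix.posSemidef_sum _ fun g _ => Matrix.posSemidef_conjTranspose_mul_self _
  have h2 : H * ρ x⁻¹ = (ρ x)ᴴ * H := by
    rw [hH, sum_mul, mul_sum]
    refine Fintype.sum_equiv (Equiv.mulRight x⁻¹) _ _ fun g => ?_
    rw [Equiv.coe_mulRight, ← mul_assoc, ← Matrix.conjTranspose_mul, ← map_mul, mul_assoc,
      ← map_mul]
    simp
  obtain ⟨u, hu⟩ := h1.isUnit
  have h3 : ρ x⁻¹ = (u⁻¹).val * (ρ x)ᴴ * u.val := by
    rw [mul_assoc, hu, ← h2, ← hu, Units.inv_mul_cancel_left]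
  rw [h3, Matrix.trace_units_conj', Matrix.trace_conjTranspose]
  rfl

variable [DecidableEq G]

theorem Irr.sum_sq (I : Irr G) : ∑ i, I.d i ^ 2 = Fintype.card G := by
  have h := I.reg 1
  simp only [map_one, Matrix.trace_one, Fintype.card_fin, if_true, ← sq] at h
  exact_mod_cast h

/-- the coefficient functions are linearly independent by the orthogonality relations -/
theorem Irr.sum_sq_le (I : Irr G) (D : ℕ) :
    ∑ i ∈ univ.filter (fun i => I.d i ≤ D), I.d i ^ 2 ≤ lowDim G D := by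
  let ι := Σ i : {i // I.d i ≤ D}, Fin (I.d i) × Fin (I.d i)
  let v : ι → G → ℂ := fun p g => I.ρ p.1 g p.2.1 p.2.2
  let f : ι → Module.Dual ℂ (G → ℂ) := fun p => ((I.d p.1 : ℂ) / Fintype.card G) •
    ∑ g : G, I.ρ p.1 g⁻¹ p.2.2 p.2.1 • LinearMap.proj g
  have hf : ∀ p q, f p (v q) = (I.d p.1 : ℂ) / Fintype.card G *
      ∑ g : G, I.ρ q.1 g q.2.1 q.2.2 * I.ρ p.1 g⁻¹ p.2.2 p.2.1 := fun p q => by
    simp [f, v, mul_comm]
  have hG : (Fintype.card G : ℂ) ≠ 0 := Nat.cast_ne_zero.2 Fintype.card_ne_zero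
  have hv : LinearIndependent ℂ v := by
    refine LinearIndependent.of_pairwise_dual_eq_zero_one v f ?_ fun p => ?_
    · rintro ⟨i, a, b⟩ ⟨j, a', b'⟩ h
      rw [hf]
      by_cases e : i = j
      · subst e
        rw [I.schur, if_neg, mul_zero]
        rintro ⟨rfl, rfl⟩
        exact h rfl
      · rw [I.cross _ _ fun e' => e (Subtype.ext e').symm, mul_zero]
    · have hd : (I.d p.1 : ℂ) ≠ 0 := Nat.cast_ne_zero.2 (I.pos _).ne'
      rw [hf, I.schur, if_pos ⟨rfl, rfl⟩]
      field_simp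
  have h1 : Fintype.card ι = ∑ i ∈ univ.filter (fun i => I.d i ≤ D), I.d i ^ 2 := by
    rw [Fintype.card_sigma, sum_subtype (p := fun i => I.d i ≤ D) (F := inferInstance) _ (by simp)]
    simp [sq]
  rw [← h1, ← finrank_span_eq_card hv]
  refine Submodule.finrank_mono (Submodule.span_mono ?_)
  rintro _ ⟨p, rfl⟩
  exact ⟨_, I.ρ p.1, p.2.1, p.2.2, p.1.2, rfl⟩

/-- for a representation `π` of dimension `d` the matrices
`T i a b = (d i / |G|) ∑ g, ρ i g⁻¹ b a • π g` are matrix units, `π x = ∑ i a b, ρ i x a b • T i a b`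
by `reg`, and `T i a b ≠ 0` gives `d i` nonzero orthogonal idempotents, so `d i ≤ d` by traces -/
theorem Irr.lowDim_le (I : Irr G) (D : ℕ) :
    lowDim G D ≤ ∑ i ∈ univ.filter (fun i => I.d i ≤ D), I.d i ^ 2 := by
  have g0 : (Fintype.card G : ℂ) ≠ 0 := by exact_mod_cast Fintype.card_ne_zero
  let F : (Σ i : {i // I.d i ≤ D}, Fin (I.d i) × Fin (I.d i)) → G → ℂ :=
    fun p g => I.ρ p.1 g p.2.1 p.2.2
  have hle : Submodule.span ℂ (coeffs G D) ≤ Submodule.span ℂ (Set.range F) := by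
    refine Submodule.span_le.2 ?_
    rintro _ ⟨d, π, p, q, hd, rfl⟩
    have h1 : ∀ x, π x = ∑ i, ∑ a, ∑ b, I.ρ i x a b • unitOf (I.ρ i) π a b := fun x => by
      simp only [sum_unitOf]
      rw [sum_comm]
      simp only [← sum_smul, ← sum_div, I.reg, mul_inv_eq_one]
      rw [sum_eq_single x (fun g _ hg => by simp [hg.symm]) (by simp), if_pos rfl, div_self g0,
        one_smul]
    have h2 : (fun x => π x p q) = ∑ i, ∑ a, ∑ b,
        unitOf (I.ρ i) π a b p q • fun x => I.ρ i x a b := by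
      funext x
      rw [h1 x]
      simp only [Matrix.sum_apply, Finset.sum_apply, Matrix.smul_apply, Pi.smul_apply,
        smul_eq_mul, mul_comm]
    rw [SetLike.mem_coe, h2]
    refine Submodule.sum_mem _ fun i _ => Submodule.sum_mem _ fun a _ =>
      Submodule.sum_mem _ fun b _ => ?_
    by_cases hi : I.d i ≤ D
    · exact Submodule.smul_mem _ _ (Submodule.subset_span ⟨⟨⟨i, hi⟩, a, b⟩, rfl⟩)
    · rw [unitOf_eq_zero _ (I.schur i) π (by omega)]
      simp
  refine (Submodule.finrank_mono hle).trans ((finrank_range_le_card F).trans (le_of_eq ?_))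
  rw [Fintype.card_sigma,
    sum_subtype (p := fun i => I.d i ≤ D) (F := inferInstance) _ (by simp)]
  simp [sq]

omit [DecidableEq G] in
theorem Schur.conj_sum {d : ℕ} {ρ : G →* Matrix (Fin d) (Fin d) ℂ} (hS : Schur ρ)
    (M : Matrix (Fin d) (Fin d) ℂ) :
    ∑ g : G, ρ g * M * ρ g⁻¹ = ((Fintype.card G : ℂ) / d * M.trace) • 1 := by
  ext a e
  have h : ∀ g : G, (ρ g * M * ρ g⁻¹) a e = ∑ c, ∑ b, M b c * (ρ g a b * ρ g⁻¹ c e) := fun g => by
    simp only [Matrix.mul_apply, sum_mul]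
    exact sum_congr rfl fun c _ => sum_congr rfl fun b _ => by ring
  rw [Matrix.sum_apply, sum_congr rfl fun g _ => h g, sum_comm]
  simp_rw [sum_comm (s := (univ : Finset G)), ← mul_sum, hS a _ _ e]
  by_cases hae : a = e
  · simp [hae, Matrix.trace, mul_sum, mul_comm]
  · simp [hae]

omit [DecidableEq G] in
theorem Schur.trace_sum {d : ℕ} {ρ : G →* Matrix (Fin d) (Fin d) ℂ} (hS : Schur ρ) :
    ∑ h : G, (ρ h).trace • ρ h⁻¹ = ((Fintype.card G : ℂ) / d) • 1 := by
  ext c e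
  simp only [Matrix.sum_apply, Matrix.smul_apply, Matrix.trace, Matrix.diag, smul_eq_mul, sum_mul]
  rw [sum_comm]
  simp_rw [hS _ _ c e]
  by_cases h : c = e
  · subst h
    simp
  · rw [Matrix.one_apply_ne h, mul_zero]
    exact sum_eq_zero fun a _ => if_neg fun k => h (k.2.symm.trans k.1)

omit [DecidableEq G] in
/-- `∑ g h, ρ (g * h * g⁻¹ * h⁻¹)` is the scalar `(|G| / d) ^ 2`, and it is the image of an element
of the integral group ring, which is finite over the integers -/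
theorem Schur.dvd_card {d : ℕ} {ρ : G →* Matrix (Fin d) (Fin d) ℂ} (hd : 0 < d) (hS : Schur ρ) :
    d ∣ Fintype.card G := by
  have h1 : ∑ h : G, ∑ g : G, ρ (g * h * g⁻¹ * h⁻¹) =
      Algebra.ofId ℂ _ (((Fintype.card G : ℂ) / d) ^ 2) := by
    simp_rw [map_mul, ← sum_mul, hS.conj_sum, smul_mul_assoc, one_mul, mul_smul, ← smul_sum,
      hS.trace_sum]
    rw [smul_smul, Algebra.ofId_apply, Algebra.algebraMap_eq_smul_one, sq]
  have h2 := (IsIntegral.of_finite ℤ (∑ h : G, ∑ g : G,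
    MonoidAlgebra.of ℤ G (g * h * g⁻¹ * h⁻¹))).map (MonoidAlgebra.lift ℤ _ G ρ)
  simp only [map_sum, MonoidAlgebra.lift_of] at h2
  have : Nonempty (Fin d) := ⟨⟨0, hd⟩⟩
  rw [h1] at h2
  have h3 := ((isIntegral_algHom_iff ((Algebra.ofId ℂ _).restrictScalars ℤ)
    (algebraMap ℂ (Matrix (Fin d) (Fin d) ℂ)).injective).1 h2).of_pow two_pos
  have h4 : IsIntegral ℤ ((Fintype.card G : ℚ) / d) := by
    refine (isIntegral_algebraMap_iff (algebraMap ℚ ℂ).injective).1 ?_
    simpa using h3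
  obtain ⟨y, hy⟩ := IsIntegrallyClosed.isIntegral_iff.1 h4
  have hd' : (d : ℚ) ≠ 0 := Nat.cast_ne_zero.2 hd.ne'
  rw [eq_div_iff hd'] at hy
  refine Int.natCast_dvd_natCast.1 (Dvd.intro_left y ?_)
  exact_mod_cast (by simpa using hy : (y : ℚ) * d = Fintype.card G)

theorem lowDim_le_card (D : ℕ) : lowDim G D ≤ Fintype.card G := by
  obtain ⟨I⟩ := exists_irr G
  exact (I.lowDim_le D).trans (le_trans (sum_le_sum_of_subset (filter_subset _ _)) I.sum_sq.le)

theorem lowDim_mono {D D' : ℕ} (h : D ≤ D') : lowDim G D ≤ lowDim G D' := by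
  obtain ⟨I⟩ := exists_irr G
  refine (I.lowDim_le D).trans (le_trans (sum_le_sum_of_subset fun i hi => ?_) (I.sum_sq_le D'))
  rw [mem_filter] at hi ⊢
  exact ⟨hi.1, hi.2.trans h⟩

end Pool.Agent.Lib.MP_d87a8f_pr.Q
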