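import Mathlib
import Pool.Agent.Lib.MP_d87a8f_pr.U.Fin
import Pool.Agent.Lib.MP_d87a8f_pr.Q.Wed

/-!
The lower bound on the cutoff time: the products of the rearrangements take few values.
-/

namespace Pool.Agent.Lib.MP_d87a8f_pr.Q

open Finset Pool.Agent.Lib.MP_d87a8f_pr.U

variable {G : Type} [Group G] [Fintype G] [DecidableEq G] {m : ℕ}

/-- choose `B ⊆ G` with `card B = finrank V` on which restriction is injective (bijective) on `V`;
each translate `S * y` meets `B` in at most `r` points, and the sum over `y` counts each point of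
`B` exactly `card S` times -/
theorem card_mul_finrank_le (V : Submodule ℂ (G → ℂ))
    (hV : ∀ f ∈ V, ∀ y : G, (fun x => f (x * y)) ∈ V) (S : Finset G) (r : ℕ)
    (hr : Module.finrank ℂ (V.map (LinearMap.funLeft ℂ ℂ (fun x : S => (x : G)))) ≤ r) :
    S.card * Module.finrank ℂ V ≤ Fintype.card G * r := by
  classical
  let ev : G → Module.Dual ℂ V := fun x => (LinearMap.proj x).comp V.subtype
  obtain ⟨κ, a, ha, hsp, hli⟩ := exists_linearIndependent' ℂ ev
  let _ : Fintype κ := Fintype.ofInjective a ha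
  have h1 : Module.finrank ℂ V ≤ Fintype.card κ := by
    have hinj : Function.Injective (LinearMap.pi (fun i : κ => ev (a i))) := by
      rw [← LinearMap.ker_eq_bot, LinearMap.ker_eq_bot']
      intro f hf
      have h2 : ∀ φ ∈ Submodule.span ℂ (Set.range (ev ∘ a)), φ f = 0 := by
        intro φ hφ
        induction hφ using Submodule.span_induction with
        | mem φ hφ =>
          obtain ⟨i, rfl⟩ := hφ
          exact congrFun hf i
        | zero => rfl
        | add φ ψ _ _ h h' => rw [LinearMap.add_apply, h, h', add_zero]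
        | smul c φ _ h => rw [LinearMap.smul_apply, h, smul_zero]
      ext x
      exact h2 (ev x) (hsp ▸ Submodule.subset_span ⟨x, rfl⟩)
    simpa using LinearMap.finrank_le_finrank_of_injective hinj
  have h2 : ∀ y : G, (univ.filter fun i : κ => a i * y⁻¹ ∈ S).card ≤ r := by
    intro y
    let W := V.map (LinearMap.funLeft ℂ ℂ (fun x : S => (x : G)))
    let φ : V →ₗ[ℂ] W := LinearMap.codRestrict W
      ((LinearMap.funLeft ℂ ℂ (fun x : S => (x : G) * y)).comp V.subtype)
      (fun f => ⟨fun x => f.1 (x * y), hV f.1 f.2 y, rfl⟩)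
    let u : {i : κ // a i * y⁻¹ ∈ S} → Module.Dual ℂ W :=
      fun i => (LinearMap.proj (⟨a i.1 * y⁻¹, i.2⟩ : S)).comp W.subtype
    have h3 : LinearIndependent ℂ u := by
      refine LinearIndependent.of_comp φ.dualMap ?_
      have h4 : φ.dualMap ∘ u = (ev ∘ a) ∘ Subtype.val := by
        funext i
        ext f
        change f.1 (a i.1 * y⁻¹ * y) = f.1 (a i.1)
        rw [inv_mul_cancel_right]
      rw [h4]
      exact hli.comp _ Subtype.val_injective
    have h5 := h3.fintype_card_le_finrank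
    rw [Subspace.dual_finrank_eq, Fintype.card_subtype] at h5
    exact h5.trans hr
  have h3 : ∀ i : κ, (univ.filter fun y : G => a i * y⁻¹ ∈ S).card = S.card := by
    intro i
    refine card_bij (fun y _ => a i * y⁻¹) (fun y hy => (mem_filter.1 hy).2)
      (fun y _ z _ h => inv_injective (mul_left_cancel h)) (fun x hx => ?_)
    exact ⟨x⁻¹ * a i, mem_filter.2 ⟨mem_univ _, by simpa using hx⟩, by simp⟩
  calc S.card * Module.finrank ℂ V ≤ S.card * Fintype.card κ := Nat.mul_le_mul_left _ h1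
    _ = ∑ i : κ, (univ.filter fun y : G => a i * y⁻¹ ∈ S).card := by
        simp only [h3, sum_const, card_univ, smul_eq_mul, Nat.mul_comm]
    _ = ∑ y : G, (univ.filter fun i : κ => a i * y⁻¹ ∈ S).card := by
        simp only [card_filter]
        exact sum_comm
    _ ≤ ∑ _y : G, r := sum_le_sum fun y _ => h2 y
    _ = Fintype.card G * r := by simp

omit [Fintype G] [DecidableEq G] in
theorem coeffs_right (D : ℕ) (f : G → ℂ) (hf : f ∈ Submodule.span ℂ (coeffs G D)) (y : G) :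
    (fun x => f (x * y)) ∈ Submodule.span ℂ (coeffs G D) := by
  induction hf using Submodule.span_induction with
  | mem f hf =>
    obtain ⟨d, ρ, a, b, hd, rfl⟩ := hf
    have e : (fun x => ρ (x * y) a b) = ∑ c : Fin d, ρ y c b • fun x => ρ x a c := by
      funext x
      simp only [map_mul, Matrix.mul_apply, Finset.sum_apply, Pi.smul_apply, smul_eq_mul, mul_comm]
    rw [e]
    exact Submodule.sum_mem _ fun c _ =>
      Submodule.smul_mem _ _ (Submodule.subset_span ⟨d, ρ, a, c, hd, rfl⟩)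
  | zero => exact Submodule.zero_mem _
  | add f g _ _ h h' => exact Submodule.add_mem _ h h'
  | smul c f _ h => exact Submodule.smul_mem _ c h

omit [Fintype G] [DecidableEq G] in
/-- `s ↦ (∏ j, M (s j)) a b` is multilinear in `M`; expand each `M j` in matrix units -/
theorem finrank_perm_le (D : ℕ) (g : Fin m → G) :
    Module.finrank ℂ ((Submodule.span ℂ (coeffs G D)).map (LinearMap.funLeft ℂ ℂ
      (fun s : Equiv.Perm (Fin m) => wp (fun j => g (s j))))) ≤ (D + 1) * (D ^ 2) ^ (m + 1) := by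
  classical
  let F : (Σ d : Fin (D + 1), (Fin d × Fin d) × (Fin m → Fin d × Fin d)) →
      Equiv.Perm (Fin m) → ℂ := fun z s =>
    (List.ofFn fun j => Matrix.single (z.2.2 (s j)).1 (z.2.2 (s j)).2 (1 : ℂ)).prod z.2.1.1 z.2.1.2
  have h1 : (Submodule.span ℂ (coeffs G D)).map (LinearMap.funLeft ℂ ℂ
      (fun s : Equiv.Perm (Fin m) => wp (fun j => g (s j)))) ≤ Submodule.span ℂ (Set.range F) := by
    rw [Submodule.map_span, Submodule.span_le]
    rintro _ ⟨_, ⟨d, ρ, a, b, hd, rfl⟩, rfl⟩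
    have e : (LinearMap.funLeft ℂ ℂ (fun s : Equiv.Perm (Fin m) => wp (fun j => g (s j))))
        (fun x => ρ x a b) = ∑ e : Fin m → Fin d × Fin d, (∏ i, ρ (g i) (e i).1 (e i).2) •
          F ⟨⟨d, Nat.lt_succ_of_le hd⟩, (a, b), e⟩ := by
      funext s
      let Φ := (MultilinearMap.mkPiAlgebraFin ℂ m (Matrix (Fin d) (Fin d) ℂ)).domDomCongr s
      have hΦ : ∀ M : Fin m → Matrix (Fin d) (Fin d) ℂ,
          Φ M = (List.ofFn fun j => M (s j)).prod := fun M => rfl
      have e1 : ρ (wp fun j => g (s j)) = Φ fun i => ρ (g i) := by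
        rw [hΦ, wp, map_list_prod, List.map_ofFn]
        rfl
      have e2 : (fun i => ρ (g i)) = fun i => ∑ q : Fin d × Fin d,
          ρ (g i) q.1 q.2 • Matrix.single q.1 q.2 (1 : ℂ) := by
        funext i
        rw [Fintype.sum_prod_type]
        simp only [Matrix.smul_single, smul_eq_mul, mul_one]
        exact Matrix.matrix_eq_sum_single _
      rw [LinearMap.funLeft_apply, e1, e2, Φ.map_sum, Finset.sum_apply, Matrix.sum_apply]
      refine sum_congr rfl fun e _ => ?_
      rw [Φ.map_smul_univ, hΦ]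
      rfl
    rw [e]
    exact Submodule.sum_mem _ fun e _ =>
      Submodule.smul_mem _ _ (Submodule.subset_span ⟨_, rfl⟩)
  refine (Submodule.finrank_mono h1).trans ((finrank_range_le_card F).trans ?_)
  rw [Fintype.card_sigma]
  calc ∑ d : Fin (D + 1), Fintype.card ((Fin d × Fin d) × (Fin m → Fin d × Fin d))
      ≤ ∑ _d : Fin (D + 1), (D ^ 2) ^ (m + 1) := by
        refine sum_le_sum fun d _ => ?_
        have hd : (d : ℕ) * d ≤ D ^ 2 := by
          rw [sq]; exact Nat.mul_le_mul (Nat.le_of_lt_succ d.2) (Nat.le_of_lt_succ d.2)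
        simp only [Fintype.card_prod, Fintype.card_fin, Fintype.card_pi, prod_const, card_univ]
        rw [← pow_succ']
        exact Nat.pow_le_pow_left hd _
    _ = (D + 1) * (D ^ 2) ^ (m + 1) := by simp

/-- the set of products of the rearrangements -/
def vals (g : Fin m → G) : Finset G :=
  univ.image (fun s : Equiv.Perm (Fin m) => wp (fun j => g (s j)))

theorem vals_le (D : ℕ) (g : Fin m → G) :
    (vals g).card * lowDim G D ≤ Fintype.card G * ((D + 1) * (D ^ 2) ^ (m + 1)) := by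
  refine card_mul_finrank_le _ (coeffs_right D) (vals g) _ (le_trans ?_ (finrank_perm_le D g))
  let π : Equiv.Perm (Fin m) → vals g := fun s =>
    ⟨wp (fun j => g (s j)), mem_image.2 ⟨s, mem_univ _, rfl⟩⟩
  have hπ : Function.Surjective π := by
    rintro ⟨x, hx⟩
    obtain ⟨s, -, rfl⟩ := mem_image.1 hx
    exact ⟨s, rfl⟩
  have e : LinearMap.funLeft ℂ ℂ (fun s : Equiv.Perm (Fin m) => wp (fun j => g (s j))) =
      (LinearMap.funLeft ℂ ℂ π).comp (LinearMap.funLeft ℂ ℂ (fun x : vals g => (x : G))) := rfl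
  rw [e, Submodule.map_comp]
  exact (Submodule.equivMapOfInjective _
    (LinearMap.funLeft_injective_of_surjective ℂ ℂ π hπ) _).finrank_eq.le

omit [Fintype G] in
theorem one_le_vals (g : Fin m → G) : 1 ≤ (vals g).card :=
  Finset.card_pos.mpr (Finset.univ_nonempty.image _)

omit [Fintype G] in
theorem sum_inv_rearr_le (g : Fin m → G) :
    ∑ t : Equiv.Perm (Fin m), (1 : ℝ) / rearr (fun j => g (t j)) ≤ (vals g).card := by
  rw [← Finset.sum_fiberwise_of_maps_to (s := univ) (t := vals g)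
    (g := fun s : Equiv.Perm (Fin m) => wp (fun j => g (s j)))
    (fun s _ => Finset.mem_image_of_mem _ (mem_univ s))]
  refine le_trans (Finset.sum_le_sum (g := fun _ => (1 : ℝ)) (fun v _ => ?_)) (by simp)
  have hA : ∀ t ∈ univ.filter (fun s : Equiv.Perm (Fin m) => wp (fun j => g (s j)) = v),
      (1 : ℝ) / rearr (fun j => g (t j)) =
        1 / (univ.filter (fun s : Equiv.Perm (Fin m) => wp (fun j => g (s j)) = v)).card := by
    intro t ht
    rw [rearr_comp, (mem_filter.1 ht).2]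
  rw [Finset.sum_congr rfl hA, Finset.sum_const, nsmul_eq_mul, mul_one_div]
  exact div_self_le_one _

omit [Fintype G] in
/-- `∑ t, 1 / rearr (g ∘ t) = card (vals g)` and `log y ≤ log c + y / c - 1` -/
theorem sum_log_le (g : Fin m → G) (c : ℝ) (hc : ((vals g).card : ℝ) ≤ c) :
    ∑ t : Equiv.Perm (Fin m), (Real.log m.factorial - lq (fun j => g (t j))) ≤
      (m.factorial : ℝ) * Real.log c := by
  have hm : (0 : ℝ) < m.factorial := by exact_mod_cast m.factorial_pos
  have h1 : (1 : ℝ) ≤ (vals g).card := by exact_mod_cast one_le_vals g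
  have hc0 : 0 < c := by linarith
  have h2 : ∀ t : Equiv.Perm (Fin m), Real.log m.factorial - lq (fun j => g (t j)) ≤
      (Real.log c - 1) + (m.factorial : ℝ) / c * (1 / rearr (fun j => g (t j))) := by
    intro t
    have hr : (0 : ℝ) < rearr (fun j => g (t j)) := by exact_mod_cast rearr_pos _
    have h3 := Real.log_le_sub_one_of_pos
      (show 0 < (m.factorial : ℝ) / c * (1 / rearr (fun j => g (t j))) by positivity)
    rw [Real.log_mul (by positivity) (by positivity), Real.log_div hm.ne' hc0.ne',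
      Real.log_div one_ne_zero hr.ne', Real.log_one] at h3
    unfold lq
    linarith
  refine le_trans (Finset.sum_le_sum (fun t _ => h2 t)) ?_
  rw [Finset.sum_add_distrib, ← Finset.mul_sum, Finset.sum_const, Finset.card_univ,
    Fintype.card_perm, Fintype.card_fin, nsmul_eq_mul]
  have h4 : (m.factorial : ℝ) / c * ∑ t : Equiv.Perm (Fin m),
      (1 : ℝ) / rearr (fun j => g (t j)) ≤ (m.factorial : ℝ) / c * c :=
    mul_le_mul_of_nonneg_left ((sum_inv_rearr_le g).trans hc) (by positivity)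
  rw [div_mul_cancel₀ _ hc0.ne'] at h4
  linarith

theorem meanLog_ge_of {k : ℕ} (hk : 0 < k) (c : ℝ)
    (hc : ∀ g : Fin m → G, ((vals g).card : ℝ) ≤ c) :
    Real.log m.factorial ≤ meanLog G k m + Real.log c := by
  have : Nonempty (Fin k) := ⟨⟨0, hk⟩⟩
  have h1 : (1 : ℝ) ≤ c :=
    le_trans (by exact_mod_cast one_le_vals (fun _ : Fin m => (1 : G))) (hc _)
  have h2 := av_exch (k := k) (fun g : Fin m → G => Real.log m.factorial - lq g) (Real.log c)
    (Real.log_nonneg h1) (fun g => sum_log_le g c (hc g))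
  rw [av_sub, av_const, ← meanLog_eq] at h2
  linarith

theorem meanLog_ge {k : ℕ} (hk : 0 < k) (D : ℕ) (hD : 1 ≤ D) :
    Real.log m.factorial + Real.log (lowDim G D) ≤
      Real.log (Fintype.card G) + meanLog G k m +
        Real.log (((D + 1) * (D ^ 2) ^ (m + 1) : ℕ) : ℝ) := by
  have hR : 0 < (D + 1) * (D ^ 2) ^ (m + 1) := by positivity
  have hv := fun g : Fin m → G => vals_le D g
  generalize (D + 1) * (D ^ 2) ^ (m + 1) = R at hR hv ⊢
  have hR' : (0 : ℝ) < R := by exact_mod_cast hR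
  have hG : (0 : ℝ) < Fintype.card G := by exact_mod_cast Fintype.card_pos
  rcases Nat.eq_zero_or_pos (lowDim G D) with h | h
  · have h1 := meanLog_ge_of (G := G) (m := m) hk (Fintype.card G)
      (fun g => by exact_mod_cast Finset.card_le_univ _)
    have h2 : 0 ≤ Real.log (R : ℝ) := Real.log_natCast_nonneg _
    rw [h, Nat.cast_zero, Real.log_zero]
    linarith
  · have hW : (0 : ℝ) < lowDim G D := by exact_mod_cast h
    have h1 := meanLog_ge_of (G := G) (m := m) hk (Fintype.card G * R / lowDim G D)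
      (fun g => by
        rw [le_div_iff₀ hW]
        exact_mod_cast hv g)
    rw [Real.log_div (by positivity) hW.ne', Real.log_mul hG.ne' hR'.ne'] at h1
    linarith

theorem pow_self_le (T : ℕ) : T ^ T ≤ 3 ^ T * T.factorial := by
  have h0 : (0 : ℝ) < T.factorial := by exact_mod_cast T.factorial_pos
  have h1 := Real.pow_div_factorial_le_exp (T : ℝ) (Nat.cast_nonneg T) T
  rw [div_le_iff₀ h0] at h1
  have h2 : Real.exp (T : ℝ) ≤ 3 ^ T := by
    rw [← Real.exp_one_pow]
    exact pow_le_pow_left₀ (Real.exp_pos 1).le (by linarith [Real.exp_one_lt_d9]) T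
  have h3 : (T : ℝ) ^ T ≤ 3 ^ T * T.factorial := h1.trans (mul_le_mul_of_nonneg_right h2 h0.le)
  exact_mod_cast h3

theorem low_nat {k T j n d W : ℕ} (hT : 1 ≤ T) (hn : T ≤ n * j) (hl : T + 2 + j ≤ 3 * T)
    (hk : 18 ^ n * (T + 2 + j) ≤ k) (hd : 1 ≤ d)
    (hW : W * T.factorial ≤ k ^ T * ((d + 1) * (d ^ 2) ^ (T + 1))) :
    W * (T + 2 + j) ^ (T + 2 + j) ≤ (k * d ^ 2) ^ (T + 2 + j) := by
  generalize hL : T + 2 + j = L at hl hk
  have hLk : L ≤ k := le_trans (Nat.le_mul_of_pos_left _ (by positivity)) hk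
  have hd2 : 1 ≤ d ^ 2 := Nat.one_le_pow _ _ hd
  have h1 : L ^ T ≤ 9 ^ T * T.factorial := by
    calc L ^ T ≤ (3 * T) ^ T := Nat.pow_le_pow_left hl T
      _ = 3 ^ T * T ^ T := mul_pow _ _ _
      _ ≤ 3 ^ T * (3 ^ T * T.factorial) := Nat.mul_le_mul_left _ (pow_self_le T)
      _ = 9 ^ T * T.factorial := by rw [← mul_assoc, ← mul_pow]; rfl
  have h2 : W * T.factorial ≤ (k * d ^ 2) ^ T * (2 * d ^ 3) := by
    refine hW.trans ?_
    have e : k ^ T * ((d + 1) * (d ^ 2) ^ (T + 1)) = (k * d ^ 2) ^ T * ((d + 1) * d ^ 2) := by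
      rw [mul_pow, pow_succ (d ^ 2) T]
      ring
    rw [e]
    refine Nat.mul_le_mul_left _ ?_
    calc (d + 1) * d ^ 2 ≤ (2 * d) * d ^ 2 := Nat.mul_le_mul_right _ (by omega)
      _ = 2 * d ^ 3 := by ring
  have h3 : 2 * 9 ^ T ≤ 18 ^ T := by
    calc 2 * 9 ^ T ≤ 2 ^ T * 9 ^ T :=
          Nat.mul_le_mul_right _ (by simpa using Nat.pow_le_pow_right (by norm_num : 0 < 2) hT)
      _ = 18 ^ T := by rw [← mul_pow]; rfl
  have h4 : L ^ 2 * d ^ 3 ≤ (k * d ^ 2) ^ 2 := by
    calc L ^ 2 * d ^ 3 ≤ k ^ 2 * d ^ 4 :=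
          Nat.mul_le_mul (Nat.pow_le_pow_left hLk 2) (Nat.pow_le_pow_right hd (by norm_num))
      _ = (k * d ^ 2) ^ 2 := by ring
  have h5 : 18 ^ T * L ^ j ≤ (k * d ^ 2) ^ j := by
    calc 18 ^ T * L ^ j ≤ 18 ^ (n * j) * L ^ j :=
          Nat.mul_le_mul_right _ (Nat.pow_le_pow_right (by norm_num) hn)
      _ = (18 ^ n * L) ^ j := by rw [mul_pow, pow_mul]
      _ ≤ (k * d ^ 2) ^ j :=
          Nat.pow_le_pow_left (hk.trans (Nat.le_mul_of_pos_right _ hd2)) j
  have h6 : W * L ^ T ≤ (k * d ^ 2) ^ T * (d ^ 3 * 18 ^ T) := by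
    calc W * L ^ T ≤ W * (9 ^ T * T.factorial) := Nat.mul_le_mul_left _ h1
      _ = 9 ^ T * (W * T.factorial) := by ring
      _ ≤ 9 ^ T * ((k * d ^ 2) ^ T * (2 * d ^ 3)) := Nat.mul_le_mul_left _ h2
      _ = (k * d ^ 2) ^ T * (d ^ 3 * (2 * 9 ^ T)) := by ring
      _ ≤ (k * d ^ 2) ^ T * (d ^ 3 * 18 ^ T) :=
          Nat.mul_le_mul_left _ (Nat.mul_le_mul_left _ h3)
  generalize k * d ^ 2 = Y at h4 h5 h6 ⊢
  have e1 : ∀ x : ℕ, x ^ L = x ^ T * x ^ 2 * x ^ j := fun x => by
    rw [← hL, pow_add, pow_add]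
  rw [e1 L, e1 Y]
  calc W * (L ^ T * L ^ 2 * L ^ j) = W * L ^ T * (L ^ 2 * L ^ j) := by ring
    _ ≤ Y ^ T * (d ^ 3 * 18 ^ T) * (L ^ 2 * L ^ j) := Nat.mul_le_mul_right _ h6
    _ = Y ^ T * (L ^ 2 * d ^ 3) * (18 ^ T * L ^ j) := by ring
    _ ≤ Y ^ T * Y ^ 2 * Y ^ j := Nat.mul_le_mul (Nat.mul_le_mul_left _ h4) h5

/-- with `y = k d ^ 2 / l ≥ k / l`: `W ≤ y ^ T * (3 e) ^ T * 2 d ^ 3`, `d ^ 3 ≤ y ^ 2` -/
theorem low_term (ε : ℝ) (hε : 0 < ε) (hε1 : ε < 1) : ∃ M K : ℕ, ∀ (k T l d W : ℕ),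
    M ≤ T → K * T ≤ k → (1 + ε) * T ≤ l → l ≤ 3 * T → 1 ≤ d →
    W * T.factorial ≤ k ^ T * ((d + 1) * (d ^ 2) ^ (T + 1)) → W * l ^ l ≤ (k * d ^ 2) ^ l := by
  obtain ⟨n, hn⟩ := exists_nat_ge (4 / ε)
  rw [div_le_iff₀ hε] at hn
  refine ⟨n, 3 * 18 ^ n, fun k T l d W hM hK hl h3 hd hW => ?_⟩
  have hM' : (n : ℝ) ≤ T := by exact_mod_cast hM
  have h4 : 4 ≤ ε * T := by nlinarith
  have h5 : T + 2 ≤ l := by
    have : (T : ℝ) + 2 ≤ l := by nlinarith
    exact_mod_cast this
  obtain ⟨j, rfl⟩ := Nat.exists_eq_add_of_le h5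
  have hT : 1 ≤ T := by omega
  have hj : ε * T ≤ 2 * j := by
    push_cast at hl
    nlinarith
  have hnj : T ≤ n * j := by
    have hj0 : (0 : ℝ) ≤ j := Nat.cast_nonneg j
    have h6 : ε * (T : ℝ) ≤ ε * (n * j) := by nlinarith
    have h7 : (T : ℝ) ≤ n * j := le_of_mul_le_mul_left h6 hε
    exact_mod_cast h7
  refine low_nat hT hnj h3 (le_trans ?_ hK) hd hW
  calc 18 ^ n * (T + 2 + j) ≤ 18 ^ n * (3 * T) := Nat.mul_le_mul_left _ h3
    _ = 3 * 18 ^ n * T := by ring

omit [Group G] [Fintype G] [DecidableEq G] in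
theorem fin_deg_low (ε : ℝ) (hε : 0 < ε) (hε1 : ε < 1) :
    ∃ M K : ℕ, ∀ (G : Type) [Group G] [Fintype G] [DecidableEq G] (k T l : ℕ),
      M ≤ T → K * T ≤ k → (1 + ε) * T ≤ l → l ≤ 3 * T → psi G k T ≤ 0 → DegCond 2 G k l := by
  obtain ⟨M, K, h⟩ := low_term ε hε hε1
  refine ⟨M + 1, K + 1, fun G _ _ _ k T l hM hK hl h3 hp => ?_⟩
  have hk : 0 < k := lt_of_lt_of_le (Nat.mul_pos (Nat.succ_pos K) (by omega)) hK
  have hk' : (0 : ℝ) < k := by exact_mod_cast hk
  have hG : (0 : ℝ) < Fintype.card G := by exact_mod_cast Fintype.card_pos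
  have hTl : T ≤ l := by
    have h0 : (0 : ℝ) ≤ ε * T := by positivity
    have : (T : ℝ) ≤ l := by nlinarith
    exact_mod_cast this
  unfold psi at hp
  refine ⟨?_, fun d hd => ?_⟩
  · have h1 : Real.log (Fintype.card G) ≤ Real.log ((k : ℝ) ^ T) := by
      rw [Real.log_pow]
      linarith [meanLog_nonneg (G := G) (k := k) (m := T)]
    have h2 : (Fintype.card G : ℝ) ≤ (k : ℝ) ^ T :=
      (Real.log_le_log_iff hG (by positivity)).1 h1
    have h4 : Fintype.card G ≤ k ^ T := by exact_mod_cast h2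
    exact h4.trans (Nat.pow_le_pow_right hk hTl)
  · refine h k T l d _ (by omega) (le_trans (Nat.mul_le_mul_right _ (Nat.le_succ K)) hK) hl h3
      hd ?_
    rcases Nat.eq_zero_or_pos (lowDim G d) with h0 | h0
    · rw [h0, zero_mul]
      exact Nat.zero_le _
    · have h1 := meanLog_ge (G := G) (m := T) hk d hd
      have hR : 0 < (d + 1) * (d ^ 2) ^ (T + 1) := by positivity
      generalize (d + 1) * (d ^ 2) ^ (T + 1) = R at hR h1 ⊢
      have hR' : (0 : ℝ) < R := by exact_mod_cast hR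
      have hW : (0 : ℝ) < lowDim G d := by exact_mod_cast h0
      have hF : (0 : ℝ) < T.factorial := by exact_mod_cast T.factorial_pos
      have h2 : Real.log ((lowDim G d : ℝ) * T.factorial) ≤ Real.log ((k : ℝ) ^ T * R) := by
        rw [Real.log_mul hW.ne' hF.ne', Real.log_mul (by positivity) hR'.ne', Real.log_pow]
        linarith
      have h4 : (lowDim G d : ℝ) * T.factorial ≤ (k : ℝ) ^ T * R :=
        (Real.log_le_log_iff (by positivity) (by positivity)).1 h2
      exact_mod_cast h4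

end Pool.Agent.Lib.MP_d87a8f_pr.Q
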