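import Mathlib
import Pool.Agent.Lib.MP_d87a8f_pr.Q.Wed

/-!
Groups whose representations of small degree factor through the abelianisation.
-/

namespace Pool.Agent.Lib.MP_d87a8f_pr.Q

open Finset

variable {G : Type} [Group G] [Fintype G]

/-- the coefficients are constant on the cosets of `K` -/
theorem lowDim_le_index (D : ℕ) (K : Subgroup G)
    (h : ∀ (d : ℕ) (ρ : G →* Matrix (Fin d) (Fin d) ℂ), d ≤ D → ∀ x ∈ K, ρ x = 1) :
    lowDim G D ≤ K.index := by
  classical
  have hle : Submodule.span ℂ (coeffs G D) ≤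
      LinearMap.range (LinearMap.funLeft ℂ ℂ (QuotientGroup.mk : G → G ⧸ K)) := by
    rw [Submodule.span_le]
    rintro f ⟨d, ρ, a, b, hd, rfl⟩
    refine ⟨fun q => ρ q.out a b, ?_⟩
    funext g
    obtain ⟨k, hk⟩ := QuotientGroup.mk_out_eq_mul K g
    simp only [LinearMap.funLeft_apply]
    rw [hk, map_mul, h d ρ hd k k.2, mul_one]
  refine (Submodule.finrank_mono hle).trans ((LinearMap.finrank_range_le _).trans ?_)
  rw [Module.finrank_fintype_fun_eq_card, Subgroup.index, Nat.card_eq_fintype_card]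

theorem lowDim_le_ab (D : ℕ)
    (h : ∀ (d : ℕ) (ρ : G →* Matrix (Fin d) (Fin d) ℂ), d ≤ D → ∀ x ∈ commutator G, ρ x = 1) :
    lowDim G D ≤ Nat.card (Abelianization G) :=
  lowDim_le_index D (commutator G) h

theorem lowDim_one_le : lowDim G 1 ≤ Nat.card (Abelianization G) := by
  refine lowDim_le_ab 1 fun d ρ hd x hx => ?_
  have hc : ∀ A B : Matrix (Fin d) (Fin d) ℂ, A * B = B * A := by
    intro A B
    ext i j
    have hs : Subsingleton (Fin d) := ⟨fun a b => Fin.ext (by omega)⟩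
    rw [Matrix.mul_apply, Matrix.mul_apply]
    refine Finset.sum_congr rfl fun k _ => ?_
    rw [hs.elim k i, hs.elim j i, mul_comm]
  have hk : commutator G ≤ ρ.ker := by
    refine Subgroup.commutator_le.2 fun g _ g' _ => ?_
    rw [MonoidHom.mem_ker, commutatorElement_def, map_mul, map_mul, map_mul, hc (ρ g) (ρ g'),
      ← map_mul, ← map_mul, ← map_mul]
    simp
  exact hk hx

/-- the characters of the abelianisation (`CommGroup.card_monoidHom_of_hasEnoughRootsOfUnity`)
are linearly independent (`linearIndependent_monoidHom`) -/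
theorem ab_le_lowDim : Nat.card (Abelianization G) ≤ lowDim G 1 := by
  classical
  have hcard := CommGroup.card_monoidHom_of_hasEnoughRootsOfUnity (Abelianization G) ℂ
  have hfin : Finite (Abelianization G →* ℂˣ) := by
    apply Nat.finite_of_card_ne_zero
    rw [hcard]
    exact Nat.card_pos.ne'
  let _ := Fintype.ofFinite (Abelianization G →* ℂˣ)
  let φ : (Abelianization G →* ℂˣ) → (G →* ℂ) :=
    fun χ => (Units.coeHom ℂ).comp (χ.comp Abelianization.of)
  have hφ : Function.Injective φ := by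
    intro χ χ' e
    apply Abelianization.hom_ext
    ext g
    exact DFunLike.congr_fun e g
  have hli := (linearIndependent_monoidHom G ℂ).comp φ hφ
  have hmem : ∀ χ, ((φ χ : G →* ℂ) : G → ℂ) ∈ Submodule.span ℂ (coeffs G 1) := by
    intro χ
    refine Submodule.subset_span
      ⟨1, (Matrix.scalar (Fin 1)).toMonoidHom.comp (φ χ), 0, 0, le_rfl, ?_⟩
    funext g
    simp
  have h2 : LinearIndependent ℂ
      (fun χ => (⟨_, hmem χ⟩ : Submodule.span ℂ (coeffs G 1))) :=
    LinearIndependent.of_comp (Submodule.span ℂ (coeffs G 1)).subtype hli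
  have h3 := h2.fintype_card_le_finrank
  rw [← hcard, Nat.card_eq_fintype_card]
  exact h3

/-- degrees divide the order (`Schur.dvd_card`, `Irr.lowDim_le`, `Irr.sum_sq_le`) -/
theorem lowDim_minFac : lowDim G ((Fintype.card G).minFac - 1) ≤ Nat.card (Abelianization G) := by
  classical
  obtain ⟨I⟩ := exists_irr G
  refine (I.lowDim_le _).trans (le_trans (sum_le_sum_of_subset fun i hi => ?_)
    ((I.sum_sq_le 1).trans lowDim_one_le))
  rw [mem_filter] at hi ⊢
  refine ⟨hi.1, ?_⟩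
  by_contra hc
  have h1 := Nat.minFac_le_of_dvd (by omega : 2 ≤ I.d i) ((I.schur i).dvd_card (I.pos i))
  have h2 := Nat.minFac_pos (Fintype.card G)
  have h3 := hi.2
  omega

theorem cls_fix {p d : ℕ} (B : Matrix (Fin d) (Fin d) ℂ) (hB : B ^ p = 1) :
    B * ∑ j ∈ range p, B ^ j = ∑ j ∈ range p, B ^ j := by
  have h := mul_geom_sum B p
  rw [hB, sub_self, sub_mul, one_mul] at h
  exact sub_eq_zero.mp h

theorem cls_idem {p d : ℕ} (hp : p ≠ 0) (B : Matrix (Fin d) (Fin d) ℂ) (hB : B ^ p = 1) :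
    IsIdempotentElem ((p : ℂ)⁻¹ • ∑ j ∈ range p, B ^ j) := by
  have hk : ∀ k : ℕ, B ^ k * ∑ j ∈ range p, B ^ j = ∑ j ∈ range p, B ^ j := by
    intro k
    induction k with
    | zero => simp
    | succ k ih => rw [pow_succ, mul_assoc, cls_fix B hB, ih]
  have hp' : (p : ℂ) ≠ 0 := Nat.cast_ne_zero.mpr hp
  have h2 : (∑ j ∈ range p, B ^ j) * ∑ j ∈ range p, B ^ j =
      (p : ℂ) • ∑ j ∈ range p, B ^ j := by
    rw [Finset.sum_mul, Finset.sum_congr rfl (fun k _ => hk k), Finset.sum_const, card_range,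
      Nat.cast_smul_eq_nsmul]
  unfold IsIdempotentElem
  rw [smul_mul_smul_comm, h2, smul_smul, mul_assoc, inv_mul_cancel₀ hp', mul_one]

theorem cls_idem_lin {d : ℕ} {P : Matrix (Fin d) (Fin d) ℂ} (h : IsIdempotentElem P) :
    IsIdempotentElem (Matrix.toLin' P) := by
  unfold IsIdempotentElem
  rw [Module.End.mul_eq_comp, ← Matrix.toLin'_mul, h.eq]

theorem cls_trace_nat {d : ℕ} {P : Matrix (Fin d) (Fin d) ℂ} (h : IsIdempotentElem P) :
    ∃ a : ℕ, P.trace = a :=
  ⟨_, by rw [← Matrix.trace_toLin'_eq,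
    (LinearMap.IsIdempotentElem.isProj_range _ (cls_idem_lin h)).trace]⟩

theorem cls_trace_zero {d : ℕ} {P : Matrix (Fin d) (Fin d) ℂ} (h : IsIdempotentElem P)
    (h0 : P.trace = 0) : P = 0 := by
  rw [← Matrix.trace_toLin'_eq] at h0
  have h1 := LinearMap.IsIdempotentElem.eq_zero_of_trace_eq_zero (cls_idem_lin h) h0
  exact (LinearEquiv.map_eq_zero_iff Matrix.toLin').mp h1

omit [Fintype G] in
/-- `P ζ = (1 / p) ∑ j, ζ ^ j • ρ (c ^ j)` is idempotent, so its trace is a natural number; the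
traces for `ζ = 1` and for a primitive root satisfy `a₀ + (p - 1) a = d`; if `a = 0` then
`P 1 = 1` -/
theorem rational_elt {p d : ℕ} (hp : p.Prime) (c : G) (hc : c ^ p = 1)
    (hconj : ∀ j : ℕ, 0 < j → j < p → IsConj c (c ^ j))
    (ρ : G →* Matrix (Fin d) (Fin d) ℂ) (hd : d + 1 < p) : ρ c = 1 := by
  obtain ⟨q, rfl⟩ : ∃ q, p = q + 1 := ⟨p - 1, by have := hp.pos; omega⟩
  have hA : ρ c ^ (q + 1) = 1 := by rw [← map_pow, hc, map_one]
  have htr : ∀ j ∈ range q, (ρ c ^ (j + 1)).trace = (ρ c).trace := by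
    intro j hj
    obtain ⟨g, hg⟩ := isConj_iff.mp (hconj (j + 1) (Nat.succ_pos j)
      (Nat.succ_lt_succ (mem_range.mp hj)))
    rw [← map_pow, ← hg, map_mul, Matrix.trace_mul_comm, ← map_mul, ← mul_assoc,
      inv_mul_cancel, one_mul]
  have hp' : ((q + 1 : ℕ) : ℂ) ≠ 0 := Nat.cast_ne_zero.mpr hp.ne_zero
  have hsum : ∀ z : ℂ, (∑ j ∈ range (q + 1), (z • ρ c) ^ j).trace =
      (∑ j ∈ range q, z ^ (j + 1)) * (ρ c).trace + d := by
    intro z
    rw [Finset.sum_range_succ', Matrix.trace_add, Matrix.trace_sum, Finset.sum_mul, pow_zero,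
      Matrix.trace_one, Fintype.card_fin]
    congr 1
    refine Finset.sum_congr rfl fun j hj => ?_
    rw [smul_pow, Matrix.trace_smul, htr j hj, smul_eq_mul]
  have hz := Complex.isPrimitiveRoot_exp (q + 1) hp.ne_zero
  set z := Complex.exp (2 * Real.pi * Complex.I / ((q + 1 : ℕ) : ℂ))
  have hz1 : ∑ j ∈ range q, z ^ (j + 1) = -1 := by
    have h := hz.geom_sum_eq_zero hp.one_lt
    rw [Finset.sum_range_succ', pow_zero] at h
    exact eq_neg_of_add_eq_zero_left h
  have hB : (z • ρ c) ^ (q + 1) = 1 := by rw [smul_pow, hz.pow_eq_one, hA, one_smul]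
  obtain ⟨a, ha⟩ := cls_trace_nat (cls_idem hp.ne_zero _ hB)
  have hI := cls_idem hp.ne_zero _ hA
  obtain ⟨b, hb⟩ := cls_trace_nat hI
  have hb0 := hb
  have h1 := hsum 1
  simp only [one_smul, one_pow, Finset.sum_const, card_range, nsmul_eq_mul, mul_one] at h1
  rw [Matrix.trace_smul, hsum z, hz1, smul_eq_mul, inv_mul_eq_iff_eq_mul₀ hp'] at ha
  rw [Matrix.trace_smul, h1, smul_eq_mul, inv_mul_eq_iff_eq_mul₀ hp'] at hb
  have h2 : ((b + q * a : ℕ) : ℂ) = d := by
    apply mul_left_cancel₀ hp'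
    push_cast at ha hb ⊢
    linear_combination -hb - q * ha
  have h3 : b + q * a = d := by exact_mod_cast h2
  have h4 : a = 0 := by
    by_contra h
    have : q * 1 ≤ q * a := Nat.mul_le_mul_left q (Nat.pos_of_ne_zero h)
    omega
  have h5 : b = d := by simpa [h4] using h3
  have h6 := cls_trace_zero hI.one_sub (by
    rw [Matrix.trace_sub, hb0, Matrix.trace_one, Fintype.card_fin, h5, sub_self])
  have h7 := sub_eq_zero.mp h6
  calc ρ c = ρ c * 1 := (mul_one _).symm
    _ = 1 := by rw [h7, Matrix.mul_smul, cls_fix _ hA]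

/-- a `p`-cycle with `(n - 2) / 2 < p ≤ n - 2` (Bertrand, `alternatingGroup.isConj_of`) lies in
the kernel, and the alternating group is simple -/
theorem alt_trivial {n d : ℕ} (hn : 8 ≤ n) (hd : d ≤ n / 2 - 3)
    (ρ : alternatingGroup (Fin n) →* Matrix (Fin d) (Fin d) ℂ) (x : alternatingGroup (Fin n)) :
    ρ x = 1 := by
  obtain ⟨p, hp, h1, h2⟩ := Nat.exists_prime_lt_and_le_two_mul (n / 2 - 1) (by omega)
  obtain ⟨g, hg⟩ := (Equiv.Perm.exists_with_cycleType_iff (Fin n) (m := {p})).mpr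
    ⟨by simp; omega, by simpa using hp.two_le⟩
  have hcy : g.IsCycle := Equiv.Perm.card_cycleType_eq_one.mp (by rw [hg]; rfl)
  have hs : g.support.card = p := by rw [← Equiv.Perm.sum_cycleType, hg]; simp
  have ho : orderOf g = p := by rw [hcy.orderOf, hs]
  have hodd : Odd p := hp.odd_of_ne_two (by omega)
  have hmem : g ∈ alternatingGroup (Fin n) := by
    rw [Equiv.Perm.mem_alternatingGroup, hcy.sign, hs, hodd.neg_one_pow, neg_neg]
  have hc : ρ ⟨g, hmem⟩ = 1 := by
    refine rational_elt hp _ (Subtype.ext ?_) (fun j hj hj' => ?_) ρ (by omega)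
    · rw [SubgroupClass.coe_pow, ← ho]
      exact pow_orderOf_eq_one g
    · refine alternatingGroup.isConj_of ?_
        (by rw [Fintype.card_fin]; change g.support.card + 2 ≤ n; omega)
      change IsConj g (g ^ j)
      refine hcy.isConj (hcy.isCycle_pow_pos_of_lt_prime_order (ho ▸ hp) j hj (ho ▸ hj')) ?_
      rw [hcy.support_pow_of_pos_of_lt_orderOf hj (ho ▸ hj')]
  have := alternatingGroup.isSimpleGroup (α := Fin n) (by simp; omega)
  rcases (MonoidHom.normal_ker ρ).eq_bot_or_eq_top with h | h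
  · have h3 : (⟨g, hmem⟩ : alternatingGroup (Fin n)) ∈ ρ.ker := hc
    rw [h, Subgroup.mem_bot] at h3
    exact absurd (congrArg Subtype.val h3) hcy.ne_one
  · have h3 : x ∈ ρ.ker := h ▸ Subgroup.mem_top x
    exact h3

theorem lowDim_alt {n : ℕ} (hn : 8 ≤ n) :
    lowDim (alternatingGroup (Fin n)) (n / 2 - 3) ≤
      Nat.card (Abelianization (alternatingGroup (Fin n))) :=
  lowDim_le_ab _ (fun _ ρ hd x _ => alt_trivial hn hd ρ x)

/-- the commutator subgroup lies in the alternating group -/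
theorem lowDim_perm {n : ℕ} (hn : 8 ≤ n) :
    lowDim (Equiv.Perm (Fin n)) (n / 2 - 3) ≤ Nat.card (Abelianization (Equiv.Perm (Fin n))) := by
  exact lowDim_le_ab _ (fun _ ρ hd x hx => alt_trivial hn hd
    (ρ.comp (alternatingGroup (Fin n)).subtype)
    ⟨x, Abelianization.commutator_subset_ker Equiv.Perm.sign hx⟩)

end Pool.Agent.Lib.MP_d87a8f_pr.Q
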