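import Mathlib
import Pool.Agent.Lib.MP_d87a8f_pr.U.Adj
import Pool.Agent.Lib.MP_d87a8f_pr.Q.Wed

/-!
The mean character of a word and of its rearrangement, for independent uniform letters.
-/

namespace Pool.Agent.Lib.MP_d87a8f_pr.Q

open Finset Pool.Agent.Lib.MP_d87a8f_pr.U

variable {G : Type} [Group G] [Fintype G] {m d : ℕ}

/-- the map `0 ↦ nx s 0`, `a + 1 ↦ scc s a` -/
def pif (s : Equiv.Perm (Fin m)) : Fin (m + 1) → Fin (m + 1) :=
  fun p => Fin.cases (nx s 0) (fun a => scc s a) p

theorem pif_inj (s : Equiv.Perm (Fin m)) : Function.Injective (pif s) := by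
  intro p q h
  induction p using Fin.cases <;> induction q using Fin.cases
  · rfl
  · exact absurd (nx_inj s h).symm (Fin.succ_ne_zero _)
  · exact absurd (nx_inj s h) (Fin.succ_ne_zero _)
  · exact congrArg Fin.succ (s.symm.injective (Fin.succ_injective _ (nx_inj s h)))

/-- the same map as a permutation -/
noncomputable def pim (s : Equiv.Perm (Fin m)) : Equiv.Perm (Fin (m + 1)) :=
  Equiv.ofBijective (pif s) (Finite.injective_iff_bijective.mp (pif_inj s))

theorem pim_zero (s : Equiv.Perm (Fin m)) : pim s 0 = nx s 0 := rfl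

theorem pim_succ (s : Equiv.Perm (Fin m)) (a : Fin m) : pim s a.succ = scc s a := rfl

/-- `nx s 0 = pim s 0` and `nx s (j + 1) = pim s (s j + 1)` determine `s` by induction -/
theorem pim_inj : Function.Injective (pim : Equiv.Perm (Fin m) → Equiv.Perm (Fin (m + 1))) := by
  intro s t h
  have e : ∀ j : Fin m, nx s j.castSucc = nx t j.castSucc → s j = t j := fun j hj => by
    rw [nx_castSucc, nx_castSucc] at hj
    exact Fin.castSucc_injective _ hj
  have k : ∀ j, nx s j = nx t j := fun j => by
    induction j using Fin.induction with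
    | zero => rw [← pim_zero, ← pim_zero, h]
    | succ i ih =>
      have h1 : scc s (s i) = scc t (t i) := by rw [← pim_succ, ← pim_succ, h, e i ih]
      simpa [scc] using h1
  exact Equiv.ext fun j => e j (k _)

/-- colourings with `d` colours that are constant on the cycles of `π` -/
def fixc (d : ℕ) {X : Type} [Fintype X] [DecidableEq X] (π : Equiv.Perm X) : ℕ :=
  (univ.filter (fun v : X → Fin d => ∀ p, v (π p) = v p)).card

/-- path expansion of an ordered product of matrices -/
theorem prod_apply (M : Fin m → Matrix (Fin d) (Fin d) ℂ) (a b : Fin d) :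
    (List.ofFn M).prod a b = ∑ u ∈ univ.filter (fun u : Fin (m + 1) → Fin d =>
      u 0 = a ∧ u (Fin.last m) = b), ∏ j : Fin m, M j (u j.castSucc) (u j.succ) := by
  induction m generalizing a with
  | zero =>
    rw [sum_filter, ← (Fin.consEquiv fun _ : Fin (0 + 1) => Fin d).sum_comp, Fintype.sum_prod_type]
    simp [Matrix.one_apply, ite_and]
  | succ m ih =>
    rw [List.ofFn_succ, List.prod_cons, Matrix.mul_apply, sum_filter,
      ← (Fin.consEquiv fun _ : Fin (m + 1 + 1) => Fin d).sum_comp, Fintype.sum_prod_type]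
    simp only [ih, sum_filter, mul_sum, Fin.consEquiv_apply, ← Fin.succ_last, Fin.cons_zero,
      Fin.cons_succ, Fin.prod_univ_succ, Fin.castSucc_zero, Fin.castSucc_succ, ite_and]
    rw [sum_comm, sum_comm (s := univ) (t := univ)
      (f := fun (x : Fin d) (u : Fin (m + 1) → Fin d) => if x = a then _ else _)]
    refine sum_congr rfl fun u _ => ?_
    simp

theorem sum_ends (f : Fin d → Fin d → (Fin (m + 1) → Fin d) → ℂ) :
    ∑ a, ∑ b, ∑ v ∈ univ.filter (fun v : Fin (m + 1) → Fin d => v 0 = a ∧ v (Fin.last m) = b),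
      f a b v = ∑ v, f (v 0) (v (Fin.last m)) v := by
  simp only [sum_filter, ite_and]
  rw [sum_congr rfl fun a _ => sum_comm, sum_comm]
  refine sum_congr rfl fun v _ => ?_
  simp

/-- the dual representation -/
def dualRep (ρ : G →* Matrix (Fin d) (Fin d) ℂ) : G →* Matrix (Fin d) (Fin d) ℂ where
  toFun g := (ρ g⁻¹).transpose
  map_one' := by rw [inv_one, map_one, Matrix.transpose_one]
  map_mul' g h := by rw [mul_inv_rev, map_mul, Matrix.transpose_mul]

omit [Fintype G] in
theorem map_wp (ρ : G →* Matrix (Fin d) (Fin d) ℂ) (g : Fin m → G) :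
    ρ (wp g) = (List.ofFn fun j => ρ (g j)).prod := by
  rw [wp, map_list_prod, List.map_ofFn]
  rfl

omit [Fintype G] in
theorem trace_paths (ρ : G →* Matrix (Fin d) (Fin d) ℂ) (s : Equiv.Perm (Fin m))
    (g : Fin m → G) : (ρ (wp (fun j => g (s j)) * (wp g)⁻¹)).trace =
      ∑ v : Fin (m + 1) → Fin d, ∑ u ∈ univ.filter (fun u : Fin (m + 1) → Fin d =>
        u 0 = v 0 ∧ u (Fin.last m) = v (Fin.last m)),
        ∏ p, (ρ (g p) (u (s.symm p).castSucc) (u (s.symm p).succ) *
          ρ (g p)⁻¹ (v p.succ) (v p.castSucc)) := by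
  have e : ∀ a b, ρ (wp g)⁻¹ b a = dualRep ρ (wp g) a b := fun _ _ => rfl
  rw [map_mul, Matrix.trace]
  simp only [Matrix.diag_apply, Matrix.mul_apply, e, map_wp, prod_apply, mul_sum]
  rw [sum_ends]
  refine sum_congr rfl fun v _ => ?_
  rw [sum_mul]
  refine sum_congr rfl fun u _ => ?_
  rw [prod_mul_distrib, ← s.symm.prod_comp]
  simp only [Equiv.apply_symm_apply]
  rfl

theorem paths_iff (s : Equiv.Perm (Fin m)) (u v : Fin (m + 1) → Fin d) :
    ((u 0 = v 0 ∧ u (Fin.last m) = v (Fin.last m)) ∧ ∀ p,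
      u (s.symm p).castSucc = v p.castSucc ∧ u (s.symm p).succ = v p.succ) ↔
      (∀ p, v (pim s p) = v p) ∧ u = fun q => v (nx s q) := by
  constructor
  · rintro ⟨⟨h0, h1⟩, h2⟩
    have hu : u = fun q => v (nx s q) := funext fun q => by
      induction q using Fin.lastCases with
      | last => rw [nx_last, h1]
      | cast j => rw [nx_castSucc, ← (h2 (s j)).1, Equiv.symm_apply_apply]
    subst hu
    exact ⟨fun p => Fin.cases h0 (fun a => (h2 a).2) p, rfl⟩
  · rintro ⟨h, rfl⟩
    refine ⟨⟨h 0, by simp only [nx_last]⟩, fun p => ⟨?_, h p.succ⟩⟩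
    simp only [nx_castSucc, Equiv.apply_symm_apply]

/-- expand both products in paths `u`, `v` (for the inverse use the representation
`g ↦ (ρ g⁻¹)ᵀ`), reindex the first product by `p = s j`, sum each letter by `Schur`;
what is left is `u = v ∘ nx s` and `v ∘ pim s = v` -/
theorem sum_trace {ρ : G →* Matrix (Fin d) (Fin d) ℂ} (hS : Schur ρ) (s : Equiv.Perm (Fin m)) :
    ∑ g : Fin m → G, (ρ (wp (fun j => g (s j)) * (wp g)⁻¹)).trace =
      ((Fintype.card G : ℂ) / d) ^ m * (fixc d (pim s) : ℂ) := by
  simp only [trace_paths]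
  rw [sum_comm, fixc, card_filter, Nat.cast_sum, mul_sum]
  refine sum_congr rfl fun v _ => ?_
  rw [sum_comm, sum_filter]
  have e : ∀ u : Fin (m + 1) → Fin d,
      (if u 0 = v 0 ∧ u (Fin.last m) = v (Fin.last m) then
        ∑ g : Fin m → G, ∏ p, (ρ (g p) (u (s.symm p).castSucc) (u (s.symm p).succ) *
          ρ (g p)⁻¹ (v p.succ) (v p.castSucc)) else 0) =
      if (∀ p, v (pim s p) = v p) ∧ u = fun q => v (nx s q) then
        ((Fintype.card G : ℂ) / d) ^ m else 0 := fun u => by
    rw [← Fintype.prod_sum fun p x => ρ x (u (s.symm p).castSucc) (u (s.symm p).succ) *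
      ρ x⁻¹ (v p.succ) (v p.castSucc)]
    simp only [hS _ _ _ _, prod_ite_zero, mem_univ, forall_true_left, prod_const, card_univ,
      Fintype.card_fin, ← ite_and, paths_iff]
  simp only [e, ite_and]
  split_ifs <;> simp

/-- cutting a point out of its cycle frees its colour -/
theorem fixc_cut {X : Type} [Fintype X] [DecidableEq X] (π : Equiv.Perm X) (p : X)
    (hp : π p ≠ p) : d * fixc d π ≤ fixc d (Equiv.swap p (π p) * π) := by
  have h := Finset.card_le_card_of_injOn
    (s := (univ : Finset (Fin d)) ×ˢ univ.filter fun v : X → Fin d => ∀ q, v (π q) = v q)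
    (t := univ.filter fun v : X → Fin d => ∀ q, v ((Equiv.swap p (π p) * π) q) = v q)
    (fun z => Function.update z.2 p z.1) (fun z hz => ?_) fun z hz y hy e => ?_
  · simpa [fixc] using h
  · have hv := (mem_filter.1 (mem_product.1 hz).2).2
    refine mem_coe.2 (mem_filter.2 ⟨mem_univ _, fun q => ?_⟩)
    rw [Equiv.Perm.mul_apply]
    by_cases h1 : q = p
    · rw [h1, Equiv.swap_apply_right]
    by_cases h2 : π q = p
    · rw [h2, Equiv.swap_apply_left]
      simp only [Function.update_of_ne hp, Function.update_of_ne h1]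
      rw [hv, ← hv q, h2]
    · rw [Equiv.swap_apply_of_ne_of_ne h2 fun e => h1 (π.injective e)]
      simp only [Function.update_of_ne h2, Function.update_of_ne h1]
      exact hv q
  · have k : ∀ q, q ≠ p → z.2 q = y.2 q := fun q hq => by
      simpa [Function.update_of_ne hq] using congrFun e q
    refine Prod.ext (by simpa using congrFun e p) (funext fun q => ?_)
    by_cases hq : q = p
    · rw [hq, ← (mem_filter.1 (mem_product.1 hz).2).2 p, ← (mem_filter.1 (mem_product.1 hy).2).2 p]
      exact k _ hp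
    · exact k q hq

theorem lp_sum_le {α β : Type} [DecidableEq β] {s : Finset α} {t : Finset β} {f : α → ℕ}
    {g : β → ℕ} (e : α → β) (h1 : Set.InjOn e s) (h2 : s.image e ⊆ t)
    (h3 : ∀ a ∈ s, f a ≤ g (e a)) : ∑ a ∈ s, f a ≤ ∑ b ∈ t, g b :=
  ((sum_le_sum h3).trans_eq (sum_image h1).symm).trans (sum_le_sum_of_subset h2)

theorem fixc_step {X : Type} [Fintype X] [DecidableEq X] (F : Finset X) {p : X} (hp : p ∉ F) :
    d * ∑ π ∈ univ.filter (fun π : Equiv.Perm X => ∀ q ∈ F, π q = q), fixc d π ≤
      (d + (Fintype.card X - (F.card + 1))) *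
        ∑ π ∈ univ.filter (fun π : Equiv.Perm X => ∀ q ∈ insert p F, π q = q), fixc d π := by
  rw [← sum_filter_add_sum_filter_not _ (fun π : Equiv.Perm X => π p = p), mul_add, add_mul]
  refine add_le_add (Nat.mul_le_mul_left _ (sum_le_sum_of_subset fun π h => ?_)) ?_
  · simp only [mem_filter, mem_univ, true_and, mem_insert, forall_eq_or_imp] at h ⊢
    exact h.symm
  rw [mul_sum, ← card_insert_of_notMem hp, ← card_compl, ← smul_eq_mul, ← sum_const,
    ← sum_product' (f := fun _ π => fixc d π)]
  refine (sum_le_sum fun π h => fixc_cut π p (mem_filter.1 h).2).trans ?_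
  refine lp_sum_le (fun π => (π p, Equiv.swap p (π p) * π)) (fun π _ σ _ e => ?_)
    (fun z hz => ?_) fun _ _ => le_rfl
  · obtain ⟨e1, e2⟩ := Prod.mk.inj e
    rw [e1] at e2
    exact mul_left_cancel e2
  · obtain ⟨π, h, rfl⟩ := mem_image.1 hz
    simp only [mem_filter, mem_univ, true_and] at h
    have h2 : π p ∉ F := fun k => h.2 (π.injective (h.1 _ k))
    simp only [mem_product, mem_compl, mem_insert, not_or, mem_filter, mem_univ, true_and,
      forall_eq_or_imp, Equiv.Perm.mul_apply, Equiv.swap_apply_right]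
    refine ⟨⟨h.2, h2⟩, fun q hq => ?_⟩
    rw [h.1 q hq]
    exact Equiv.swap_apply_of_ne_of_ne (fun e => hp (e ▸ hq)) fun e => h2 (e ▸ hq)

/-- downward induction on `F`: `d * A F ≤ (d + card X - card F - 1) * A (insert p F)` -/
theorem sum_fixc {X : Type} [Fintype X] [DecidableEq X] (hd : 0 < d) (F : Finset X) (M : ℕ)
    (hM : Fintype.card X ≤ M + 1) (hF : F.card < Fintype.card X) :
    ∑ π ∈ univ.filter (fun π : Equiv.Perm X => ∀ p ∈ F, π p = p), fixc d π ≤
      d ^ (F.card + 1) * (d + M) ^ (Fintype.card X - F.card - 1) := by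
  obtain ⟨k, hk⟩ : ∃ k, Fintype.card X = F.card + k + 1 := ⟨Fintype.card X - F.card - 1, by omega⟩
  rw [show Fintype.card X - F.card - 1 = k by omega]
  induction k generalizing F with
  | zero =>
    obtain ⟨p, -, hp⟩ := exists_mem_notMem_of_card_lt_card (hF.trans_eq card_univ.symm)
    have h := fixc_step (d := d) F hp
    have hu : insert p F = univ := eq_univ_of_card _ (by rw [card_insert_of_notMem hp, hk])
    have h1 : univ.filter (fun π : Equiv.Perm X => ∀ q ∈ insert p F, π q = q) ⊆ {1} :=
      fun π h => mem_singleton.2 (Equiv.ext fun q => (mem_filter.1 h).2 q (hu ▸ mem_univ q))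
    have h2 := (sum_le_sum_of_subset (f := fun π => fixc d π) h1).trans_eq (sum_singleton _ _)
    have h3 : fixc d (1 : Equiv.Perm X) ≤ d ^ (F.card + 1) :=
      (card_filter_le _ _).trans (by simp [hk])
    rw [hk, Nat.sub_self, add_zero] at h
    simpa using (Nat.le_of_mul_le_mul_left h hd).trans (h2.trans h3)
  | succ k ih =>
    obtain ⟨p, -, hp⟩ := exists_mem_notMem_of_card_lt_card (hF.trans_eq card_univ.symm)
    have hc := card_insert_of_notMem hp
    have h := (fixc_step (d := d) F hp).trans (Nat.mul_le_mul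
      (show _ ≤ d + M by omega) (ih (insert p F) (by omega) (by omega)))
    refine Nat.le_of_mul_le_mul_left (h.trans (le_of_eq ?_)) hd
    rw [hc]; ring

/-- the glued rearrangements inject into the permutations fixing `E + 1` -/
theorem sum_glued (hd : 0 < d) (E : Finset (Fin m)) :
    ∑ s ∈ univ.filter (fun s : Equiv.Perm (Fin m) => ∀ j ∈ E, scc s j = j.succ), fixc d (pim s) ≤
      d ^ (E.card + 1) * (d + m) ^ (m - E.card) := by
  have hE : E.card ≤ m := by simpa using card_le_univ E
  have h := sum_fixc hd (E.map (Fin.succEmb m)) m (by simp) (by simp; omega)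
  rw [card_map, Fintype.card_fin, show m + 1 - E.card - 1 = m - E.card by omega] at h
  refine le_trans (lp_sum_le pim (fun _ _ _ _ e => pim_inj e) (fun z hz => ?_)
    fun _ _ => le_rfl) h
  obtain ⟨s, hs, rfl⟩ := mem_image.1 hz
  simp only [mem_filter, mem_univ, true_and]
  intro q hq
  obtain ⟨j, hj, rfl⟩ := mem_map.1 hq
  exact (mem_filter.1 hs).2 j hj

end Pool.Agent.Lib.MP_d87a8f_pr.Q
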