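import Mathlib
import Pool.Agent.Lib.MP_d87a8f_pr.U.Exch
import Pool.Agent.Lib.MP_d87a8f_pr.U.Repar
import Pool.Agent.Lib.MP_d87a8f_pr.Q.Loop

/-!
The mean number of product preserving rearrangements for a word with repeated letters.
-/

namespace Pool.Agent.Lib.MP_d87a8f_pr.Q

open Finset Pool.Agent.Lib.MP_d87a8f_pr.U

variable {G : Type} [Group G] [Fintype G] {k m d : ℕ}

/-- the real part of the character -/
noncomputable def ch (ρ : G →* Matrix (Fin d) (Fin d) ℂ) (x : G) : ℝ := (ρ x).trace.re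

/-- `χ (x * y⁻¹) = (d / |G|) ∑ z, χ (x * z) * conj χ (y * z)` -/
theorem ch_conv {ρ : G →* Matrix (Fin d) (Fin d) ℂ} (hd : 0 < d) (hS : Schur ρ) (x y : G) :
    (ρ (x * y⁻¹)).trace = (d : ℂ) / Fintype.card G *
      ∑ z : G, (ρ (x * z)).trace * (starRingEnd ℂ) (ρ (y * z)).trace := by
  have hd' : (d : ℂ) ≠ 0 := Nat.cast_ne_zero.mpr hd.ne'
  have hG : (Fintype.card G : ℂ) ≠ 0 := Nat.cast_ne_zero.mpr Fintype.card_ne_zero
  have h1 : ∀ z : G, (ρ (x * z)).trace * (starRingEnd ℂ) (ρ (y * z)).trace =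
      ∑ a, ∑ b, ∑ c, ∑ e, ρ x a b * ρ y⁻¹ e c * (ρ z b a * ρ z⁻¹ c e) := by
    intro z
    rw [← trace_inv, mul_inv_rev, map_mul, map_mul]
    simp only [Matrix.trace, Matrix.diag_apply, Matrix.mul_apply, Finset.sum_mul]
    refine Finset.sum_congr rfl fun a _ => Finset.sum_congr rfl fun b _ => ?_
    simp only [Finset.mul_sum]
    refine Finset.sum_congr rfl fun c _ => Finset.sum_congr rfl fun e _ => ?_
    ring
  have h2 : ∑ z : G, (ρ (x * z)).trace * (starRingEnd ℂ) (ρ (y * z)).trace =
      ∑ a, ∑ b, ρ x a b * ρ y⁻¹ b a * ((Fintype.card G : ℂ) / d) := by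
    rw [Finset.sum_congr rfl fun z _ => h1 z, Finset.sum_comm]
    refine Finset.sum_congr rfl fun a _ => ?_
    rw [Finset.sum_comm]
    refine Finset.sum_congr rfl fun b _ => ?_
    rw [Finset.sum_comm]
    have h3 : ∀ c, ∑ z : G, ∑ e, ρ x a b * ρ y⁻¹ e c * (ρ z b a * ρ z⁻¹ c e) =
        if a = c then ρ x a b * ρ y⁻¹ b a * ((Fintype.card G : ℂ) / d) else 0 := by
      intro c
      rw [Finset.sum_comm]
      have h4 : ∀ e, ∑ z : G, ρ x a b * ρ y⁻¹ e c * (ρ z b a * ρ z⁻¹ c e) =
          if b = e then (if a = c then ρ x a b * ρ y⁻¹ b a * ((Fintype.card G : ℂ) / d) else 0)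
            else 0 := by
        intro e
        rw [← Finset.mul_sum, hS b a c e]
        by_cases h5 : b = e
        · by_cases h6 : a = c
          · subst h5 h6; simp
          · simp [h6]
        · simp [h5]
      rw [Finset.sum_congr rfl fun e _ => h4 e, Finset.sum_ite_eq]
      simp
    rw [Finset.sum_congr rfl fun c _ => h3 c, Finset.sum_ite_eq]
    simp
  rw [h2, map_mul]
  simp only [Matrix.trace, Matrix.diag_apply, Matrix.mul_apply, Finset.mul_sum]
  refine Finset.sum_congr rfl fun a _ => Finset.sum_congr rfl fun b _ => ?_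
  field_simp

theorem cs_real {P L : Type} [Fintype P] [Fintype L] [DecidableEq L] (g : P → ℝ) (lab : P → L) :
    ∑ s, ∑ t, g s * g t ≤
      Fintype.card L * ∑ t, ∑ s ∈ univ.filter (fun s => lab s = lab t), g s * g t := by
  set v : L → ℝ := fun l => ∑ s ∈ univ.filter (fun s => lab s = l), g s with hv
  have h1 : ∑ s, g s = ∑ l, v l := (Finset.sum_fiberwise univ lab g).symm
  have h2 : ∑ t, ∑ s ∈ univ.filter (fun s => lab s = lab t), g s * g t = ∑ l, v l ^ 2 := by
    rw [← Finset.sum_fiberwise univ lab]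
    refine Finset.sum_congr rfl fun l _ => ?_
    rw [sq, hv]
    simp only
    rw [Finset.mul_sum]
    refine Finset.sum_congr rfl fun t ht => ?_
    rw [(Finset.mem_filter.mp ht).2, Finset.sum_mul]
  rw [h2, ← Finset.sum_mul_sum, h1, ← sq]
  simpa using sq_sum_le_card_mul_sum_sq (s := (univ : Finset L)) (f := v)

/-- Cauchy-Schwarz over the labels for the positive definite kernel `ch ρ (x * y⁻¹)` -/
theorem cs_label {P L : Type} [Fintype P] [Fintype L] [DecidableEq L]
    {ρ : G →* Matrix (Fin d) (Fin d) ℂ} (hd : 0 < d) (hS : Schur ρ) (x : P → G) (lab : P → L) :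
    ∑ s, ∑ t, ch ρ (x s * (x t)⁻¹) ≤
      Fintype.card L * ∑ t, ∑ s ∈ univ.filter (fun s => lab s = lab t), ch ρ (x s * (x t)⁻¹) := by
  set c : ℝ := (d : ℝ) / Fintype.card G with hc
  have hc0 : 0 ≤ c := by positivity
  set f : G × Bool → P → ℝ := fun z s =>
    if z.2 then (ρ (x s * z.1)).trace.re else (ρ (x s * z.1)).trace.im with hf
  have h1 : ∀ s t, ch ρ (x s * (x t)⁻¹) = ∑ z : G × Bool, c * (f z s * f z t) := by
    intro s t
    have e : (d : ℂ) / Fintype.card G = (c : ℂ) := by rw [hc]; push_cast; rfl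
    rw [ch, ch_conv hd hS, e, Complex.re_ofReal_mul, Complex.re_sum, Finset.mul_sum,
      Fintype.sum_prod_type]
    refine Finset.sum_congr rfl fun z _ => ?_
    simp [hf, Complex.mul_re]
    ring
  simp only [h1]
  calc ∑ s, ∑ t, ∑ z : G × Bool, c * (f z s * f z t)
      = ∑ z : G × Bool, c * ∑ s, ∑ t, f z s * f z t := by
        simp only [Finset.mul_sum]
        rw [Finset.sum_congr rfl fun s _ => Finset.sum_comm, Finset.sum_comm]
    _ ≤ ∑ z : G × Bool, c * (Fintype.card L *
          ∑ t, ∑ s ∈ univ.filter (fun s => lab s = lab t), f z s * f z t) :=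
        Finset.sum_le_sum fun z _ => mul_le_mul_of_nonneg_left (cs_real (f z) lab) hc0
    _ = _ := by
        simp only [Finset.mul_sum]
        rw [Finset.sum_comm]
        refine Finset.sum_congr rfl fun t _ => ?_
        rw [Finset.sum_comm]
        refine Finset.sum_congr rfl fun s _ => Finset.sum_congr rfl fun z _ => ?_
        ring

/-- the positions that are not single -/
def nons (w : Fin m → Fin k) : Finset (Fin m) := univ.filter (fun j => ¬ single w j)

theorem nons_comp (w : Fin m → Fin k) (t : Equiv.Perm (Fin m)) :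
    (nons (fun j => w (t j))).map t.toEmbedding = nons w := by
  ext a
  rw [Finset.mem_map_equiv]
  simp only [nons, Finset.mem_filter, Finset.mem_univ, true_and, single, Equiv.apply_symm_apply]
  refine not_congr ⟨fun h i hi => ?_, fun h i hi => ?_⟩
  · exact t.symm.injective (h (t.symm i) (by rw [Equiv.apply_symm_apply]; exact hi))
  · exact t.eq_symm_apply.2 (h (t i) hi)

omit [Group G] in
/-- a function of the coordinates in `S`, read through a map that is injective on `S` -/
theorem av_coord [Nonempty G] (w : Fin m → Fin k) (S : Finset (Fin m))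
    (hw : ∀ i ∈ S, ∀ j ∈ S, w i = w j → i = j) (Φ : (Fin m → G) → ℝ)
    (hΦ : ∀ c c' : Fin m → G, (∀ j ∈ S, c j = c' j) → Φ c = Φ c') :
    av (fun U : Fin k → G => Φ (fun j => U (w j))) = av Φ := by
  have hi : Function.Injective (fun j : S => w j) := fun i j h => Subtype.ext (hw _ i.2 _ j.2 h)
  let e : (Fin k → G) × (Fin m → G) → (Fin k → G) × (Fin m → G) := fun p =>
    (Function.extend (fun j : S => w j) (fun j => p.2 j) p.1,
      fun j => if j ∈ S then p.1 (w j) else p.2 j)
  have he : Function.Injective e := fun p q h => by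
    have h1 := congrFun (congrArg Prod.fst h)
    have h2 := congrFun (congrArg Prod.snd h)
    refine Prod.ext (funext fun a => ?_) (funext fun j => ?_)
    · by_cases ha : ∃ j : S, w j = a
      · obtain ⟨j, rfl⟩ := ha
        simpa only [e, if_pos j.2] using h2 j
      · simpa only [e, Function.extend_apply' _ _ _ ha] using h1 a
    · by_cases hj : j ∈ S
      · exact (hi.extend_apply (fun j => p.2 j) p.1 ⟨j, hj⟩).symm.trans
          ((h1 (w j)).trans (hi.extend_apply (fun j => q.2 j) q.1 ⟨j, hj⟩))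
      · simpa only [e, if_neg hj] using h2 j
  have h3 := av_bij (Finite.injective_iff_bijective.mp he) (fun p => Φ p.2)
  have h4 : (fun p => Φ (e p).2) = fun p => Φ (fun j => p.1 (w j)) :=
    funext fun p => hΦ _ _ fun j hj => if_pos hj
  rw [h4, av_prod, av_prod'] at h3
  simpa only [av_const] using h3

/-- for a glued rearrangement the quotient of the two products depends only on the running
products at the single positions (`rr_eq` at the last point), which are independent uniform
(`zz_bij`, `pre_zz`, `cc_succ_single`; for uniform `g` the running products are a bijection) -/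
theorem av_glued (w : Fin m → Fin k) (s : Equiv.Perm (Fin m))
    (hs : ∀ j ∈ nons w, scc s j = j.succ) (φ : G → ℝ) :
    av (fun Z : Fin k → G => φ (wp (fun j => gw w Z (s j)) * (wp (gw w Z))⁻¹)) =
      av (fun g : Fin m → G => φ (wp (fun j => g (s j)) * (wp g)⁻¹)) := by
  have key : ∀ g g' : Fin m → G,
      (∀ j, single w j → Fin.partialProd g j.succ = Fin.partialProd g' j.succ) →
      φ (wp (fun j => g (s j)) * (wp g)⁻¹) = φ (wp (fun j => g' (s j)) * (wp g')⁻¹) := by
    intro g g' h
    have := rr_eq (nons w) g g' (fun j hj => h j (by simpa [nons] using hj)) s hs (Fin.last m)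
    simp only [nx_last, partialProd_last] at this
    rw [this]
  have hP : Function.Injective fun (g : Fin m → G) (j : Fin m) => Fin.partialProd g j.succ := by
    intro g g' h
    have h1 : Fin.partialProd g = Fin.partialProd g' := funext fun q => by
      induction q using Fin.cases with
      | zero => rw [Fin.partialProd_zero, Fin.partialProd_zero]
      | succ j => exact congrFun h j
    funext j
    rw [← Fin.partialProd_right_inv g j, ← Fin.partialProd_right_inv g' j, h1]
  let e := Equiv.ofBijective _ (Finite.injective_iff_bijective.mp hP)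
  have he : ∀ c j, Fin.partialProd (e.symm c) j.succ = c j := fun c j =>
    congrFun (e.apply_symm_apply c) j
  rw [← av_equiv e.symm, ← av_bij (zz_bij w), ← av_coord w (univ.filter (single w))
    (fun i _ j hj h => (Finset.mem_filter.1 hj).2 i h) _ fun c c' h => key _ _ fun j hj => by
      rw [he, he, h j (Finset.mem_filter.2 ⟨Finset.mem_univ _, hj⟩)]]
  refine congrArg av (funext fun U => key _ _ fun j hj => ?_)
  rw [he, pre_zz, Fin.val_succ, cc_succ_single w U j hj]

/-- one representation, one word -/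
theorem av_glued_sum {ρ : G →* Matrix (Fin d) (Fin d) ℂ} (hd : 0 < d) (hS : Schur ρ)
    (w : Fin m → Fin k) :
    ∑ s ∈ univ.filter (fun s : Equiv.Perm (Fin m) => ∀ j ∈ nons w, scc s j = j.succ),
        av (fun Z : Fin k → G => ch ρ (wp (fun j => gw w Z (s j)) * (wp (gw w Z))⁻¹)) ≤
      (d : ℝ) ^ ((nons w).card + 1) * ((d : ℝ) + m) ^ (m - (nons w).card) / (d : ℝ) ^ m := by
  have hd' : (0 : ℝ) < d := Nat.cast_pos.mpr hd
  have hG : (0 : ℝ) < Fintype.card G := Nat.cast_pos.mpr Fintype.card_pos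
  have h1 : ∀ s ∈ univ.filter (fun s : Equiv.Perm (Fin m) => ∀ j ∈ nons w, scc s j = j.succ),
      av (fun Z : Fin k → G => ch ρ (wp (fun j => gw w Z (s j)) * (wp (gw w Z))⁻¹)) =
        (fixc d (pim s) : ℝ) / (d : ℝ) ^ m := by
    intro s hs
    rw [av_glued w s (Finset.mem_filter.mp hs).2 (ch ρ), av]
    have h2 := congrArg Complex.re (sum_trace hS s)
    have e : ((Fintype.card G : ℂ) / d) ^ m * (fixc d (pim s) : ℂ) =
        ((((Fintype.card G : ℝ) / d) ^ m * (fixc d (pim s) : ℝ) : ℝ) : ℂ) := by push_cast; rfl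
    rw [Complex.re_sum, e, Complex.ofReal_re] at h2
    simp only [ch]
    rw [h2, Fintype.card_fun, Fintype.card_fin, div_pow]
    push_cast
    field_simp
  rw [Finset.sum_congr rfl h1, ← Finset.sum_div]
  gcongr
  exact_mod_cast sum_glued hd (nons w)

/-- the weight of a representation of degree `d` -/
noncomputable def BB (d m r : ℕ) : ℝ := (1 + (m : ℝ) / d) ^ m * ((min d (m + 1) : ℕ) : ℝ) ^ r

theorem weight_le (hd : 0 < d) {p r : ℕ} (hp : p ≤ m) (hr : p ≤ r) :
    ((m : ℝ) + 1) ^ p * ((d : ℝ) ^ (p + 1) * ((d : ℝ) + m) ^ (m - p) / (d : ℝ) ^ m) ≤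
      d * BB d m r := by
  have hd' : (0 : ℝ) < d := Nat.cast_pos.mpr hd
  set μ : ℝ := ((min d (m + 1) : ℕ) : ℝ) with hμ
  have h1 : 1 ≤ μ := by
    rw [hμ]; exact_mod_cast le_min hd (Nat.succ_pos m)
  have h2 : ((m : ℝ) + 1) * d ≤ ((d : ℝ) + m) * μ := by
    have h3 : (m + 1) * d ≤ (d + m) * min d (m + 1) := by
      rcases le_total d (m + 1) with h | h
      · rw [min_eq_left h]; exact Nat.mul_le_mul_right _ (by omega)
      · rw [min_eq_right h, mul_comm]; exact Nat.mul_le_mul_right _ (by omega)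
    rw [hμ]; exact_mod_cast h3
  have h4 : ((m : ℝ) + 1) ^ p * (d : ℝ) ^ p ≤ ((d : ℝ) + m) ^ p * μ ^ r := by
    calc ((m : ℝ) + 1) ^ p * (d : ℝ) ^ p = (((m : ℝ) + 1) * d) ^ p := (mul_pow _ _ _).symm
      _ ≤ (((d : ℝ) + m) * μ) ^ p := by gcongr
      _ = ((d : ℝ) + m) ^ p * μ ^ p := mul_pow _ _ _
      _ ≤ _ := by gcongr
  have h5 : ((d : ℝ) + m) ^ m = ((d : ℝ) + m) ^ p * ((d : ℝ) + m) ^ (m - p) := by
    rw [← pow_add, Nat.add_sub_cancel' hp]
  have h6 : (1 + (m : ℝ) / d) ^ m = ((d : ℝ) + m) ^ m / (d : ℝ) ^ m := by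
    rw [← div_pow]; congr 1; field_simp
  rw [BB, ← hμ, h6, h5]
  calc ((m : ℝ) + 1) ^ p * ((d : ℝ) ^ (p + 1) * ((d : ℝ) + m) ^ (m - p) / (d : ℝ) ^ m)
      = ((m : ℝ) + 1) ^ p * (d : ℝ) ^ p * (d * ((d : ℝ) + m) ^ (m - p) / (d : ℝ) ^ m) := by ring
    _ ≤ ((d : ℝ) + m) ^ p * μ ^ r * (d * ((d : ℝ) + m) ^ (m - p) / (d : ℝ) ^ m) := by gcongr
    _ = _ := by ring

theorem card_nons_comp (w : Fin m → Fin k) (t : Equiv.Perm (Fin m)) :
    (nons (fun j => w (t j))).card = (nons w).card := by
  rw [← nons_comp w t, Finset.card_map]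

omit [Fintype G] in
/-- the rearrangements with the same labels as `t` are `t * s` with `s` glued -/
theorem sum_label_eq (w : Fin m → Fin k) (g : Fin m → G) (t : Equiv.Perm (Fin m)) (φ : G → ℝ) :
    ∑ s ∈ univ.filter (fun s : Equiv.Perm (Fin m) =>
        (fun a : nons w => scc s a) = (fun a : nons w => scc t a)),
        φ (wp (fun j => g (s j)) * (wp (fun j => g (t j)))⁻¹) =
      ∑ s ∈ univ.filter (fun s : Equiv.Perm (Fin m) =>
        ∀ j ∈ nons (fun j => w (t j)), scc s j = j.succ),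
        φ (wp (fun j => g (t (s j))) * (wp (fun j => g (t j)))⁻¹) := by
  symm
  refine Finset.sum_equiv (Equiv.mulLeft t) (fun s => ?_) (fun s _ => rfl)
  have hs : ∀ j, scc (t * s) (t j) = scc t (t j) ↔ scc s j = j.succ := by
    intro j
    have e1 : (t * s).symm (t j) = s.symm j := by
      rw [Equiv.symm_apply_eq]; simp
    unfold scc
    rw [e1, nx_mul, Equiv.symm_apply_apply]
    exact (nx_inj t).eq_iff
  simp only [mem_filter, mem_univ, true_and, Equiv.coe_mulLeft, funext_iff, Subtype.forall]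
  rw [← nons_comp w t]
  simp only [Finset.forall_mem_map, Equiv.coe_toEmbedding, hs]

/-- `cs_label` with the labels `fun a : nons w => scc s a`, then `s = t * s'` as in the proof of
`rearrE_comp` -/
theorem sum_pairs_le {ρ : G →* Matrix (Fin d) (Fin d) ℂ} (hd : 0 < d) (hS : Schur ρ)
    (w : Fin m → Fin k) (r : ℕ) (hr : (nons w).card ≤ r) :
    av (fun Z : Fin k → G => ∑ s : Equiv.Perm (Fin m), ∑ t : Equiv.Perm (Fin m),
        ch ρ (wp (fun j => gw w Z (s j)) * (wp (fun j => gw w Z (t j)))⁻¹)) ≤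
      (m.factorial : ℝ) * (d * BB d m r) := by
  have hp : (nons w).card ≤ m := (Finset.card_le_univ _).trans (by simp)
  have h1 : ∀ Z : Fin k → G, ∑ s : Equiv.Perm (Fin m), ∑ t : Equiv.Perm (Fin m),
      ch ρ (wp (fun j => gw w Z (s j)) * (wp (fun j => gw w Z (t j)))⁻¹) ≤
      ((m : ℝ) + 1) ^ (nons w).card * ∑ t : Equiv.Perm (Fin m),
        ∑ s ∈ univ.filter (fun s : Equiv.Perm (Fin m) =>
          ∀ j ∈ nons (fun j => w (t j)), scc s j = j.succ),
          ch ρ (wp (fun j => gw (fun j => w (t j)) Z (s j)) *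
            (wp (gw (fun j => w (t j)) Z))⁻¹) := by
    intro Z
    have h := cs_label hd hS (fun s : Equiv.Perm (Fin m) => wp (fun j => gw w Z (s j)))
      (fun s => fun a : nons w => scc s a)
    rw [Fintype.card_fun, Fintype.card_fin, Fintype.card_coe] at h
    push_cast at h
    refine h.trans (le_of_eq ?_)
    refine congrArg _ (Finset.sum_congr rfl (fun t _ => ?_))
    exact sum_label_eq w (gw w Z) t (ch ρ)
  refine (av_mono h1).trans ?_
  rw [av_mul_left, av_sum]
  have h2 : ∀ t : Equiv.Perm (Fin m), av (fun Z : Fin k → G =>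
      ∑ s ∈ univ.filter (fun s : Equiv.Perm (Fin m) =>
          ∀ j ∈ nons (fun j => w (t j)), scc s j = j.succ),
          ch ρ (wp (fun j => gw (fun j => w (t j)) Z (s j)) *
            (wp (gw (fun j => w (t j)) Z))⁻¹)) ≤
      (d : ℝ) ^ ((nons w).card + 1) * ((d : ℝ) + m) ^ (m - (nons w).card) / (d : ℝ) ^ m := by
    intro t
    rw [av_sum, ← card_nons_comp w t]
    exact av_glued_sum hd hS _
  have h3 := Finset.sum_le_sum (s := (univ : Finset (Equiv.Perm (Fin m)))) (fun t _ => h2 t)
  rw [Finset.sum_const, Finset.card_univ, Fintype.card_perm, Fintype.card_fin, nsmul_eq_mul] at h3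
  refine (mul_le_mul_of_nonneg_left h3 (by positivity)).trans ?_
  rw [mul_left_comm]
  exact mul_le_mul_of_nonneg_left (weight_le hd hp hr) (Nat.cast_nonneg _)

variable [DecidableEq G]

/-- the bound on the mean count -/
noncomputable def Irr.bd (I : Irr G) (m r : ℕ) : ℝ :=
  (∑ i, (I.d i : ℝ) ^ 2 * BB (I.d i) m r) / Fintype.card G

theorem Irr.bd_nonneg (I : Irr G) (m r : ℕ) : 0 ≤ I.bd m r := by
  unfold Irr.bd BB
  positivity

/-- the indicator of equality through the regular character -/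
theorem Irr.ind_eq (I : Irr G) (x y : G) :
    ind (x = y) = (Fintype.card G : ℝ)⁻¹ * ∑ i, (I.d i : ℝ) * ch (I.ρ i) (x * y⁻¹) := by
  have hN : (Fintype.card G : ℝ) ≠ 0 := Nat.cast_ne_zero.mpr Fintype.card_ne_zero
  have h := congrArg Complex.re (I.reg (x * y⁻¹))
  rw [Complex.re_sum] at h
  simp only [Complex.mul_re, Complex.natCast_re, Complex.natCast_im, zero_mul, sub_zero] at h
  unfold ch
  rw [h]
  by_cases hxy : x = y
  · rw [ind_pos hxy, if_pos (mul_inv_eq_one.mpr hxy), Complex.natCast_re, inv_mul_cancel₀ hN]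
  · rw [ind_neg hxy, if_neg (fun h => hxy (mul_inv_eq_one.mp h)), Complex.zero_re, mul_zero]

/-- `rearr_comp`, then `reg` for the indicator of equal products -/
theorem sum_rearr_le (I : Irr G) (w : Fin m → Fin k) (r : ℕ) (hr : (nons w).card ≤ r) :
    ∑ t : Equiv.Perm (Fin m), av (fun Z : Fin k → G => (rearr (gw (fun j => w (t j)) Z) : ℝ)) ≤
      (m.factorial : ℝ) * I.bd m r := by
  have h1 : ∀ Z : Fin k → G, ∑ t : Equiv.Perm (Fin m), (rearr (gw (fun j => w (t j)) Z) : ℝ) =
      (Fintype.card G : ℝ)⁻¹ * ∑ i, (I.d i : ℝ) *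
        ∑ s : Equiv.Perm (Fin m), ∑ t : Equiv.Perm (Fin m),
          ch (I.ρ i) (wp (fun j => gw w Z (s j)) * (wp (fun j => gw w Z (t j)))⁻¹) := by
    intro Z
    have h2 : ∀ t : Equiv.Perm (Fin m), (rearr (gw (fun j => w (t j)) Z) : ℝ) =
        ∑ s : Equiv.Perm (Fin m), (Fintype.card G : ℝ)⁻¹ * ∑ i, (I.d i : ℝ) *
          ch (I.ρ i) (wp (fun j => gw w Z (s j)) * (wp (fun j => gw w Z (t j)))⁻¹) := by
      intro t
      have h3 := rearr_comp (gw w Z) t
      have h4 : gw (fun j => w (t j)) Z = fun j => gw w Z (t j) := rfl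
      rw [h4, h3, ← sum_ind]
      exact Finset.sum_congr rfl (fun s _ => I.ind_eq _ _)
    rw [Finset.sum_congr rfl (fun t _ => h2 t), Finset.sum_comm]
    simp only [← Finset.mul_sum]
    refine congrArg _ ?_
    simp only [Finset.mul_sum]
    rw [Finset.sum_comm (s := (univ : Finset (Fin I.s)))]
    refine Finset.sum_congr rfl (fun s _ => ?_)
    rw [Finset.sum_comm]
  rw [← av_sum, congrArg av (funext h1), av_mul_left, av_sum]
  have h5 : ∀ i, av (fun Z : Fin k → G => (I.d i : ℝ) *
      ∑ s : Equiv.Perm (Fin m), ∑ t : Equiv.Perm (Fin m),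
        ch (I.ρ i) (wp (fun j => gw w Z (s j)) * (wp (fun j => gw w Z (t j)))⁻¹)) ≤
      (m.factorial : ℝ) * ((I.d i : ℝ) ^ 2 * BB (I.d i) m r) := by
    intro i
    rw [av_mul_left]
    refine (mul_le_mul_of_nonneg_left (sum_pairs_le (I.pos i) (I.schur i) w r hr)
      (Nat.cast_nonneg _)).trans (le_of_eq (by ring))
  have h6 := Finset.sum_le_sum (s := (univ : Finset (Fin I.s))) (fun i _ => h5 i)
  rw [← Finset.mul_sum] at h6
  refine (mul_le_mul_of_nonneg_left h6 (by positivity)).trans (le_of_eq ?_)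
  unfold Irr.bd
  ring

/-- symmetrise over the rearrangements of the word -/
theorem av_good_rearr (I : Irr G) (r : ℕ) :
    av (fun p : (Fin m → Fin k) × (Fin k → G) =>
      ind ((nons p.1).card ≤ r) * (rearr (gw p.1 p.2) : ℝ)) ≤ I.bd m r := by
  have hm : (0 : ℝ) < m.factorial := by exact_mod_cast m.factorial_pos
  have h1 : ∀ t : Equiv.Perm (Fin m),
      av (fun p : (Fin m → Fin k) × (Fin k → G) =>
        ind ((nons p.1).card ≤ r) * (rearr (gw (fun j => p.1 (t j)) p.2) : ℝ)) =
      av (fun p : (Fin m → Fin k) × (Fin k → G) =>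
        ind ((nons p.1).card ≤ r) * (rearr (gw p.1 p.2) : ℝ)) := by
    intro t
    rw [← av_equiv ((Equiv.arrowCongr t.symm (Equiv.refl (Fin k))).prodCongr
      (Equiv.refl (Fin k → G))) (fun p : (Fin m → Fin k) × (Fin k → G) =>
        ind ((nons p.1).card ≤ r) * (rearr (gw p.1 p.2) : ℝ))]
    refine congrArg av (funext fun p => ?_)
    rw [← card_nons_comp p.1 t]
    rfl
  refine le_of_mul_le_mul_left ?_ hm
  calc _ = ∑ t : Equiv.Perm (Fin m), av (fun p : (Fin m → Fin k) × (Fin k → G) =>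
        ind ((nons p.1).card ≤ r) * (rearr (gw (fun j => p.1 (t j)) p.2) : ℝ)) := by
        rw [Finset.sum_congr rfl (fun t _ => h1 t), Finset.sum_const, Finset.card_univ,
          Fintype.card_perm, Fintype.card_fin, nsmul_eq_mul]
    _ = av (fun w : Fin m → Fin k => ind ((nons w).card ≤ r) * ∑ t : Equiv.Perm (Fin m),
        av (fun Z : Fin k → G => (rearr (gw (fun j => w (t j)) Z) : ℝ))) := by
        simp only [Finset.mul_sum]
        rw [av_sum]
        refine Finset.sum_congr rfl (fun t _ => ?_)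
        rw [av_prod]
        exact congrArg av (funext fun w => av_mul_left (ind ((nons w).card ≤ r))
          (fun Z : Fin k → G => (rearr (gw (fun j => w (t j)) Z) : ℝ)))
    _ ≤ _ := by
        have h0 := mul_nonneg hm.le (I.bd_nonneg m r)
        refine (av_mono (fun w => ?_)).trans (av_const_le h0)
        by_cases hw : (nons w).card ≤ r
        · rw [ind_pos hw, one_mul]; exact sum_rearr_le I w r hw
        · rw [ind_neg hw, zero_mul]; exact h0

end Pool.Agent.Lib.MP_d87a8f_pr.Q
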