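import Mathlib
import Pool.Agent.Lib.MP_d87a8f_pr.U.Fin
import Pool.Agent.Lib.MP_d87a8f_pr.Q.Kern

/-!
The upper bound on the cutoff time.
-/

namespace Pool.Agent.Lib.MP_d87a8f_pr.Q

open Finset Pool.Agent.Lib.MP_d87a8f_pr.U

theorem BB_pos {d : ℕ} (hd : 0 < d) (m r : ℕ) : 0 < BB d m r := by
  unfold BB
  have : (0 : ℝ) < ((min d (m + 1) : ℕ) : ℝ) := by exact_mod_cast (by omega : 0 < min d (m + 1))
  positivity

theorem Irr.bd_pos {G : Type} [Group G] [Fintype G] [DecidableEq G] (I : Irr G) (m r : ℕ) :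
    0 < I.bd m r := by
  have hG : (0 : ℝ) < Fintype.card G := by exact_mod_cast Fintype.card_pos
  refine div_pos (sum_pos (fun i _ => ?_) ?_) hG
  · have : (0 : ℝ) < I.d i := by exact_mod_cast I.pos i
    exact mul_pos (by positivity) (BB_pos (I.pos i) m r)
  · by_contra h
    have h1 := I.sum_sq
    rw [not_nonempty_iff_eq_empty.1 h, sum_empty] at h1
    exact (Fintype.card_pos (α := G)).ne h1

theorem BB_le_small {d l : ℕ} (r : ℕ) (hd : 0 < d) (hl : d ≤ l) :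
    BB d l r ≤ (2 * l / d : ℝ) ^ l * (d : ℝ) ^ r := by
  have hdR : (0 : ℝ) < d := by exact_mod_cast hd
  have h1 : (1 : ℝ) ≤ l / d := (one_le_div hdR).2 (by exact_mod_cast hl)
  have h2 : 1 + (l : ℝ) / d ≤ 2 * l / d := by rw [mul_div_assoc]; linarith
  have h3 : ((min d (l + 1) : ℕ) : ℝ) ≤ d := by exact_mod_cast min_le_left _ _
  unfold BB
  gcongr

theorem BB_le_big {d l : ℕ} (r : ℕ) (hl : l < d) : BB d l r ≤ 2 ^ l * ((l : ℝ) + 1) ^ r := by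
  have hdR : (0 : ℝ) < d := by exact_mod_cast (by omega : 0 < d)
  have h1 : (l : ℝ) / d ≤ 1 := (div_le_one hdR).2 (by exact_mod_cast hl.le)
  have h2 : 1 + (l : ℝ) / d ≤ 2 := by linarith
  have h3 : ((min d (l + 1) : ℕ) : ℝ) ≤ (l : ℝ) + 1 := by exact_mod_cast min_le_right _ _
  unfold BB
  gcongr

/-- three bad events of probability at most `1 / 8` each: deviation `m` (`conc`), more than `r`
positions not single (`card_not_single_le`, `av_rho_tail`), good with count at least `8 * bd` -/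
theorem meanLog_le_bd : ∃ M : ℕ, ∀ (G : Type) [Group G] [Fintype G] [DecidableEq G] (I : Irr G)
    (k m r : ℕ), M ≤ m → 0 < k → 16 * m ≤ k → 8 * m ^ 2 ≤ r * k →
    meanLog G k m ≤ m + Real.log (8 * I.bd m r) := by
  obtain ⟨M0, hM0⟩ := conc (1 / 8) (by norm_num)
  refine ⟨M0 + 1, fun G _ _ _ I k m r hm hk hk16 hr => ?_⟩
  have hmR : (0 : ℝ) < m := by exact_mod_cast (by omega : 0 < m)
  have hkR : (0 : ℝ) < k := by exact_mod_cast hk
  have hb : 0 < 8 * I.bd m r := mul_pos (by norm_num) (I.bd_pos m r)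
  by_contra hcon
  rw [not_le] at hcon
  have : Nonempty (Fin k) := ⟨⟨0, hk⟩⟩
  have h1 : ∀ p : (Fin m → Fin k) × (Fin k → G), (1 : ℝ) ≤
      ind ((m : ℝ) ≤ |lq (gw p.1 p.2) - meanLog G k m|) + ind ((r : ℝ) + 1 ≤ rho p.1) +
        ind (8 * I.bd m r ≤ ind ((nons p.1).card ≤ r) * (rearr (gw p.1 p.2) : ℝ)) := by
    intro p
    have n1 := ind_nonneg ((m : ℝ) ≤ |lq (gw p.1 p.2) - meanLog G k m|)
    have n2 := ind_nonneg ((r : ℝ) + 1 ≤ rho p.1)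
    have n3 := ind_nonneg (8 * I.bd m r ≤ ind ((nons p.1).card ≤ r) * (rearr (gw p.1 p.2) : ℝ))
    by_cases c2 : (nons p.1).card ≤ r
    · by_cases c3 : 8 * I.bd m r ≤ ind ((nons p.1).card ≤ r) * (rearr (gw p.1 p.2) : ℝ)
      · rw [ind_pos c3]; linarith
      · rw [ind_pos c2, one_mul, not_le] at c3
        have a1 : (0 : ℝ) < rearr (gw p.1 p.2) := Nat.cast_pos.2 (rearr_pos _)
        have a2 : lq (gw p.1 p.2) ≤ Real.log (8 * I.bd m r) := Real.log_le_log a1 c3.le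
        have a3 : (m : ℝ) ≤ |lq (gw p.1 p.2) - meanLog G k m| :=
          le_abs.2 (Or.inr (by linarith))
        rw [ind_pos a3]; linarith
    · have a1 : (r : ℝ) + 1 ≤ ((nons p.1).card : ℝ) := by exact_mod_cast (not_le.1 c2)
      have a2 : (r : ℝ) + 1 ≤ rho p.1 := a1.trans (card_not_single_le p.1)
      rw [ind_pos a2]; linarith
  have h2 := av_mono h1
  rw [av_const, av_add, av_add] at h2
  have h3 := hM0 G k m (by omega) hk hk16 m hmR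
  have h4 : 1 / 8 * (m : ℝ) ^ 2 / (m : ℝ) ^ 2 = 1 / 8 := by field_simp
  have h5 := av_rho_tail (G := G) (m := m) hk (t := (r : ℝ) + 1) (by positivity)
  have h6 : (m : ℝ) ^ 2 / k / ((r : ℝ) + 1) ≤ 1 / 8 := by
    rw [div_div, div_le_iff₀ (by positivity)]
    have : 8 * (m : ℝ) ^ 2 ≤ r * k := by exact_mod_cast hr
    nlinarith
  have h7 := markov (f := fun p : (Fin m → Fin k) × (Fin k → G) =>
    ind ((nons p.1).card ≤ r) * (rearr (gw p.1 p.2) : ℝ))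
    (fun p => mul_nonneg (ind_nonneg _) (Nat.cast_nonneg _)) hb
  have h8 := av_good_rearr (k := k) (m := m) I r
  have h9 : av (fun p : (Fin m → Fin k) × (Fin k → G) =>
      ind ((nons p.1).card ≤ r) * (rearr (gw p.1 p.2) : ℝ)) / (8 * I.bd m r) ≤ 1 / 8 := by
    rw [div_le_iff₀ hb]; linarith
  rw [h4] at h3
  linarith

/-- split the sum by degree: each `d ≤ l` contributes at most `lowDim G d * (2 l / d) ^ l * d ^ r`,
all `d > l` together at most `|G| * 2 ^ l * (l + 1) ^ r` -/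
theorem bd_le {G : Type} [Group G] [Fintype G] [DecidableEq G] (I : Irr G) (l r : ℕ) :
    Fintype.card G * I.bd l r ≤
      ∑ d ∈ Icc 1 l, (lowDim G d : ℝ) * ((2 * l / d : ℝ) ^ l * (d : ℝ) ^ r) +
        Fintype.card G * (2 ^ l * ((l : ℝ) + 1) ^ r) := by
  have hG : (0 : ℝ) < Fintype.card G := by exact_mod_cast Fintype.card_pos
  have e1 : Fintype.card G * I.bd l r = ∑ i, (I.d i : ℝ) ^ 2 * BB (I.d i) l r := by
    unfold Irr.bd; field_simp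
  have e2 : (Fintype.card G : ℝ) = ∑ i, (I.d i : ℝ) ^ 2 := by exact_mod_cast I.sum_sq.symm
  have h1 : ∀ i, (I.d i : ℝ) ^ 2 * BB (I.d i) l r ≤
      ∑ d ∈ Icc 1 l, (if I.d i ≤ d then (I.d i : ℝ) ^ 2 else 0) *
          ((2 * l / d : ℝ) ^ l * (d : ℝ) ^ r) +
        (I.d i : ℝ) ^ 2 * (2 ^ l * ((l : ℝ) + 1) ^ r) := by
    intro i
    have hn : ∀ d ∈ Icc 1 l, 0 ≤ (if I.d i ≤ d then (I.d i : ℝ) ^ 2 else 0) *
        ((2 * l / d : ℝ) ^ l * (d : ℝ) ^ r) := fun d _ => by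
      refine mul_nonneg ?_ (by positivity)
      split_ifs <;> positivity
    rcases le_or_gt (I.d i) l with h | h
    · have a1 := single_le_sum hn (mem_Icc.2 ⟨I.pos i, h⟩)
      rw [if_pos le_rfl] at a1
      have a2 := mul_le_mul_of_nonneg_left (BB_le_small r (I.pos i) h) (sq_nonneg (I.d i : ℝ))
      have a3 : 0 ≤ (I.d i : ℝ) ^ 2 * (2 ^ l * ((l : ℝ) + 1) ^ r) := by positivity
      linarith
    · have a1 := sum_nonneg hn
      have a2 := mul_le_mul_of_nonneg_left (BB_le_big r h) (sq_nonneg (I.d i : ℝ))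
      linarith
  rw [e1]
  refine (sum_le_sum fun i _ => h1 i).trans ?_
  rw [sum_add_distrib, ← sum_mul, ← e2, sum_comm]
  refine add_le_add (sum_le_sum fun d _ => ?_) le_rfl
  rw [← sum_mul, ← sum_filter]
  refine mul_le_mul_of_nonneg_right ?_ (by positivity)
  exact_mod_cast I.sum_sq_le d

theorem up_room (ε : ℝ) (hε : 0 < ε) (hε1 : ε < 1) : ∃ N : ℕ, ∀ (l0 l r : ℕ) (y : ℝ),
    (1 + ε) * l0 ≤ l → (r : ℝ) ≤ ε * l / 4 → (576 : ℝ) ^ N ≤ y →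
    y ^ l0 * y ^ r * 576 ^ l ≤ y ^ l := by
  obtain ⟨N, hN⟩ := exists_nat_ge (4 / ε)
  refine ⟨N, fun l0 l r y h1 h2 hy => ?_⟩
  rw [div_le_iff₀ hε] at hN
  have p0 : (0 : ℝ) ≤ l0 := Nat.cast_nonneg _
  have p1 : (0 : ℝ) ≤ l := Nat.cast_nonneg _
  have h3 : ε * l / 4 ≤ (l : ℝ) - l0 - r := by
    have h4 : (l0 : ℝ) ≤ l := by nlinarith
    have h5 : (l : ℝ) ≤ 2 * l0 ∨ 2 * l0 ≤ (l : ℝ) := le_total _ _
    rcases h5 with h5 | h5 <;> nlinarith
  have h6 : l0 + r ≤ l := by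
    have h7 : (l0 : ℝ) + r ≤ l := by nlinarith
    exact_mod_cast h7
  obtain ⟨e, rfl⟩ := Nat.exists_eq_add_of_le h6
  have h8 : l0 + r + e ≤ N * e := by
    have h9 : ((l0 + r + e : ℕ) : ℝ) ≤ N * e := by
      have h10 : ε * ((l0 + r + e : ℕ) : ℝ) / 4 ≤ e := by
        refine h3.trans (le_of_eq ?_)
        push_cast; ring
      have h11 : (0 : ℝ) ≤ N := Nat.cast_nonneg _
      nlinarith [mul_le_mul_of_nonneg_left h10 h11, mul_le_mul_of_nonneg_right hN p1]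
    exact_mod_cast h9
  have y0 : 0 ≤ y := le_trans (by positivity) hy
  have h12 : (576 : ℝ) ^ (l0 + r + e) ≤ y ^ e :=
    calc (576 : ℝ) ^ (l0 + r + e) ≤ 576 ^ (N * e) := pow_le_pow_right₀ (by norm_num) h8
      _ = (576 ^ N) ^ e := pow_mul _ _ _
      _ ≤ y ^ e := pow_le_pow_left₀ (by positivity) hy e
  calc y ^ l0 * y ^ r * 576 ^ (l0 + r + e) ≤ y ^ l0 * y ^ r * y ^ e :=
        mul_le_mul_of_nonneg_left h12 (by positivity)
    _ = _ := by rw [pow_add, pow_add]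

theorem exp_le_three_pow (l : ℕ) : Real.exp l ≤ 3 ^ l := by
  rw [← mul_one (l : ℝ), Real.exp_nat_mul]
  exact pow_le_pow_left₀ (Real.exp_pos 1).le (Real.exp_one_lt_three).le l

theorem sixteen_mul_le {l : ℕ} (hl : 1 ≤ l) : (16 : ℝ) * l ≤ 32 ^ l := by
  have h1 : (l : ℝ) ≤ 2 ^ l := by exact_mod_cast (Nat.lt_two_pow_self).le
  have h2 : (16 : ℝ) ≤ 16 ^ l := le_self_pow₀ (by norm_num) (by omega)
  calc (16 : ℝ) * l ≤ 16 ^ l * 2 ^ l := mul_le_mul h2 h1 (Nat.cast_nonneg _) (by positivity)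
    _ = 32 ^ l := by rw [← mul_pow]; norm_num

theorem one_le_bd {G : Type} [Group G] [Fintype G] [DecidableEq G] (I : Irr G) (l r : ℕ) :
    1 ≤ I.bd l r := by
  have c0 : (0 : ℝ) < Fintype.card G := by exact_mod_cast Fintype.card_pos
  unfold Irr.bd
  rw [le_div_iff₀ c0, one_mul, ← I.sum_sq]
  push_cast
  refine sum_le_sum fun i _ => le_mul_of_one_le_right (by positivity) ?_
  unfold BB
  have h1 : (1 : ℝ) ≤ ((min (I.d i) (l + 1) : ℕ) : ℝ) := by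
    have h2 : 1 ≤ min (I.d i) (l + 1) := le_min (I.pos i) (by omega)
    exact_mod_cast h2
  exact one_le_mul_of_one_le_of_one_le
    (one_le_pow₀ (le_add_of_nonneg_right (by positivity))) (one_le_pow₀ h1)

/-- with `y = k d / l ≥ k / l`: `W ≤ (k d / l0) ^ l0 ≤ y ^ l0 * exp l`, `d ≤ y`,
`l - l0 - r ≥ ε l / 4` -/
theorem up_term (ε : ℝ) (hε : 0 < ε) (hε1 : ε < 1) : ∃ M K : ℕ, ∀ (k l0 l r d W : ℕ),
    M ≤ l0 → K * l0 ≤ k → (1 + ε) * l0 ≤ l → l ≤ 3 * l0 → (r : ℝ) ≤ ε * l / 4 → 1 ≤ d →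
    W * l0 ^ l0 ≤ (k * d) ^ l0 →
    (W : ℝ) * ((2 * l / d : ℝ) ^ l * (d : ℝ) ^ r) * (16 * l * Real.exp l) ≤ (k : ℝ) ^ l := by
  obtain ⟨N, hN⟩ := up_room ε hε hε1
  refine ⟨1, 3 * 576 ^ N, fun k l0 l r d W h0 hk h1 h3 hr hd hW => ?_⟩
  have a0 : (1 : ℝ) ≤ l0 := by exact_mod_cast h0
  have a1 : (l0 : ℝ) ≤ l := by nlinarith
  have a2 : 1 ≤ l := h0.trans (by exact_mod_cast a1)
  have a3 : (l : ℝ) ≤ 3 * l0 := by exact_mod_cast h3
  have a4 : (3 : ℝ) * 576 ^ N * l0 ≤ k := by exact_mod_cast hk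
  have a5 : (1 : ℝ) ≤ d := by exact_mod_cast hd
  have a6 : (1 : ℝ) ≤ 576 ^ N := one_le_pow₀ (by norm_num)
  have lp : (0 : ℝ) < l := by linarith
  have a7 : (576 : ℝ) ^ N * l ≤ k := by nlinarith
  have k0 : (0 : ℝ) ≤ k := Nat.cast_nonneg _
  set y : ℝ := k * d / l with hy
  have b1 : (576 : ℝ) ^ N * d ≤ y := by
    rw [hy, le_div_iff₀ lp]
    nlinarith [mul_le_mul_of_nonneg_right a7 (zero_le_one.trans a5)]
  have b2 : (576 : ℝ) ^ N ≤ y := le_trans (le_mul_of_one_le_right (by positivity) a5) b1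
  have b3 : (d : ℝ) ≤ y := le_trans (le_mul_of_one_le_left (by positivity) a6) b1
  have y0 : 0 ≤ y := le_trans (by positivity) b2
  have b4 : (W : ℝ) ≤ y ^ l0 * 3 ^ l := by
    have c1 : (W : ℝ) * (l0 : ℝ) ^ l0 ≤ ((k : ℝ) * d) ^ l0 := by exact_mod_cast hW
    have c2 : (k : ℝ) * d ≤ y * 3 * l0 := by
      have c3 : (k : ℝ) * d = y * l := by rw [hy]; field_simp
      rw [c3]; nlinarith [mul_le_mul_of_nonneg_left a3 y0]
    have c4 : ((k : ℝ) * d) ^ l0 ≤ (y * 3 * l0) ^ l0 := pow_le_pow_left₀ (by positivity) c2 l0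
    have c5 : (W : ℝ) * (l0 : ℝ) ^ l0 ≤ y ^ l0 * 3 ^ l0 * (l0 : ℝ) ^ l0 := by
      rw [← mul_pow, ← mul_pow]; exact c1.trans c4
    have c6 : (W : ℝ) ≤ y ^ l0 * 3 ^ l0 := le_of_mul_le_mul_right c5 (by positivity)
    refine c6.trans (mul_le_mul_of_nonneg_left ?_ (by positivity))
    exact pow_le_pow_right₀ (by norm_num) (by exact_mod_cast a1)
  have b5 : (d : ℝ) ^ r ≤ y ^ r := pow_le_pow_left₀ (by positivity) b3 r
  have b6 : 16 * l * Real.exp l ≤ 32 ^ l * 3 ^ l :=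
    mul_le_mul (sixteen_mul_le a2) (exp_le_three_pow l) (Real.exp_pos _).le (by positivity)
  have e1 : (576 : ℝ) ^ l = 3 ^ l * 2 ^ l * (32 ^ l * 3 ^ l) := by
    rw [← mul_pow, ← mul_pow, ← mul_pow]; norm_num
  have e2 : (2 * l / d : ℝ) ^ l = 2 ^ l * ((l : ℝ) / d) ^ l := by
    rw [← mul_pow, mul_div_assoc]
  have e3 : (k : ℝ) ^ l = y ^ l * ((l : ℝ) / d) ^ l := by
    rw [← mul_pow, hy]
    congr 1
    field_simp
  calc (W : ℝ) * ((2 * l / d : ℝ) ^ l * (d : ℝ) ^ r) * (16 * l * Real.exp l)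
      ≤ (y ^ l0 * 3 ^ l) * ((2 * l / d : ℝ) ^ l * y ^ r) * (32 ^ l * 3 ^ l) := by gcongr
    _ = (y ^ l0 * y ^ r * 576 ^ l) * ((l : ℝ) / d) ^ l := by rw [e1, e2]; ring
    _ ≤ y ^ l * ((l : ℝ) / d) ^ l :=
        mul_le_mul_of_nonneg_right (hN l0 l r y h1 hr b2) (by positivity)
    _ = _ := e3.symm

theorem up_last (ε : ℝ) (hε : 0 < ε) (hε1 : ε < 1) : ∃ M K : ℕ, ∀ (k l0 l r n : ℕ),
    M ≤ l0 → K * l0 ≤ k → (1 + ε) * l0 ≤ l → l ≤ 3 * l0 → (r : ℝ) ≤ ε * l / 4 →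
    n ≤ k ^ l0 →
    (n : ℝ) * (2 ^ l * ((l : ℝ) + 1) ^ r) * (16 * Real.exp l) ≤ (k : ℝ) ^ l := by
  obtain ⟨N, hN⟩ := up_room ε hε hε1
  refine ⟨1, 4 * 576 ^ N, fun k l0 l r n h0 hk h1 h3 hr hn => ?_⟩
  have a0 : (1 : ℝ) ≤ l0 := by exact_mod_cast h0
  have a1 : (l0 : ℝ) ≤ l := by nlinarith
  have a2 : 1 ≤ l := h0.trans (by exact_mod_cast a1)
  have a3 : (l : ℝ) ≤ 3 * l0 := by exact_mod_cast h3
  have a4 : (4 : ℝ) * 576 ^ N * l0 ≤ k := by exact_mod_cast hk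
  have a6 : (1 : ℝ) ≤ 576 ^ N := one_le_pow₀ (by norm_num)
  have b2 : (576 : ℝ) ^ N ≤ k := by nlinarith
  have b3 : (l : ℝ) + 1 ≤ k := by nlinarith
  have b4 : (n : ℝ) ≤ (k : ℝ) ^ l0 := by exact_mod_cast hn
  have b5 : ((l : ℝ) + 1) ^ r ≤ (k : ℝ) ^ r := pow_le_pow_left₀ (by positivity) b3 r
  have b6 : 16 * Real.exp l ≤ 96 ^ l * 3 ^ l :=
    mul_le_mul (le_trans (by norm_num) (le_self_pow₀ (a := (96 : ℝ)) (by norm_num) (by omega)))
      (exp_le_three_pow l) (Real.exp_pos _).le (by positivity)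
  have e1 : (576 : ℝ) ^ l = 2 ^ l * (96 ^ l * 3 ^ l) := by
    rw [← mul_pow, ← mul_pow]; norm_num
  calc (n : ℝ) * (2 ^ l * ((l : ℝ) + 1) ^ r) * (16 * Real.exp l)
      ≤ (k : ℝ) ^ l0 * (2 ^ l * (k : ℝ) ^ r) * (96 ^ l * 3 ^ l) := by gcongr
    _ = (k : ℝ) ^ l0 * (k : ℝ) ^ r * 576 ^ l := by rw [e1]; ring
    _ ≤ _ := hN l0 l r k h1 hr b2

/-- take `r = ⌊ε l / 4⌋` -/
theorem fin_deg_up (ε : ℝ) (hε : 0 < ε) (hε1 : ε < 1) :
    ∃ M K : ℕ, ∀ (G : Type) [Group G] [Fintype G] [DecidableEq G] (k l0 l : ℕ),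
      M ≤ l0 → K * l0 ≤ k → (1 + ε) * l0 ≤ l → l ≤ 3 * l0 → DegCond 1 G k l0 →
      psi G k l ≤ 0 := by
  obtain ⟨M0, h0⟩ := meanLog_le_bd
  obtain ⟨M1, K1, h1⟩ := up_term ε hε hε1
  obtain ⟨M2, K2, h2⟩ := up_last ε hε hε1
  obtain ⟨N, hN⟩ := exists_nat_ge (8 / ε)
  rw [div_le_iff₀ hε] at hN
  refine ⟨M0 + M1 + M2 + N + 1, K1 + K2 + 24 * N + 48, fun G _ _ _ k l0 l hM hK hl h3 hD => ?_⟩
  obtain ⟨I⟩ := exists_irr G
  have a0 : (0 : ℝ) ≤ l0 := Nat.cast_nonneg _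
  have a1 : l0 ≤ l := by
    have h4 : (l0 : ℝ) ≤ l := by nlinarith
    exact_mod_cast h4
  have k1 : K1 * l0 ≤ k := le_trans (Nat.mul_le_mul_right _ (by omega)) hK
  have k2 : K2 * l0 ≤ k := le_trans (Nat.mul_le_mul_right _ (by omega)) hK
  have k3 : 48 * l0 ≤ k := le_trans (Nat.mul_le_mul_right _ (by omega)) hK
  have k4 : 24 * N * l0 ≤ k := le_trans (Nat.mul_le_mul_right _ (by omega)) hK
  have lp : (0 : ℝ) < l := by
    have h4 : 0 < l := by omega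
    exact_mod_cast h4
  have kp : (0 : ℝ) < k := by
    have h4 : 0 < k := by omega
    exact_mod_cast h4
  set r : ℕ := ⌊ε * l / 4⌋₊ with hr
  have r1 : (r : ℝ) ≤ ε * l / 4 := Nat.floor_le (by positivity)
  have r2 : ε * l / 4 < r + 1 := Nat.lt_floor_add_one _
  have r3 : ε * l / 8 ≤ r := by
    have h4 : (N : ℝ) ≤ l := by
      have h5 : N ≤ l := by omega
      exact_mod_cast h5
    nlinarith [mul_le_mul_of_nonneg_right h4 hε.le]
  have r4 : 8 * l ^ 2 ≤ r * k := by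
    have h4 : (8 : ℝ) * N * l ≤ k := by
      have h5 : 8 * N * l ≤ k := le_trans (by nlinarith) k4
      exact_mod_cast h5
    have h6 : (8 : ℝ) * (l : ℝ) ^ 2 ≤ r * k :=
      calc (8 : ℝ) * (l : ℝ) ^ 2 ≤ N * ε * (l : ℝ) ^ 2 :=
            mul_le_mul_of_nonneg_right hN (by positivity)
        _ = ε * l / 8 * (8 * N * l) := by ring
        _ ≤ r * k := mul_le_mul r3 h4 (by positivity) (Nat.cast_nonneg _)
    exact_mod_cast h6
  have m1 := h0 G I k l r (by omega) (by omega) (by omega) r4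
  have c0 : (0 : ℝ) < Fintype.card G := by exact_mod_cast Fintype.card_pos
  have b0 : 0 < I.bd l r := lt_of_lt_of_le one_pos (one_le_bd I l r)
  have ep := Real.exp_pos (l : ℝ)
  have t1 : (∑ d ∈ Icc 1 l, (lowDim G d : ℝ) * ((2 * l / d : ℝ) ^ l * (d : ℝ) ^ r)) *
      (16 * l * Real.exp l) ≤ l * (k : ℝ) ^ l := by
    rw [sum_mul]
    refine (sum_le_card_nsmul _ _ ((k : ℝ) ^ l) fun d hd => ?_).trans (le_of_eq ?_)
    · have hd1 := (mem_Icc.1 hd).1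
      have h4 := hD.2 d hd1
      rw [pow_one] at h4
      exact h1 k l0 l r d _ (by omega) k1 hl h3 r1 hd1 h4
    · rw [Nat.card_Icc, nsmul_eq_mul, Nat.add_sub_cancel]
  have t2 : (∑ d ∈ Icc 1 l, (lowDim G d : ℝ) * ((2 * l / d : ℝ) ^ l * (d : ℝ) ^ r)) *
      (16 * Real.exp l) ≤ (k : ℝ) ^ l := by
    refine le_of_mul_le_mul_left (le_trans (le_of_eq ?_) t1) lp
    ring
  have t3 := h2 k l0 l r (Fintype.card G) (by omega) k2 hl h3 r1 hD.1
  have t4 := mul_le_mul_of_nonneg_right (bd_le I l r) (by positivity : 0 ≤ 16 * Real.exp l)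
  have t5 : Fintype.card G * (Real.exp l * (8 * I.bd l r)) ≤ (k : ℝ) ^ l := by
    rw [add_mul] at t4
    linarith
  have t6 := Real.log_le_log (by positivity) t5
  rw [Real.log_mul c0.ne' (by positivity), Real.log_mul ep.ne' (by positivity), Real.log_exp,
    Real.log_pow] at t6
  unfold psi
  linarith

end Pool.Agent.Lib.MP_d87a8f_pr.Q
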