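import Mathlib
import Pool.Agent.Lib.MP_d87a8f_pr.U.Main
import Pool.Agent.Lib.MP_d87a8f_pr.Q.UpLog
import Pool.Agent.Lib.MP_d87a8f_pr.Q.LowLog
import Pool.Agent.Lib.MP_d87a8f_pr.Q.Ent
import Pool.Agent.Lib.MP_d87a8f_pr.Q.Cls

/-!
The cutoff time and the degrees of the representations.
-/

namespace Pool.Agent.Lib.MP_d87a8f_pr.Q

open Finset Filter Topology Pool.Agent.Lib.MP_d87a8f_pr.U

/-- at `l = ⌈L⌉`: `|G| * l ^ l ≤ k ^ l` -/
theorem degCond_ceil (c : ℕ) (G : Type) [Group G] [Fintype G] [DecidableEq G] (k : ℕ)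
    (hL : 1 ≤ Real.log (Fintype.card G)) (hk : 6 * Real.log (Fintype.card G) ≤ k) :
    DegCond c G k ⌈Real.log (Fintype.card G)⌉₊ := by
  set L := Real.log (Fintype.card G) with hLdef
  have hc1 : L ≤ (⌈L⌉₊ : ℝ) := Nat.le_ceil _
  have hc2 : (⌈L⌉₊ : ℝ) ≤ 2 * L := by
    have := Nat.ceil_lt_add_one (show 0 ≤ L by linarith)
    linarith
  generalize ⌈L⌉₊ = l at hc1 hc2 ⊢
  have hl1 : 1 ≤ l := by exact_mod_cast (hL.trans hc1)
  have h3l : 3 * l ≤ k := by exact_mod_cast (show (3 : ℝ) * l ≤ k by linarith)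
  have hcard : Fintype.card G ≤ 3 ^ l := by
    have h0 : (0 : ℝ) < Fintype.card G := by exact_mod_cast Fintype.card_pos
    have h3 : 1 ≤ Real.log 3 := by
      rw [Real.le_log_iff_exp_le (by norm_num)]
      exact (Real.exp_one_lt_d9.le).trans (by norm_num)
    have h4 : Real.log (Fintype.card G) ≤ Real.log ((3 : ℝ) ^ l) := by
      rw [Real.log_pow]
      have h5 : (0 : ℝ) ≤ l := Nat.cast_nonneg _
      nlinarith
    exact_mod_cast (Real.log_le_log_iff h0 (by positivity)).mp h4
  have hmain : Fintype.card G * l ^ l ≤ k ^ l := by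
    calc Fintype.card G * l ^ l ≤ 3 ^ l * l ^ l := Nat.mul_le_mul_right _ hcard
      _ = (3 * l) ^ l := (mul_pow _ _ _).symm
      _ ≤ k ^ l := Nat.pow_le_pow_left h3l _
  refine ⟨le_trans (Nat.le_mul_of_pos_right _ (by positivity)) hmain, fun d hd => ?_⟩
  calc lowDim G d * l ^ l ≤ Fintype.card G * l ^ l := Nat.mul_le_mul_right _ (lowDim_le_card d)
    _ ≤ k ^ l := hmain
    _ ≤ (k * d ^ c) ^ l := Nat.pow_le_pow_left (Nat.le_mul_of_pos_right _ (by positivity)) _

theorem degCond_two_mul (G : Type) [Group G] [Fintype G] (k l : ℕ) (hk : 4 * l ≤ k) (h0 : 0 < k)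
    (h : DegCond 2 G k l) : DegCond 1 G k (2 * l) := by
  refine ⟨h.1.trans (Nat.pow_le_pow_right h0 (by omega)), fun d hd => ?_⟩
  have e1 : (2 * l) ^ (2 * l) = l ^ l * (4 * l) ^ l := by
    rw [pow_mul, ← mul_pow]; congr 1; ring
  have e2 : (k * d ^ 1) ^ (2 * l) = (k * d ^ 2) ^ l * k ^ l := by
    rw [pow_mul, ← mul_pow]; congr 1; ring
  rw [e1, e2, ← mul_assoc]
  exact Nat.mul_le_mul (h.2 d hd) (Nat.pow_le_pow_left hk _)

theorem degCond_one_two (G : Type) [Group G] [Fintype G] (k l : ℕ) (h : DegCond 1 G k l) :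
    DegCond 2 G k l := by
  refine ⟨h.1, fun d hd => (h.2 d hd).trans (Nat.pow_le_pow_left ?_ _)⟩
  exact Nat.mul_le_mul_left _ (Nat.pow_le_pow_right hd (by norm_num))

/-- an integer between `(1 + ε') T` and `(1 + ε) T` -/
theorem exists_between_nat (ε : ℝ) (hε : 0 < ε) : ∃ ε' : ℝ, 0 < ε' ∧ ε' < 1 ∧ ∃ M : ℕ,
    ∀ T : ℕ, M ≤ T → ∃ l : ℕ, (1 + ε') * T ≤ l ∧ l ≤ 3 * T ∧ (l : ℝ) ≤ (1 + ε) * T := by
  have h0 : 0 < min ε 1 / 2 := by have := lt_min hε one_pos; positivity
  have h1 : min ε 1 / 2 ≤ 1 / 2 := by have := min_le_right ε 1; linarith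
  have h2 : min ε 1 / 2 ≤ ε / 2 := by have := min_le_left ε 1; linarith
  generalize min ε 1 / 2 = e at h0 h1 h2
  obtain ⟨M, hM⟩ := exists_nat_ge (2 / ε)
  refine ⟨e, h0, by linarith, M, fun T hT => ⟨⌈(1 + e) * T⌉₊, Nat.le_ceil _, ?_, ?_⟩⟩
  · refine Nat.ceil_le.mpr ?_
    have hT0 : (0 : ℝ) ≤ T := Nat.cast_nonneg _
    push_cast
    nlinarith
  · have hT0 : (0 : ℝ) ≤ T := Nat.cast_nonneg _
    have h3 := Nat.ceil_lt_add_one (show (0 : ℝ) ≤ (1 + e) * T by positivity)
    have h4 : 2 / ε ≤ T := hM.trans (by exact_mod_cast hT)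
    rw [div_le_iff₀ hε] at h4
    nlinarith

variable (G : ℕ → Type) [∀ n, Group (G n)] [∀ n, Fintype (G n)] [∀ n, DecidableEq (G n)]
  (k : ℕ → ℕ)

/-- position of the two times -/
theorem ev_deg (c : ℕ)
    (h1 : Tendsto (fun n => (k n : ℝ) / Real.log (Fintype.card (G n))) atTop atTop)
    (h2 : Tendsto (fun n => Real.log (k n) / Real.log (Fintype.card (G n))) atTop (𝓝 0))
    (M K : ℕ) : ∀ᶠ n in atTop, M ≤ degTime c (G n) (k n) ∧ K * degTime c (G n) (k n) ≤ k n ∧
      DegCond c (G n) (k n) (degTime c (G n) (k n)) := by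
  have hlog2 : (1 : ℝ) / 2 ≤ Real.log 2 := by
    have := Real.log_two_gt_d9; linarith
  have e1 := h1.eventually_ge_atTop (6 + 2 * (K : ℝ))
  have e2 := h2.eventually (gt_mem_nhds (show (0 : ℝ) < 1 / ((M : ℝ) + 1) by positivity))
  filter_upwards [e1, e2] with n a1 a2
  set L := Real.log (Fintype.card (G n)) with hL
  have hK0 : (0 : ℝ) ≤ K := Nat.cast_nonneg _
  have hM0 : (0 : ℝ) ≤ M := Nat.cast_nonneg _
  have hL0 : 0 ≤ L := Real.log_natCast_nonneg _
  have hLpos : 0 < L := by
    rcases hL0.eq_or_lt with h | h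
    · rw [← h, div_zero] at a1; linarith
    · exact h
  have hc2 : 2 ≤ Fintype.card (G n) := by
    by_contra h
    have h0 : 0 < Fintype.card (G n) := Fintype.card_pos
    have h1' : Fintype.card (G n) = 1 := by omega
    rw [hL, h1'] at hLpos
    simp at hLpos
  have hL2 : 1 / 2 ≤ L := hlog2.trans (Real.log_le_log (by norm_num) (by exact_mod_cast hc2))
  rw [le_div_iff₀ hLpos] at a1
  rw [div_lt_div_iff₀ hLpos (by positivity), one_mul] at a2
  have hk3 : (3 : ℝ) ≤ k n := by nlinarith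
  have hlk : 1 ≤ Real.log (k n) := by
    rw [Real.le_log_iff_exp_le (by linarith)]
    exact (Real.exp_one_lt_d9.le).trans (by linarith)
  have hL1 : 1 ≤ L := by nlinarith
  have hmem : DegCond c (G n) (k n) ⌈L⌉₊ := degCond_ceil c (G n) (k n) hL1 (by nlinarith)
  have hin : DegCond c (G n) (k n) (degTime c (G n) (k n)) :=
    Nat.sInf_mem (s := {l : ℕ | DegCond c (G n) (k n) l}) ⟨_, hmem⟩
  have hle : degTime c (G n) (k n) ≤ ⌈L⌉₊ :=
    Nat.sInf_le (s := {l : ℕ | DegCond c (G n) (k n) l}) hmem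
  have hc3 : (⌈L⌉₊ : ℝ) ≤ 2 * L := by
    have := Nat.ceil_lt_add_one hL0
    linarith
  have b3 : (degTime c (G n) (k n) : ℝ) ≤ 2 * L := le_trans (by exact_mod_cast hle) hc3
  have b4 : L ≤ degTime c (G n) (k n) * Real.log (k n) := by
    rw [← Real.log_pow]
    exact Real.log_le_log (by exact_mod_cast Fintype.card_pos) (by exact_mod_cast hin.1)
  refine ⟨?_, ?_, hin⟩
  · have : (M : ℝ) ≤ degTime c (G n) (k n) := by
      by_contra h
      push Not at h
      nlinarith
    exact_mod_cast this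
  · have : (K : ℝ) * degTime c (G n) (k n) ≤ k n := by nlinarith
    exact_mod_cast this

theorem cut_le_deg
    (h1 : Tendsto (fun n => (k n : ℝ) / Real.log (Fintype.card (G n))) atTop atTop)
    (h2 : Tendsto (fun n => Real.log (k n) / Real.log (Fintype.card (G n))) atTop (𝓝 0))
    (ε : ℝ) (hε : 0 < ε) :
    ∀ᶠ n in atTop, (cutTime (G n) (k n) : ℝ) ≤ (1 + ε) * degTime 1 (G n) (k n) := by
  obtain ⟨e, he, he1, M', hM'⟩ := exists_between_nat ε hε
  obtain ⟨M, K, hMK⟩ := fin_deg_up e he he1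
  filter_upwards [ev_deg G k 1 h1 h2 (max M M') K] with n ⟨a1, a2, a3⟩
  obtain ⟨l, b1, b2, b3⟩ := hM' _ (le_trans (le_max_right _ _) a1)
  have h := hMK (G n) (k n) _ l (le_trans (le_max_left _ _) a1) a2 b1 b2 a3
  have hle : cutTime (G n) (k n) ≤ l := by
    refine Nat.sInf_le ?_
    show Real.log (Fintype.card (G n)) + meanLog (G n) (k n) l ≤ l * Real.log (k n)
    unfold psi at h
    linarith
  exact le_trans (by exact_mod_cast hle) b3

theorem deg_le_cut
    (h1 : Tendsto (fun n => (k n : ℝ) / Real.log (Fintype.card (G n))) atTop atTop)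
    (h2 : Tendsto (fun n => Real.log (k n) / Real.log (Fintype.card (G n))) atTop (𝓝 0))
    (ε : ℝ) (hε : 0 < ε) :
    ∀ᶠ n in atTop, (degTime 2 (G n) (k n) : ℝ) ≤ (1 + ε) * cutTime (G n) (k n) := by
  obtain ⟨e, he, he1, M', hM'⟩ := exists_between_nat ε hε
  obtain ⟨M, K, hMK⟩ := fin_deg_low e he he1
  filter_upwards [ev_spec G k h1 h2 (max M M') K] with n ⟨_, a1, a2, a3, _⟩
  obtain ⟨l, b1, b2, b3⟩ := hM' _ (le_trans (le_max_right _ _) a1)
  have h := hMK (G n) (k n) _ l (le_trans (le_max_left _ _) a1) a2 b1 b2 a3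
  have hle : degTime 2 (G n) (k n) ≤ l :=
    Nat.sInf_le (s := {l : ℕ | DegCond 2 (G n) (k n) l}) h
  exact le_trans (by exact_mod_cast hle) b3

/-- two sided bound by the degrees -/
theorem degree_bounds
    (h1 : Tendsto (fun n => (k n : ℝ) / Real.log (Fintype.card (G n))) atTop atTop)
    (h2 : Tendsto (fun n => Real.log (k n) / Real.log (Fintype.card (G n))) atTop (𝓝 0)) :
    (∀ ε δ : ℝ, 0 < ε → ε < 1 → 0 < δ →
      Tendsto (fun n => prob (fun Z : Fin (k n) → G n =>
        δ < |tvDist Z ((1 - ε) * degTime 2 (G n) (k n)) - 1|)) atTop (𝓝 0) ∧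
      Tendsto (fun n => prob (fun Z : Fin (k n) → G n =>
        δ < |tvDist Z ((1 + ε) * degTime 1 (G n) (k n))|)) atTop (𝓝 0)) ∧
    ∀ᶠ n in atTop, degTime 2 (G n) (k n) ≤ degTime 1 (G n) (k n) ∧
      degTime 1 (G n) (k n) ≤ 2 * degTime 2 (G n) (k n) := by
  refine ⟨fun ε δ hε hε1 hδ => ⟨?_, ?_⟩, ?_⟩
  · refine tendsto_prob G k _ (fun η hη => ?_)
    filter_upwards [deg_le_cut G k h1 h2 (ε / 2) (by positivity),
      ev_low G k h1 h2 (ε / 2) δ η (by positivity) (by linarith) hδ hη] with n a1 a2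
    refine a2 _ (mul_nonneg (by linarith) (Nat.cast_nonneg _)) ?_
    have h0 : (0 : ℝ) ≤ cutTime (G n) (k n) := Nat.cast_nonneg _
    have h3 : (1 - ε) * (degTime 2 (G n) (k n) : ℝ) ≤
        (1 - ε) * ((1 + ε / 2) * cutTime (G n) (k n)) :=
      mul_le_mul_of_nonneg_left a1 (by linarith)
    nlinarith [mul_nonneg (sq_nonneg ε) h0]
  · refine tendsto_prob G k _ (fun η hη => ?_)
    filter_upwards [cut_le_deg G k h1 h2 (ε / 4) (by positivity),
      ev_up G k h1 h2 (ε / 2) δ η (by positivity) (by linarith) hδ hη] with n a1 a2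
    refine a2 _ ?_
    have h0 : (0 : ℝ) ≤ degTime 1 (G n) (k n) := Nat.cast_nonneg _
    have h3 : (1 + ε / 2) * (cutTime (G n) (k n) : ℝ) ≤
        (1 + ε / 2) * ((1 + ε / 4) * degTime 1 (G n) (k n)) :=
      mul_le_mul_of_nonneg_left a1 (by linarith)
    have h4 : 0 ≤ ε * (1 - ε) * degTime 1 (G n) (k n) := by
      have : 0 ≤ 1 - ε := by linarith
      positivity
    nlinarith [mul_nonneg hε.le h0]
  · filter_upwards [ev_deg G k 1 h1 h2 0 0, ev_deg G k 2 h1 h2 0 4, ev_spec G k h1 h2 0 0]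
      with n a1 a2 a3
    exact ⟨Nat.sInf_le (s := {l : ℕ | DegCond 2 (G n) (k n) l}) (degCond_one_two _ _ _ a1.2.2),
      Nat.sInf_le (s := {l : ℕ | DegCond 1 (G n) (k n) l})
        (degCond_two_mul _ _ _ a2.2.1 a3.1 a2.2.2)⟩

omit [∀ n, Group (G n)] [∀ n, DecidableEq (G n)] in
theorem ev_regime [∀ n, Nonempty (G n)]
    (h1 : Tendsto (fun n => (k n : ℝ) / Real.log (Fintype.card (G n))) atTop atTop)
    (h2 : Tendsto (fun n => Real.log (k n) / Real.log (Fintype.card (G n))) atTop (𝓝 0))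
    (B : ℝ) (hB : 1 ≤ B) : ∀ᶠ n in atTop, B ≤ Real.log (Fintype.card (G n)) ∧
      B * Real.log (Fintype.card (G n)) ≤ k n ∧ B ≤ Real.log (k n) ∧
      B * Real.log (k n) ≤ Real.log (Fintype.card (G n)) := by
  have hlog2 : (1 : ℝ) / 2 ≤ Real.log 2 := by
    have := Real.log_two_gt_d9; linarith
  have e1 := h1.eventually_ge_atTop (B + 2 * Real.exp B)
  have e2 := h2.eventually (gt_mem_nhds (show (0 : ℝ) < 1 / B by positivity))
  filter_upwards [e1, e2] with n a1 a2
  set L := Real.log (Fintype.card (G n)) with hL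
  have hE : 0 < Real.exp B := Real.exp_pos B
  have hL0 : 0 ≤ L := Real.log_natCast_nonneg _
  have hLpos : 0 < L := by
    rcases hL0.eq_or_lt with h | h
    · rw [← h, div_zero] at a1; linarith
    · exact h
  have hc2 : 2 ≤ Fintype.card (G n) := by
    by_contra h
    have h0 : 0 < Fintype.card (G n) := Fintype.card_pos
    have h1' : Fintype.card (G n) = 1 := by omega
    rw [hL, h1'] at hLpos
    simp at hLpos
  have hL2 : 1 / 2 ≤ L := hlog2.trans (Real.log_le_log (by norm_num) (by exact_mod_cast hc2))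
  rw [le_div_iff₀ hLpos] at a1
  rw [div_lt_div_iff₀ hLpos (by positivity), one_mul] at a2
  have hkE : Real.exp B ≤ k n := by nlinarith
  have hlk : B ≤ Real.log (k n) := by
    rw [Real.le_log_iff_exp_le (by linarith)]
    exact hkE
  refine ⟨by nlinarith, by nlinarith, hlk, by linarith⟩

theorem log_ab_le (H : Type) [Group H] [Fintype H] :
    Real.log (Nat.card (Abelianization H)) ≤ Real.log (Fintype.card H) := by
  have h1 : Nat.card (Abelianization H) ≤ Nat.card H :=
    Nat.card_le_card_of_surjective (Abelianization.of : H → Abelianization H)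
      (fun x => Quotient.inductionOn' x (fun y => ⟨y, rfl⟩))
  rw [Nat.card_eq_fintype_card (α := H)] at h1
  have h0 : 0 < Nat.card (Abelianization H) := by
    have : Finite (Abelianization H) :=
      Finite.of_surjective (Abelianization.of : H → Abelianization H)
        (fun x => Quotient.inductionOn' x (fun y => ⟨y, rfl⟩))
    exact Nat.card_pos
  exact Real.log_le_log (by exact_mod_cast h0) (by exact_mod_cast h1)

theorem ab_pos (H : Type) [Group H] [Fintype H] : 0 < Nat.card (Abelianization H) := by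
  have : Finite (Abelianization H) :=
    Finite.of_surjective (Abelianization.of : H → Abelianization H)
      (fun x => Quotient.inductionOn' x (fun y => ⟨y, rfl⟩))
  exact Nat.card_pos

/-- the conjectured time is below `degTime 2` (`ab_le_lowDim`, `time_le_of`) -/
theorem star_le_deg
    (h1 : Tendsto (fun n => (k n : ℝ) / Real.log (Fintype.card (G n))) atTop atTop)
    (h2 : Tendsto (fun n => Real.log (k n) / Real.log (Fintype.card (G n))) atTop (𝓝 0))
    (t₀ : ℕ → ℝ) (ht : ∀ᶠ n in atTop, 0 ≤ t₀ n ∧ (k n : ℝ) * poissonEntropy (t₀ n / k n) =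
      Real.log (Nat.card (Abelianization (G n)))) :
    ∀ᶠ n in atTop, max (t₀ n) (Real.log (Fintype.card (G n)) / Real.log (k n)) ≤
      degTime 2 (G n) (k n) := by
  filter_upwards [ev_deg G k 2 h1 h2 1 1, ev_regime G k h1 h2 8 (by norm_num), ht] with n
    ⟨a1, _, a3, a4⟩ ⟨b1, b2, b3, _⟩ ⟨c1, c2⟩
  set l := degTime 2 (G n) (k n)
  have hl : (0 : ℝ) < l := by exact_mod_cast a1
  have hk : (0 : ℝ) < k n := by linarith
  have hA := log_ab_le (G n)
  refine max_le ?_ ?_
  · refine time_le_of (k n) _ _ _ (by exact_mod_cast hk) (by linarith) c1 c2 hl ?_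
    have h3 := (Nat.mul_le_mul_right (l ^ l) (ab_le_lowDim (G := G n))).trans (a4 1 le_rfl)
    rw [one_pow, mul_one] at h3
    have h4 : (Nat.card (Abelianization (G n)) : ℝ) * (l : ℝ) ^ l ≤ (k n : ℝ) ^ l := by
      exact_mod_cast h3
    have h5 : (0 : ℝ) < Nat.card (Abelianization (G n)) := by exact_mod_cast ab_pos (G n)
    have h6 := Real.log_le_log (by positivity) h4
    rw [Real.log_mul h5.ne' (by positivity), Real.log_pow, Real.log_pow] at h6
    rw [Real.log_div hk.ne' hl.ne']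
    linarith
  · rw [div_le_iff₀ (by linarith)]
    have h4 : (Fintype.card (G n) : ℝ) ≤ (k n : ℝ) ^ l := by exact_mod_cast a3
    have h5 : (0 : ℝ) < Fintype.card (G n) := by exact_mod_cast Fintype.card_pos
    have h6 := Real.log_le_log h5 h4
    rw [Real.log_pow] at h6
    exact h6

theorem nat_of_log {W l y : ℕ} (hl : 0 < l) (hy : 0 < y)
    (h : Real.log W + l * Real.log l ≤ l * Real.log y) : W * l ^ l ≤ y ^ l := by
  rcases Nat.eq_zero_or_pos W with h0 | h0
  · simp [h0]
  have hW : (0 : ℝ) < W := by exact_mod_cast h0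
  have hl' : (0 : ℝ) < l := by exact_mod_cast hl
  have hy' : (0 : ℝ) < y := by exact_mod_cast hy
  have : (W : ℝ) * (l : ℝ) ^ l ≤ (y : ℝ) ^ l := by
    rw [← Real.log_le_log_iff (by positivity) (by positivity),
      Real.log_mul hW.ne' (by positivity), Real.log_pow, Real.log_pow]
    exact h
  exact_mod_cast this

/-- `DegCond 1` holds at `⌈(1 + ε) t⌉`: `room` for `d ≤ D`, `lowDim_le_card` for `d > D` -/
theorem deg_le_star
    (h1 : Tendsto (fun n => (k n : ℝ) / Real.log (Fintype.card (G n))) atTop atTop)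
    (h2 : Tendsto (fun n => Real.log (k n) / Real.log (Fintype.card (G n))) atTop (𝓝 0))
    (D : ℕ → ℕ) (C : ℝ) (hD0 : ∀ᶠ n in atTop, 1 ≤ D n)
    (hD : Tendsto (fun n => Real.log (1 + Real.log (Fintype.card (G n)) / D n) / Real.log (k n))
      atTop (𝓝 0))
    (hW : ∀ᶠ n in atTop, Real.log (lowDim (G n) (D n)) ≤
      Real.log (Nat.card (Abelianization (G n))) +
        C * (Real.log (Fintype.card (G n)) / Real.log (k n)))
    (t₀ : ℕ → ℝ) (ht : ∀ᶠ n in atTop, 0 ≤ t₀ n ∧ (k n : ℝ) * poissonEntropy (t₀ n / k n) =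
      Real.log (Nat.card (Abelianization (G n)))) (ε : ℝ) (hε : 0 < ε) :
    ∀ᶠ n in atTop, (degTime 1 (G n) (k n) : ℝ) ≤
      (1 + ε) * max (t₀ n) (Real.log (Fintype.card (G n)) / Real.log (k n)) := by
  obtain ⟨e, he0, he1, heε⟩ : ∃ e : ℝ, 0 < e ∧ e < 1 ∧ 2 * e ≤ ε :=
    ⟨min (1 / 2) (ε / 2), lt_min (by norm_num) (by linarith),
      lt_of_le_of_lt (min_le_left _ _) (by norm_num), by linarith [min_le_right (1 / 2) (ε / 2)]⟩
  obtain ⟨K, hK⟩ := room e (max C 0) he0 he1 (le_max_right _ _)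
  have hK0 : (0 : ℝ) ≤ K := Nat.cast_nonneg _
  have e3 := hD.eventually (gt_mem_nhds (show (0 : ℝ) < e / 4 by positivity))
  filter_upwards [ev_regime G k h1 h2 (5 * K + 8 + 16 / e)
    (by have : 0 < 16 / e := by positivity
        linarith), hD0, e3, hW, ht] with n ⟨b1, b2, b3, b4⟩ d0 d1 w1 ⟨c1, c2⟩
  set L := Real.log (Fintype.card (G n)) with hL
  set lk := Real.log (k n) with hlk
  set a := Real.log (Nat.card (Abelianization (G n))) with ha
  have h16 : 0 < 16 / e := by positivity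
  have he16 : e * (16 / e) = 16 := by field_simp
  have hL8 : 8 ≤ L := by linarith
  have hlk8 : 8 ≤ lk := by linarith
  have hk8 : 8 * L ≤ k n := by
    have := mul_nonneg (show 0 ≤ 5 * K + 16 / e by positivity) (show 0 ≤ L by linarith)
    linarith
  have hk : (0 : ℝ) < k n := by linarith
  have hkn : 0 < k n := by exact_mod_cast hk
  have hA : a ≤ L := log_ab_le (G n)
  have ht2 : t₀ n ≤ 2 * a := time_le_two (k n) a _ hkn (by linarith) c1 c2
  set t := max (t₀ n) (L / lk) with htdef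
  have hq : L / lk ≤ t := le_max_right _ _
  have hq1 : 16 / e ≤ L / lk := by
    rw [le_div_iff₀ (by linarith)]
    have := mul_nonneg (show 0 ≤ 5 * (K : ℝ) + 8 by positivity) (show 0 ≤ lk by linarith)
    linarith
  have hq2 : L / lk ≤ L := div_le_self (by linarith) (by linarith)
  have ht2L : t ≤ 2 * L := max_le (by linarith) (by linarith)
  have htpos : 0 < t := by linarith
  set l := ⌈(1 + e) * t⌉₊ with hldef
  have hl1 : (1 + e) * t ≤ l := Nat.le_ceil _
  have hl2 : (l : ℝ) ≤ (1 + e) * t + 1 := (Nat.ceil_lt_add_one (by positivity)).le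
  have het : 16 ≤ e * t := by
    have := mul_le_mul_of_nonneg_left (hq1.trans hq) he0.le
    linarith
  have het1 : e * t ≤ t := mul_le_of_le_one_left htpos.le he1.le
  have hl3 : (l : ℝ) ≤ (1 + ε) * t := by
    have := mul_le_mul_of_nonneg_right heε htpos.le
    linarith
  have hl5 : (l : ℝ) ≤ 5 * L := by linarith
  have hlpos : (0 : ℝ) < l := by linarith
  have hln : 0 < l := by exact_mod_cast hlpos
  have hLl : (1 + e) * L ≤ l * lk := by
    have q1 : L ≤ t * lk := by rwa [div_le_iff₀ (by linarith)] at hq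
    have q2 := mul_le_mul_of_nonneg_right hl1 (show 0 ≤ lk by linarith)
    have q3 := mul_le_mul_of_nonneg_left q1 (show 0 ≤ 1 + e by linarith)
    linarith
  have hcond : DegCond 1 (G n) (k n) l := by
    refine ⟨?_, fun d hd => ?_⟩
    · have := nat_of_log (W := Fintype.card (G n)) (l := 1) (y := k n ^ l) one_pos (by positivity)
        (by push_cast; rw [Real.log_pow]; simp only [Real.log_one]
            have := mul_nonneg he0.le (show 0 ≤ L by linarith)
            linarith)
      simpa using this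
    · rw [pow_one]
      have hd' : (1 : ℝ) ≤ d := by exact_mod_cast hd
      refine nat_of_log hln (by positivity) ?_
      push_cast
      rw [Real.log_mul hk.ne' (by positivity)]
      have hlogd : 0 ≤ Real.log d := Real.log_nonneg hd'
      have hW1 : ∀ d' : ℕ, 1 ≤ d' → (0 : ℝ) < lowDim (G n) d' := fun d' h' => by
        exact_mod_cast lt_of_lt_of_le (ab_pos (G n)) (ab_le_lowDim.trans (lowDim_mono h'))
      rcases le_or_gt d (D n) with hdD | hdD
      · have h3 : Real.log (lowDim (G n) d) ≤ Real.log (lowDim (G n) (D n)) :=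
          Real.log_le_log (hW1 d hd) (by exact_mod_cast lowDim_mono hdD)
        have hKl : (K : ℝ) * l ≤ k n := by
          have q1 := mul_le_mul_of_nonneg_left hl5 hK0
          have q2 := mul_nonneg (show 0 ≤ 8 + 16 / e by linarith) (show 0 ≤ L by linarith)
          linarith
        have h4 := hK (k n) a (t₀ n) l hlpos hKl c1 c2
          (le_trans (mul_le_mul_of_nonneg_left (le_max_left _ _) (by linarith)) hl1)
        rw [Real.log_div hk.ne' hlpos.ne'] at h4
        have h5 : C * (L / lk) ≤ max C 0 * l := by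
          refine (mul_le_mul_of_nonneg_right (le_max_left C 0) (by linarith)).trans ?_
          exact mul_le_mul_of_nonneg_left (by linarith) (le_max_right _ _)
        have h6 := mul_nonneg hlpos.le hlogd
        linarith
      · have h3 : Real.log (lowDim (G n) d) ≤ L :=
          Real.log_le_log (hW1 d hd) (by exact_mod_cast lowDim_le_card d)
        have hDp : (0 : ℝ) < D n := by exact_mod_cast d0
        have hDd : (D n : ℝ) ≤ d := by exact_mod_cast hdD.le
        rw [div_lt_iff₀ (by linarith)] at d1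
        have h4 : Real.log l ≤ Real.log 5 + Real.log (1 + L / D n) + Real.log d := by
          rw [← Real.log_mul (by norm_num) (by positivity),
            ← Real.log_mul (by positivity) (by positivity)]
          refine Real.log_le_log hlpos ?_
          have h5 : L ≤ L / D n * d := by
            rw [div_mul_eq_mul_div, le_div_iff₀ hDp]
            exact mul_le_mul_of_nonneg_left hDd (by linarith)
          linarith
        have h6 : Real.log 5 ≤ 4 := by
          have := Real.log_le_sub_one_of_pos (show (0 : ℝ) < 5 by norm_num); linarith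
        have h7 : 4 ≤ e / 4 * lk := by
          have := mul_le_mul_of_nonneg_left (show 16 / e ≤ lk by linarith) he0.le
          linarith
        have hX : 0 ≤ (l : ℝ) * lk := mul_nonneg hlpos.le (by linarith)
        have h8 : L ≤ (1 - e / 2) * (l * lk) := by
          refine le_of_mul_le_mul_left (a := 1 + e) ?_ (by linarith)
          have := mul_nonneg (mul_nonneg he0.le (sub_nonneg.2 he1.le)) hX
          linarith
        have h9 := mul_le_mul_of_nonneg_left
          (show Real.log l ≤ e / 2 * lk + Real.log d by linarith) hlpos.le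
        linarith
  have hle : degTime 1 (G n) (k n) ≤ l := Nat.sInf_le hcond
  have : (degTime 1 (G n) (k n) : ℝ) ≤ l := by exact_mod_cast hle
  linarith

/-- the conjectured time is right when the representations of small degree are few -/
theorem star_cutoff
    (h1 : Tendsto (fun n => (k n : ℝ) / Real.log (Fintype.card (G n))) atTop atTop)
    (h2 : Tendsto (fun n => Real.log (k n) / Real.log (Fintype.card (G n))) atTop (𝓝 0))
    (D : ℕ → ℕ) (C : ℝ) (hD0 : ∀ᶠ n in atTop, 1 ≤ D n)
    (hD : Tendsto (fun n => Real.log (1 + Real.log (Fintype.card (G n)) / D n) / Real.log (k n))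
      atTop (𝓝 0))
    (hW : ∀ᶠ n in atTop, Real.log (lowDim (G n) (D n)) ≤
      Real.log (Nat.card (Abelianization (G n))) +
        C * (Real.log (Fintype.card (G n)) / Real.log (k n))) :
    (∀ᶠ n in atTop, ∃ t : ℝ, 0 ≤ t ∧ (k n : ℝ) * poissonEntropy (t / k n) =
      Real.log (Nat.card (Abelianization (G n)))) ∧
    ∀ t₀ : ℕ → ℝ, (∀ᶠ n in atTop, 0 ≤ t₀ n ∧ (k n : ℝ) * poissonEntropy (t₀ n / k n) =
        Real.log (Nat.card (Abelianization (G n)))) →
      CutoffAt G k (fun n => max (t₀ n) (Real.log (Fintype.card (G n)) / Real.log (k n))) := by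
  have hpos : ∀ t₀ : ℕ → ℝ, ∀ᶠ n in atTop,
      0 < max (t₀ n) (Real.log (Fintype.card (G n)) / Real.log (k n)) := fun t₀ => by
    filter_upwards [ev_regime G k h1 h2 1 le_rfl] with n ⟨b1, _, b3, _⟩
    exact lt_of_lt_of_le (div_pos (by linarith) (by linarith)) (le_max_right _ _)
  refine ⟨?_, fun t₀ ht => ?_⟩
  · filter_upwards [ev_regime G k h1 h2 4 (by norm_num)] with n ⟨b1, b2, _, _⟩
    have hk : (0 : ℝ) < k n := by linarith
    exact exists_time (k n) _ (Real.log_natCast_nonneg _) (by exact_mod_cast hk)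
      (by linarith [log_ab_le (G n)])
  · refine ((main G k h1 h2).2 _ (hpos t₀)).2 ?_
    rw [Metric.tendsto_nhds]
    intro η hη
    obtain ⟨e, he0, he1, heη⟩ : ∃ e : ℝ, 0 < e ∧ e ≤ 1 ∧ 4 * e ≤ η :=
      ⟨min 1 (η / 4), lt_min one_pos (by linarith), min_le_left _ _,
        by linarith [min_le_right 1 (η / 4)]⟩
    filter_upwards [hpos t₀, cut_le_deg G k h1 h2 e he0, deg_le_cut G k h1 h2 e he0,
      star_le_deg G k h1 h2 t₀ ht, deg_le_star G k h1 h2 D C hD0 hD hW t₀ ht e he0] with n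
      a0 a1 a2 a3 a4
    set t := max (t₀ n) (Real.log (Fintype.card (G n)) / Real.log (k n))
    set T : ℝ := ((cutTime (G n) (k n) : ℕ) : ℝ)
    have hT : 0 ≤ T := Nat.cast_nonneg _
    have u1 : T ≤ (1 + e) * ((1 + e) * t) :=
      a1.trans (mul_le_mul_of_nonneg_left a4 (by linarith))
    have u2 : t ≤ (1 + e) * T := a3.trans a2
    rw [Real.dist_eq, abs_lt]
    constructor
    · have : 1 - η < T / t := by
        rw [lt_div_iff₀ a0]
        refine lt_of_mul_lt_mul_left (a := 1 + e) ?_ (by linarith)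
        have q1 := mul_pos he0 a0
        have q2 := mul_le_mul_of_nonneg_right heη a0.le
        have q3 := mul_pos he0 (mul_pos hη a0)
        linarith
      linarith
    · have : T / t < 1 + η := by
        rw [div_lt_iff₀ a0]
        nlinarith [mul_pos he0 a0, mul_le_mul_of_nonneg_right he1 (mul_pos he0 a0).le]
      linarith

end Pool.Agent.Lib.MP_d87a8f_pr.Q
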