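import Mathlib
import Pool.Agent.Lib.MP_d87a8f_pr.U.Exch
import Pool.Agent.Lib.MP_d87a8f_pr.Q.Loop

/-!
Gauge transformations of the running products and the count of labelled rearrangements.
-/

namespace Pool.Agent.Lib.MP_d87a8f_pr.Q

open Finset Pool.Agent.Lib.MP_d87a8f_pr.U

variable {G : Type} [Group G] {m : ℕ} {L : Type}

/-- the steps of a path in the group -/
def lt (c : Fin (m + 1) → G) : Fin m → G := fun j => (c j.castSucc)⁻¹ * c j.succ

/-- `c ↦ (c 0, lt c)` is a bijection -/
theorem av_lt [Fintype G] (F : (Fin m → G) → ℝ) :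
    av (fun c : Fin (m + 1) → G => F (lt c)) = av F := by
  have h : Function.Bijective fun c : Fin (m + 1) → G => (c 0, lt c) := by
    refine (Fintype.bijective_iff_injective_and_card _).2 ⟨fun c c' e => funext fun p => ?_, ?_⟩
    · obtain ⟨e0, e1⟩ := Prod.ext_iff.1 e
      induction p using Fin.induction with
      | zero => exact e0
      | succ j ih =>
        have := congrFun e1 j
        simp only [lt, ih] at this
        exact mul_left_cancel this
    · simp [pow_succ']
  rw [av_bij h fun p => F p.2, av_prod]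
  exact av_const (α := G) (av F)

theorem pim_one : pim (1 : Equiv.Perm (Fin m)) = 1 := by
  exact Equiv.ext fun p => Fin.cases (nx_one 0) (fun a => nx_one a.succ) p

theorem wp_tel (a : Fin (m + 1) → G) (g : Fin m → G) :
    wp (fun j => (a j.castSucc)⁻¹ * g j * a j.succ) = (a 0)⁻¹ * wp g * a (Fin.last m) := by
  induction m with
  | zero => simp [wp]
  | succ m ih =>
    have := ih (fun j => a j.succ) fun j => g j.succ
    simp only [wp, List.ofFn_succ, List.prod_cons, Fin.castSucc_succ] at this ⊢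
    rw [this, Fin.succ_last]
    simp [mul_assoc]

theorem wp_gauge (c y : Fin (m + 1) → G) (s : Equiv.Perm (Fin m)) (hs : ∀ p, y (pim s p) = y p) :
    wp (fun j => lt (fun p => c p * y p) (s j)) =
      (y 0)⁻¹ * wp (fun j => lt c (s j)) * y (Fin.last m) := by
  have := wp_tel (fun p => y (nx s p)) fun j => lt c (s j)
  rw [nx_last, ← pim_zero, hs] at this
  rw [← this]
  refine congrArg wp (funext fun j => ?_)
  have e : y (nx s j.succ) = y (s j).succ := by
    rw [← hs (s j).succ, pim_succ, scc, Equiv.symm_apply_apply]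
  rw [e, nx_castSucc]
  simp [lt, mul_assoc]

variable [DecidableEq G] [DecidableEq L]

/-- product preserving rearrangements that respect the labels of the times -/
noncomputable def comp (h : Fin m → G) (v : Fin (m + 1) → L) : ℕ :=
  (univ.filter (fun s : Equiv.Perm (Fin m) =>
    (∀ p, v (pim s p) = v p) ∧ wp (fun j => h (s j)) = wp h)).card

theorem comp_pos (h : Fin m → G) (v : Fin (m + 1) → L) : 0 < comp h v := by
  refine card_pos.2 ⟨1, mem_filter.2 ⟨mem_univ _, fun p => ?_, rfl⟩⟩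
  rw [pim_one, Equiv.Perm.one_apply]

/-- with `y j = (c j)⁻¹ * c' j` and `y ∘ pim s = y`, induction on `p` gives
`partialProd (lt c' ∘ s) p = (y 0)⁻¹ * partialProd (lt c ∘ s) p * y (nx s p)` -/
theorem gauge (c c' : Fin (m + 1) → G) (v : Fin (m + 1) → L)
    (hv : ∀ i j, v i = v j → (c i)⁻¹ * c' i = (c j)⁻¹ * c' j) :
    comp (lt c') v ≤ rearr (lt c) := by
  obtain ⟨y, rfl⟩ : ∃ y : Fin (m + 1) → G, c' = fun p => c p * y p :=
    ⟨fun p => (c p)⁻¹ * c' p, by simp⟩
  refine card_le_card fun s hs => mem_filter.2 ⟨mem_univ _, ?_⟩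
  obtain ⟨h1, h2⟩ := (mem_filter.1 hs).2
  have e := wp_gauge c y 1 (by simp [pim_one])
  rw [wp_gauge c y s fun p => by simpa using hv _ _ (h1 p)] at h2
  exact mul_left_cancel (mul_right_cancel (h2.trans e))

variable [Fintype L]

theorem fib_sum {α β : Type} [Fintype α] [DecidableEq β] (k : α → β) (F : β → ℝ)
    (hF : ∀ b, 0 ≤ F b) (c : α → ℕ) (hc : ∀ a, (univ.filter fun a' => k a' = k a).card ≤ c a) :
    ∑ a, F (k a) / c a ≤ ∑ b ∈ univ.image k, F b := by
  have h0 : ∀ a, 0 < (univ.filter fun a' => k a' = k a).card := fun a =>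
    card_pos.2 ⟨a, mem_filter.2 ⟨mem_univ _, rfl⟩⟩
  refine (sum_le_sum fun a _ => div_le_div_of_nonneg_left (hF (k a))
    (Nat.cast_pos.2 (h0 a)) (Nat.cast_le.2 (hc a))).trans (le_of_eq ?_)
  rw [sum_comp (fun b => F b / ((univ.filter fun a' => k a' = b).card : ℝ)) k]
  refine sum_congr rfl fun b hb => ?_
  obtain ⟨a, -, rfl⟩ := mem_image.1 hb
  rw [nsmul_eq_mul, mul_div_cancel₀ _ (Nat.cast_pos.2 (h0 a)).ne']

/-- the product and the labels of the times before and after each letter -/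
def fkey (h : Fin m → G) (z : Equiv.Perm (Fin m) × (Fin (m + 1) → L)) :
    G × (Fin (m + 1) → L) × (Fin (m + 1) → L) :=
  (wp fun j => h (z.1 j), fun p => z.2 (nx z.1⁻¹ p), Fin.cons (z.2 0) fun a => z.2 (z.1⁻¹ a).succ)

theorem fkey_card (h : Fin m → G) (z : Equiv.Perm (Fin m) × (Fin (m + 1) → L)) :
    (univ.filter fun y => fkey h y = fkey h z).card ≤ comp (fun j => h (z.1 j)) z.2 := by
  have e : ∀ y, fkey h y = fkey h z → ∀ p, y.2 p = z.2 (nx (z.1⁻¹ * y.1) p) := fun y hy p => by
    have := congrFun (congrArg (fun w => w.2.1) hy) (nx y.1 p)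
    simp only [fkey, ← nx_mul, inv_mul_cancel, nx_one] at this
    exact this
  refine card_le_card_of_injOn (fun y => z.1⁻¹ * y.1) (fun y hy => ?_) fun y hy y' hy' k => ?_
  · have hy := (mem_filter.1 hy).2
    have h2 := congrFun (congrArg (fun w => w.2.2) hy)
    refine mem_coe.2 (mem_filter.2 ⟨mem_univ _, fun p => ?_, ?_⟩)
    · induction p using Fin.cases with
      | zero => exact (e y hy 0).symm.trans (h2 0)
      | succ a =>
        refine (e y hy _).symm.trans ((h2 (z.1 a).succ).trans ?_)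
        simp [fkey]
    · simpa [fkey] using congrArg Prod.fst hy
  · refine Prod.ext (mul_left_cancel k) (funext fun p => ?_)
    rw [e y (mem_filter.1 hy).2, e y' (mem_filter.1 hy').2]
    exact congrArg (fun s => z.2 (nx s p)) k

/-- the key of `(t, v)` is the product, the labels `(v (t⁻¹ a).castSucc, v (t⁻¹ a).succ)` of each
letter `a`, `v 0` and `v last`; the weight is a function of the key, and the fibre of the key
injects into the set counted by `comp` through `(t', v') ↦ t⁻¹ * t'` -/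
theorem fibre (h : Fin m → G) (q : L → ℝ) (hq0 : ∀ a, 0 ≤ q a) (hq : ∑ a, q a ≤ 1) :
    ∑ t : Equiv.Perm (Fin m), ∑ v : Fin (m + 1) → L,
        (rearr (fun j => h (t j)) : ℝ) ^ 2 * (∏ j, q (v j) ^ 2) / comp (fun j => h (t j)) v ≤
      ∑ t : Equiv.Perm (Fin m), (rearr (fun j => h (t j)) : ℝ) := by
  let x : Equiv.Perm (Fin m) → G := fun t => wp fun j => h (t j)
  let N : G → ℝ := fun g => ((univ.filter fun s => x s = g).card : ℝ)
  let w : (Fin (m + 1) → L) → ℝ := fun v => ∏ j, q (v j)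
  have w0 : ∀ v, 0 ≤ w v := fun v => prod_nonneg fun _ _ => hq0 _
  have w1 : ∑ v, w v ≤ 1 := by
    rw [← Fintype.prod_sum fun (_ : Fin (m + 1)) a => q a]
    exact prod_le_one (fun _ _ => sum_nonneg fun _ _ => hq0 _) fun _ _ => hq
  have e1 : ∀ t : Equiv.Perm (Fin m), (rearr (fun j => h (t j)) : ℝ) = N (x t) := fun t => by
    rw [rearr_comp]
  have e2 : ∀ (t : Equiv.Perm (Fin m)) (v : Fin (m + 1) → L), ∏ j, q (v j) ^ 2 =
      w (fkey h (t, v)).2.1 * w (fkey h (t, v)).2.2 := fun t v => by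
    rw [prod_pow, sq]
    congr 1
    · simp only [w, fkey, Fin.prod_univ_castSucc, nx_castSucc, nx_last]
      rw [Equiv.prod_comp t⁻¹ fun j => q (v j.castSucc)]
    · simp only [w, fkey, Fin.prod_univ_succ, Fin.cons_zero, Fin.cons_succ]
      rw [Equiv.prod_comp t⁻¹ fun j => q (v j.succ)]
  have k := fib_sum (fkey h) (fun b => N b.1 ^ 2 * (w b.2.1 * w b.2.2))
    (fun b => mul_nonneg (sq_nonneg _) (mul_nonneg (w0 _) (w0 _))) _ (fkey_card (L := L) h)
  rw [Fintype.sum_prod_type] at k
  simp only [e1]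
  refine (le_of_eq (sum_congr rfl fun t _ => sum_congr rfl fun v _ => by
    rw [e2 t v]; rfl)).trans (k.trans ?_)
  refine (sum_le_sum_of_subset_of_nonneg (t := univ.image x ×ˢ univ) (fun b hb => ?_)
    fun b _ _ => mul_nonneg (sq_nonneg _) (mul_nonneg (w0 _) (w0 _))).trans ?_
  · obtain ⟨z, -, rfl⟩ := mem_image.1 hb
    exact mem_product.2 ⟨mem_image.2 ⟨z.1, mem_univ _, rfl⟩, mem_univ _⟩
  rw [sum_product, sum_comp N x]
  refine sum_le_sum fun g _ => ?_
  simp only [← mul_sum]
  rw [Fintype.sum_prod_type, ← sum_mul_sum, nsmul_eq_mul, sq]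
  exact mul_le_of_le_one_right (mul_self_nonneg _)
    (mul_le_one₀ w1 (sum_nonneg fun v _ => w0 v) w1)

/-- symmetrise over `t` -/
theorem fibre_av [Fintype G] (q : L → ℝ) (hq0 : ∀ a, 0 ≤ q a) (hq : ∑ a, q a ≤ 1) :
    av (fun h : Fin m → G => ∑ v : Fin (m + 1) → L,
        (rearr h : ℝ) ^ 2 * (∏ j, q (v j) ^ 2) / comp h v) ≤
      av (fun h : Fin m → G => (rearr h : ℝ)) := by
  have key : ∀ f : (Fin m → G) → ℝ, av (fun h : Fin m → G => ∑ t : Equiv.Perm (Fin m),
      f fun j => h (t j)) = m.factorial * av f := fun f => by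
    rw [av_sum, sum_congr rfl fun t _ => av_equiv (Equiv.arrowCongr t.symm (Equiv.refl G)) f,
      sum_const, card_univ, Fintype.card_perm, Fintype.card_fin, nsmul_eq_mul]
  refine le_of_mul_le_mul_left ?_ (Nat.cast_pos.2 m.factorial_pos)
  rw [← key, ← key]
  exact av_mono fun h => fibre h q hq0 hq

end Pool.Agent.Lib.MP_d87a8f_pr.Q
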