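import Mathlib
import Pool.Agent.Lib.MP_d87a8f_pr.U.Av

/-!
One step of the coupling: a law on the group against the uniform law, through a fixed codebook.
-/

namespace Pool.Agent.Lib.MP_d87a8f_pr.Q

open Finset Pool.Agent.Lib.MP_d87a8f_pr.U

variable {G : Type} [Group G] [Fintype G]

/-- density with respect to the uniform law -/
noncomputable def dens (ν : G → ℝ) (z : G) : ℝ := Fintype.card G * ν z

/-- number of labels allowed for `z` -/
noncomputable def MM (A : ℕ) (ν : G → ℝ) (z : G) : ℕ := ⌈(A : ℝ) * dens ν z⌉₊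

open Classical in
/-- weight of the label `k` at `z` -/
noncomputable def wt (A F : ℕ) (ν : G → ℝ) (z : G) (k : Fin (A * F)) : ℝ :=
  if dens ν z ≤ F ∧ k.val < MM A ν z then dens ν z / MM A ν z else 0

/-- density of the law of `z * (Y k)⁻¹` -/
noncomputable def phi (A F : ℕ) (ν : G → ℝ) (Y : Fin (A * F) → G) (c : G) : ℝ :=
  ∑ k, wt A F ν (c * Y k) k

open Classical in
/-- probability of the label `k` given `z` -/
noncomputable def pk (A F : ℕ) (ν : G → ℝ) (Y : Fin (A * F) → G) (z : G) (k : Fin (A * F)) : ℝ :=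
  if dens ν z ≤ F ∧ k.val < MM A ν z then
    1 / (MM A ν z : ℝ) / max 1 (phi A F ν Y (z * (Y k)⁻¹)) else 0

/-- the law of the label given `z`; `none` is the failure -/
noncomputable def pl (A F : ℕ) (ν : G → ℝ) (Y : Fin (A * F) → G) (z : G) :
    Option (Fin (A * F)) → ℝ
  | some k => pk A F ν Y z k
  | none => 1 - ∑ k, pk A F ν Y z k

/-- harmonic sum -/
noncomputable def hs (B : ℕ) : ℝ := ∑ k : Fin B, 1 / ((k.val : ℝ) + 1)

/-- weights of the labels -/
noncomputable def qw (B r : ℕ) : Option (Fin B) → ℝ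
  | some k => 1 / (2 * hs B * ((k.val : ℝ) + 1))
  | none => 1 / (r : ℝ)

/-- the loss in one step -/
noncomputable def ee (A r : ℕ) : ℝ :=
  Real.log A + 1 + 2 * Real.log (2 * hs (A * r ^ 2)) + 2 * Real.log r * Real.sqrt (2 / A)

theorem pl_nonneg (A F : ℕ) (ν : G → ℝ) (Y : Fin (A * F) → G) (z : G)
    (κ : Option (Fin (A * F))) : 0 ≤ pl A F ν Y z κ := by
  rcases κ with _ | k
  · refine sub_nonneg.2 ((sum_le_sum (g := fun k : Fin (A * F) =>
      if k.val < MM A ν z then 1 / (MM A ν z : ℝ) else 0) fun k _ => ?_).trans ?_)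
    · unfold pk
      split_ifs with h h' h'
      · exact div_le_self (by positivity) (le_max_left _ _)
      · exact absurd h.2 h'
      · positivity
      · exact le_rfl
    · rw [← sum_filter, sum_const, Fin.card_filter_val_lt, nsmul_eq_mul, mul_one_div]
      exact div_le_one_of_le₀ (Nat.cast_le.2 (min_le_right _ _)) (Nat.cast_nonneg _)
  · show 0 ≤ pk A F ν Y z k
    unfold pk
    split_ifs
    · positivity
    · exact le_rfl

theorem pl_sum (A F : ℕ) (ν : G → ℝ) (Y : Fin (A * F) → G) (z : G) :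
    ∑ κ, pl A F ν Y z κ = 1 := by
  rw [Fintype.sum_option]
  exact sub_add_cancel _ _

theorem st_reindex (A F : ℕ) (ν : G → ℝ) (Y : Fin (A * F) → G) (Φ : G → Fin (A * F) → ℝ) :
    ∑ z, ν z * ∑ k, pk A F ν Y z k * Φ z k = av (fun c : G =>
      ∑ k, wt A F ν (c * Y k) k / max 1 (phi A F ν Y c) * Φ (c * Y k) k) := by
  have n0 : (Fintype.card G : ℝ) ≠ 0 := Nat.cast_ne_zero.mpr Fintype.card_ne_zero
  simp only [mul_sum]
  rw [av_sum, sum_comm]
  refine sum_congr rfl fun k _ => ?_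
  rw [av, sum_div, ← Equiv.sum_comp (Equiv.mulRight (Y k))]
  refine sum_congr rfl fun c _ => ?_
  simp only [Equiv.coe_mulRight, pk, wt, mul_inv_cancel_right]
  split_ifs
  · rw [eq_div_iff n0, dens]
    ring
  · simp

/-- the total mass of the failure; reindex `z = c * Y k` -/
theorem mass_none_eq (A F : ℕ) (ν : G → ℝ) (h1 : ∑ z, ν z = 1) (Y : Fin (A * F) → G) :
    ∑ z, ν z * pl A F ν Y z none =
      av (fun c : G => 1 - phi A F ν Y c / max 1 (phi A F ν Y c)) := by
  have e := st_reindex A F ν Y fun _ _ => 1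
  simp only [mul_one, ← sum_div] at e
  simp only [pl, mul_sub, mul_one, sum_sub_distrib]
  rw [h1, e, av_sub, av_const]
  rfl

/-- reindex `z = c * Y k` on the normal labels; bound the failure part at a minimiser of `Ψ` -/
theorem step_couple (A F : ℕ) (ν : G → ℝ) (h0 : ∀ z, 0 ≤ ν z) (h1 : ∑ z, ν z = 1)
    (Y : Fin (A * F) → G) (Φ : G → Option (Fin (A * F)) → ℝ) (Ψ : G → ℝ)
    (hs : ∀ c k, Φ (c * Y k) (some k) ≤ Ψ c) (hn : ∀ c z, Φ z none ≤ Ψ c) :
    ∑ z, ν z * ∑ κ, pl A F ν Y z κ * Φ z κ ≤ av Ψ := by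
  obtain ⟨c₀, -, hc⟩ := exists_min_image univ Ψ univ_nonempty
  have m0 : ∀ c, 0 < max 1 (phi A F ν Y c) := fun c => one_pos.trans_le (le_max_left _ _)
  have e1 : ∑ z, ν z * (pl A F ν Y z none * Φ z none) ≤
      av (fun c : G => (1 - phi A F ν Y c / max 1 (phi A F ν Y c)) * Ψ c) := by
    refine (sum_le_sum (g := fun z => Ψ c₀ * (ν z * pl A F ν Y z none)) fun z _ => ?_).trans ?_
    · rw [← mul_assoc, mul_comm]
      exact mul_le_mul_of_nonneg_right (hn c₀ z) (mul_nonneg (h0 z) (pl_nonneg A F ν Y z none))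
    · rw [← mul_sum, mass_none_eq A F ν h1, ← av_mul_left]
      refine av_mono fun c => ?_
      rw [mul_comm]
      exact mul_le_mul_of_nonneg_left (hc c (mem_univ c))
        (sub_nonneg.2 ((div_le_one (m0 c)).2 (le_max_right _ _)))
  have e2 : ∑ z, ν z * ∑ k, pk A F ν Y z k * Φ z (some k) ≤
      av (fun c : G => phi A F ν Y c / max 1 (phi A F ν Y c) * Ψ c) := by
    rw [st_reindex]
    refine av_mono fun c => ?_
    refine (sum_le_sum fun k _ =>
      mul_le_mul_of_nonneg_left (hs c k) (div_nonneg ?_ (m0 c).le)).trans_eq ?_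
    · unfold wt
      split_ifs
      · exact div_nonneg (mul_nonneg (Nat.cast_nonneg _) (h0 _)) (Nat.cast_nonneg _)
      · exact le_rfl
    · rw [← sum_mul, ← sum_div]
      rfl
  simp only [Fintype.sum_option, mul_add, sum_add_distrib]
  refine (add_le_add e1 e2).trans_eq ?_
  rw [← av_add]
  exact congrArg av (funext fun c => by ring)

theorem st_eval {ι α : Type} [Fintype ι] [DecidableEq ι] [Fintype α] [Nonempty α] (g : α → ℝ)
    (k : ι) : av (fun Y : ι → α => g (Y k)) = av g := by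
  rw [← av_update _ k]
  simp only [Function.update_self]
  exact av_const _

omit [Group G] in
theorem st_wt (A F : ℕ) (hA : 1 ≤ A) (ν : G → ℝ) (h0 : ∀ z, 0 ≤ ν z) (z : G) (k : Fin (A * F)) :
    0 ≤ wt A F ν z k ∧ wt A F ν z k ≤ 1 / A := by
  have a0 : (0 : ℝ) < A := by exact_mod_cast hA
  unfold wt
  split_ifs with h
  · have m0 : (0 : ℝ) < MM A ν z := by exact_mod_cast Nat.zero_lt_of_lt h.2
    refine ⟨div_nonneg (mul_nonneg (Nat.cast_nonneg _) (h0 z)) m0.le, ?_⟩
    rw [div_le_div_iff₀ m0 a0, one_mul, mul_comm]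
    exact Nat.le_ceil _
  · exact ⟨le_rfl, by positivity⟩

omit [Group G] in
open Classical in
theorem st_sum (A F : ℕ) (hA : 1 ≤ A) (ν : G → ℝ) (h0 : ∀ z, 0 ≤ ν z) (z : G) :
    ∑ k, wt A F ν z k = if dens ν z ≤ F then dens ν z else 0 := by
  have a0 : (0 : ℝ) < A := by exact_mod_cast hA
  unfold wt
  split_ifs with h
  · have hM : MM A ν z ≤ A * F := Nat.ceil_le.2 (by
      rw [Nat.cast_mul]
      exact mul_le_mul_of_nonneg_left h a0.le)
    simp only [h, true_and]
    rw [← sum_filter, sum_const, Fin.card_filter_val_lt, min_eq_right hM, nsmul_eq_mul]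
    rcases Nat.eq_zero_or_pos (MM A ν z) with e | e
    · have h1 : (A : ℝ) * dens ν z ≤ 0 := Nat.ceil_eq_zero.1 e
      have h2 : 0 ≤ dens ν z := mul_nonneg (Nat.cast_nonneg _) (h0 z)
      rw [e, Nat.cast_zero, zero_mul]
      nlinarith
    · exact mul_div_cancel₀ _ (by exact_mod_cast e.ne')
  · simp only [h, false_and, if_false, sum_const_zero]

open Classical in
/-- `⌈A f⌉ ≤ A F` when `f ≤ F` -/
theorem av_phi (A F : ℕ) (hA : 1 ≤ A) (ν : G → ℝ) (h0 : ∀ z, 0 ≤ ν z) (c : G) :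
    av (fun Y : Fin (A * F) → G => phi A F ν Y c) =
      ∑ z ∈ univ.filter (fun z => dens ν z ≤ F), ν z := by
  have n0 : (Fintype.card G : ℝ) ≠ 0 := Nat.cast_ne_zero.mpr Fintype.card_ne_zero
  have e : ∀ k, av (fun Y : Fin (A * F) → G => wt A F ν (c * Y k) k) =
      av (fun z => wt A F ν z k) := fun k =>
    (st_eval (fun z => wt A F ν (c * z) k) k).trans
      (av_equiv (Equiv.mulLeft c) fun z => wt A F ν z k)
  unfold phi
  rw [av_sum, sum_congr rfl fun k _ => e k, ← av_sum]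
  simp only [st_sum A F hA ν h0]
  rw [av, ← sum_filter, div_eq_iff n0, sum_mul]
  exact sum_congr rfl fun z _ => mul_comm _ _

/-- `efron_stein`, each weight lies in `[0, 1 / A]` and the means add up to at most `1` -/
theorem var_phi (A F : ℕ) (hA : 1 ≤ A) (ν : G → ℝ) (h0 : ∀ z, 0 ≤ ν z) (h1 : ∑ z, ν z = 1)
    (c : G) : var (fun Y : Fin (A * F) → G => phi A F ν Y c) ≤ 2 / A := by
  classical
  have a0 : (0 : ℝ) < A := by exact_mod_cast hA
  have e : ∀ (Y : Fin (A * F) → G) (i : Fin (A * F)) (a : G),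
      (phi A F ν Y c - phi A F ν (Function.update Y i a) c) ^ 2 ≤
        1 / A * (wt A F ν (c * Y i) i + wt A F ν (c * Function.update Y i a i) i) := by
    intro Y i a
    have e1 : phi A F ν Y c - phi A F ν (Function.update Y i a) c =
        wt A F ν (c * Y i) i - wt A F ν (c * Function.update Y i a i) i := by
      unfold phi
      rw [← sum_sub_distrib]
      refine sum_eq_single i (fun k _ hk => ?_) fun h => absurd (mem_univ i) h
      rw [Function.update_of_ne hk, sub_self]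
    obtain ⟨p1, p2⟩ := st_wt A F hA ν h0 (c * Y i) i
    obtain ⟨q1, q2⟩ := st_wt A F hA ν h0 (c * Function.update Y i a i) i
    rw [e1]
    nlinarith [mul_le_mul_of_nonneg_left p2 p1, mul_le_mul_of_nonneg_left q2 q1, mul_nonneg p1 q1]
  have e2 : av (fun Y : Fin (A * F) → G => phi A F ν Y c) ≤ 1 := by
    rw [av_phi A F hA ν h0 c, ← h1]
    exact sum_le_sum_of_subset_of_nonneg (filter_subset _ _) fun z _ _ => h0 z
  refine (U.efron_stein _).trans ((sum_le_sum (g := fun i => 2 / (A : ℝ) *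
    av (fun Y : Fin (A * F) → G => wt A F ν (c * Y i) i)) fun i _ => ?_).trans ?_)
  · refine (av_mono fun Y => av_mono fun a => e Y i a).trans_eq ?_
    simp only [av_mul_left, av_add, av_const]
    rw [av_update (fun Y : Fin (A * F) → G => wt A F ν (c * Y i) i) i]
    ring
  · rw [← mul_sum, ← av_sum]
    exact mul_le_of_le_one_right (by positivity) e2

open Classical in
/-- `1 - φ / max 1 φ ≤ (1 - mean) + |φ - mean|` and `av_sqrt_le` -/
theorem mass_none (A F : ℕ) (hA : 1 ≤ A) (ν : G → ℝ) (h0 : ∀ z, 0 ≤ ν z) (h1 : ∑ z, ν z = 1) :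
    av (fun Y : Fin (A * F) → G => ∑ z, ν z * pl A F ν Y z none) ≤
      ∑ z ∈ univ.filter (fun z => ¬ dens ν z ≤ F), ν z + Real.sqrt (2 / A) := by
  simp only [mass_none_eq A F ν h1]
  rw [av_comm]
  refine (av_mono fun c => ?_).trans_eq (av_const _)
  have e1 := av_phi A F hA ν h0 c
  have e2 := sum_filter_add_sum_filter_not univ (fun z => dens ν z ≤ F) ν
  have e3 : 0 ≤ ∑ z ∈ univ.filter (fun z => ¬ dens ν z ≤ F), ν z := sum_nonneg fun z _ => h0 z
  have e4 := (av_sqrt_le (f := fun Y : Fin (A * F) → G => (phi A F ν Y c -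
    av (fun Y : Fin (A * F) → G => phi A F ν Y c)) ^ 2) fun _ => sq_nonneg _).trans
    (Real.sqrt_le_sqrt (var_phi A F hA ν h0 h1 c))
  refine le_trans (av_mono (g := fun Y => ∑ z ∈ univ.filter (fun z => ¬ dens ν z ≤ F), ν z +
    Real.sqrt ((phi A F ν Y c - av (fun Y : Fin (A * F) → G => phi A F ν Y c)) ^ 2))
    fun Y => ?_) ?_
  · rw [Real.sqrt_sq_eq_abs]
    rcases le_total 1 (phi A F ν Y c) with h | h
    · rw [max_eq_right h, div_self (by linarith), sub_self]
      exact add_nonneg e3 (abs_nonneg _)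
    · rw [max_eq_left h, div_one, e1]
      linarith [neg_abs_le (phi A F ν Y c - ∑ z ∈ univ.filter (fun z => dens ν z ≤ F), ν z)]
  · rw [av_add, av_const]
    linarith

omit [Group G] in
/-- `log (1 + x) ≤ log x + 1 / x` -/
theorem sum_log_one_add (A : ℕ) (hA : 1 ≤ A) (ν : G → ℝ) (h0 : ∀ z, 0 ≤ ν z)
    (h1 : ∑ z, ν z = 1) :
    ∑ z, ν z * Real.log (1 + A * dens ν z) ≤ ∑ z, ν z * Real.log (dens ν z) + Real.log A + 1 := by
  have hA' : (1 : ℝ) ≤ A := by exact_mod_cast hA
  have : Nonempty G := by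
    by_contra h
    rw [not_nonempty_iff] at h
    simp at h1
  have hn : (0 : ℝ) < Fintype.card G := by exact_mod_cast Fintype.card_pos
  have key : ∀ z, ν z * Real.log (1 + A * dens ν z) ≤
      ν z * Real.log (dens ν z) + ν z * Real.log A + 1 / Fintype.card G := fun z => by
    rcases (h0 z).eq_or_lt with h | h
    · rw [← h]; simp
    have hf : 0 < dens ν z := mul_pos hn h
    have hx : 0 < A * dens ν z := by positivity
    have e1 := Real.log_le_sub_one_of_pos (div_pos (by linarith : 0 < 1 + A * dens ν z) hx)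
    rw [Real.log_div (by linarith) hx.ne', Real.log_mul (by linarith) hf.ne', add_div,
      div_self hx.ne'] at e1
    have e2 : ν z * (1 / (A * dens ν z)) ≤ 1 / Fintype.card G := by
      rw [mul_one_div, div_le_div_iff₀ hx hn]
      unfold dens
      nlinarith [mul_pos hn h]
    nlinarith [mul_le_mul_of_nonneg_left e1 h.le]
  refine (Finset.sum_le_sum fun z _ => key z).trans_eq ?_
  rw [Finset.sum_add_distrib, Finset.sum_add_distrib, ← Finset.sum_mul, h1, one_mul,
    Finset.sum_const, Finset.card_univ, nsmul_eq_mul, mul_one_div, div_self hn.ne']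

theorem one_le_hs {B : ℕ} (hB : 1 ≤ B) : 1 ≤ hs B := by
  simpa [hs] using Finset.single_le_sum (f := fun k : Fin B => 1 / ((k.val : ℝ) + 1))
    (fun k _ => by positivity) (Finset.mem_univ ⟨0, hB⟩)

theorem cost_some (A F r : ℕ) (hB : 1 ≤ A * F) (ν : G → ℝ) (h0 : ∀ z, 0 ≤ ν z)
    (Y : Fin (A * F) → G) (z : G) (k : Fin (A * F)) :
    pk A F ν Y z k * (Real.log (pk A F ν Y z k) - 2 * Real.log (qw (A * F) r (some k))) ≤
      pk A F ν Y z k * (Real.log (1 + A * dens ν z) + 2 * Real.log (2 * hs (A * F))) := by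
  unfold pk
  split_ifs with h
  swap
  · simp
  have hM : (k.val : ℝ) + 1 ≤ MM A ν z := by exact_mod_cast h.2
  have hk : (0 : ℝ) < k.val + 1 := by positivity
  have hM0 : (0 : ℝ) < MM A ν z := hk.trans_le hM
  have hm : 1 ≤ max 1 (phi A F ν Y (z * (Y k)⁻¹)) := le_max_left _ _
  have hh := one_le_hs hB
  have hf : 0 ≤ A * dens ν z := mul_nonneg (Nat.cast_nonneg _) (mul_nonneg (Nat.cast_nonneg _) (h0 z))
  refine mul_le_mul_of_nonneg_left ?_ (by positivity)
  have e1 := Real.log_nonneg hm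
  have e2 := Real.log_le_log hk hM
  have e3 : Real.log (MM A ν z) ≤ Real.log (1 + A * dens ν z) :=
    Real.log_le_log hM0 (by unfold MM; linarith [Nat.ceil_lt_add_one hf])
  rw [qw, Real.log_div (by positivity) (by positivity), one_div, one_div, Real.log_inv,
    Real.log_inv, Real.log_mul (by positivity) hk.ne']
  linarith

open Classical in
theorem cost_pt (A r : ℕ) (hA : 1 ≤ A) (hr : 1 ≤ r) (ν : G → ℝ) (h0 : ∀ z, 0 ≤ ν z)
    (Y : Fin (A * r ^ 2) → G) (z : G) :
    ∑ κ, pl A (r ^ 2) ν Y z κ *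
        (Real.log (pl A (r ^ 2) ν Y z κ) - 2 * Real.log (qw (A * r ^ 2) r κ)) ≤
      Real.log (1 + A * dens ν z) + 2 * Real.log (2 * hs (A * r ^ 2)) + 2 * Real.log r *
        (pl A (r ^ 2) ν Y z none - if ¬ dens ν z ≤ (r ^ 2 : ℕ) then 1 else 0) := by
  have hB : 1 ≤ A * r ^ 2 := Nat.mul_pos hA (Nat.pow_pos hr)
  have hA' : (1 : ℝ) ≤ A := by exact_mod_cast hA
  have hr' : (1 : ℝ) ≤ r := by exact_mod_cast hr
  have hf : 0 ≤ dens ν z := mul_nonneg (Nat.cast_nonneg _) (h0 z)
  have l1 : 0 ≤ Real.log (1 + A * dens ν z) := Real.log_nonneg (by nlinarith)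
  have l2 : 0 ≤ Real.log (2 * hs (A * r ^ 2)) := Real.log_nonneg (by linarith [one_le_hs hB])
  have p0 := pl_nonneg A (r ^ 2) ν Y z none
  have s0 : 0 ≤ ∑ k, pk A (r ^ 2) ν Y z k :=
    Finset.sum_nonneg fun k _ => pl_nonneg A (r ^ 2) ν Y z (some k)
  have e : pl A (r ^ 2) ν Y z none = 1 - ∑ k, pk A (r ^ 2) ν Y z k := rfl
  have l3 : Real.log (pl A (r ^ 2) ν Y z none) ≤ 0 := Real.log_nonpos p0 (by linarith)
  have c1 := Finset.sum_le_sum fun k (_ : k ∈ univ) => cost_some A (r ^ 2) r hB ν h0 Y z k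
  rw [← Finset.sum_mul] at c1
  have c2 : Real.log (qw (A * r ^ 2) r none) = -Real.log r := by rw [qw, one_div, Real.log_inv]
  rw [Fintype.sum_option, c2]
  refine (add_le_add le_rfl c1).trans ?_
  have c3 := mul_nonpos_of_nonneg_of_nonpos p0 l3
  split_ifs with h
  · nlinarith [mul_nonneg p0 (add_nonneg l1 (mul_nonneg zero_le_two l2))]
  · have z0 : ∑ k, pk A (r ^ 2) ν Y z k = 0 :=
      Finset.sum_eq_zero fun k _ => by unfold pk; rw [if_neg fun u => h u.1]
    have l4 : 2 * Real.log r ≤ Real.log (1 + A * dens ν z) := by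
      have := Real.log_le_log (by positivity : (0 : ℝ) < (r : ℝ) ^ 2)
        (show (r : ℝ) ^ 2 ≤ 1 + A * dens ν z by
          push_cast at h
          nlinarith [not_le.1 h])
      simpa using this
    rw [e, z0, sub_zero, Real.log_one]
    linarith

/-- a normal label costs at most `log (1 + A f) + 2 log (2 hs)`, the failure at most `2 log r`,
which is at most `log (1 + A f)` when `f > r ^ 2` -/
theorem step_cost (A r : ℕ) (hA : 1 ≤ A) (hr : 1 ≤ r) (ν : G → ℝ) (h0 : ∀ z, 0 ≤ ν z)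
    (h1 : ∑ z, ν z = 1) :
    av (fun Y : Fin (A * r ^ 2) → G => ∑ z, ν z * ∑ κ, pl A (r ^ 2) ν Y z κ *
        (Real.log (pl A (r ^ 2) ν Y z κ) - 2 * Real.log (qw (A * r ^ 2) r κ))) ≤
      ∑ z, ν z * Real.log (dens ν z) + ee A r := by
  classical
  have : Nonempty G := ⟨1⟩
  have l0 : 0 ≤ 2 * Real.log r := mul_nonneg zero_le_two (Real.log_natCast_nonneg r)
  have h2 := mul_le_mul_of_nonneg_left (mass_none A (r ^ 2) hA ν h0 h1) l0
  have h3 := sum_log_one_add A hA ν h0 h1
  have h4 : ∀ Y : Fin (A * r ^ 2) → G, ∑ z, ν z * ∑ κ, pl A (r ^ 2) ν Y z κ *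
        (Real.log (pl A (r ^ 2) ν Y z κ) - 2 * Real.log (qw (A * r ^ 2) r κ)) ≤
      (∑ z, ν z * Real.log (1 + A * dens ν z) + 2 * Real.log (2 * hs (A * r ^ 2)) -
        2 * Real.log r * ∑ z ∈ univ.filter (fun z => ¬ dens ν z ≤ (r ^ 2 : ℕ)), ν z) +
      2 * Real.log r * ∑ z, ν z * pl A (r ^ 2) ν Y z none := fun Y => by
    refine (Finset.sum_le_sum fun z _ =>
      mul_le_mul_of_nonneg_left (cost_pt A r hA hr ν h0 Y z) (h0 z)).trans_eq ?_
    generalize 2 * Real.log (2 * hs (A * r ^ 2)) = c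
    have e : c = ∑ z, ν z * c := by rw [← Finset.sum_mul, h1, one_mul]
    conv_rhs => rw [e]
    rw [Finset.sum_filter, Finset.mul_sum, Finset.mul_sum, ← Finset.sum_add_distrib,
      ← Finset.sum_sub_distrib, ← Finset.sum_add_distrib]
    refine Finset.sum_congr rfl fun z _ => ?_
    split_ifs <;> ring
  refine (av_mono h4).trans ?_
  rw [av_add, av_const, av_mul_left, ee]
  linarith

end Pool.Agent.Lib.MP_d87a8f_pr.Q
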