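import Mathlib
import Pool.Agent.Lib.MP_d87a8f_pr.Q.Step

/-!
The coupling of a law on paths with the uniform law, one coordinate after the other.
-/

namespace Pool.Agent.Lib.MP_d87a8f_pr.Q

open Finset Pool.Agent.Lib.MP_d87a8f_pr.U

variable {G : Type} [Group G] [Fintype G]

theorem seq_sum {α : Type} [Fintype α] {n : ℕ} (F : (Fin (n + 1) → α) → ℝ) :
    ∑ c, F c = ∑ z, ∑ c : Fin n → α, F (Fin.cons z c) := by
  rw [← (Fin.consEquiv fun _ => α).sum_comp, Fintype.sum_prod_type]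
  rfl

theorem seq_av {α : Type} [Fintype α] {n : ℕ} (F : (Fin (n + 1) → α) → ℝ) :
    av F = av fun z => av fun c : Fin n → α => F (Fin.cons z c) := by
  rw [← av_equiv (Fin.consEquiv fun _ => α), av_prod]
  rfl

theorem seq_log {a p x m s t : ℝ} (h : x ≠ 0 → m ≠ 0) :
    a * p * x * (Real.log (a * p * x / (a * m)) - 2 * (s + t)) =
      a * (p * (Real.log p - 2 * s) * x + p * (x * (Real.log (x / m) - 2 * t))) := by
  by_cases ha : a = 0
  · simp [ha]
  by_cases hp : p = 0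
  · simp [hp]
  by_cases hx : x = 0
  · simp [hx]
  have hm := h hx
  rw [show a * p * x / (a * m) = p * (x / m) by field_simp, Real.log_mul hp (div_ne_zero hx hm)]
  ring

theorem seq_chain {N a m : ℝ} (hN : N ≠ 0) (n : ℕ) :
    a * m * Real.log (N ^ (n + 1) * (a * m)) =
      a * Real.log (N * a) * m + a * (m * Real.log (N ^ n * m)) := by
  by_cases ha : a = 0
  · simp [ha]
  by_cases hm : m = 0
  · simp [hm]
  rw [show N ^ (n + 1) * (a * m) = N * a * (N ^ n * m) by ring,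
    Real.log_mul (mul_ne_zero hN ha) (mul_ne_zero (pow_ne_zero _ hN) hm)]
  ring

theorem seq_cond {α β : Type} [Fintype α] [Fintype β] [Nonempty β] (μ : α → β → ℝ)
    (h0 : ∀ z c, 0 ≤ μ z c) : ∃ m : α → β → ℝ, (∀ z c, 0 ≤ m z c) ∧ (∀ z, ∑ c, m z c = 1) ∧
      ∀ z c, μ z c = (∑ c, μ z c) * m z c := by
  have hN : (Fintype.card β : ℝ) ≠ 0 := Nat.cast_ne_zero.mpr Fintype.card_ne_zero
  refine ⟨fun z c => if ∑ c, μ z c = 0 then (Fintype.card β : ℝ)⁻¹ else μ z c / ∑ c, μ z c,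
    fun z c => ?_, fun z => ?_, fun z c => ?_⟩
  · dsimp only
    split_ifs
    · positivity
    · exact div_nonneg (h0 z c) (sum_nonneg fun c _ => h0 z c)
  · by_cases h : ∑ c, μ z c = 0
    · simp [h, hN]
    · simp only [if_neg h, ← sum_div, div_self h]
  · by_cases h : ∑ c, μ z c = 0
    · rw [h, zero_mul]
      exact (sum_eq_zero_iff_of_nonneg fun c _ => h0 z c).1 h c (mem_univ c)
    · simp only [if_neg h]
      field_simp

/-- induction on `n`: `ν` = law of the first coordinate, `μ z` = conditional law of the rest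
(uniform if `ν z = 0`), `P Y (cons z c) (cons κ₀ κ) = ν z * pl Y z κ₀ * P z Y c κ`;
use `step_couple` with `Ψ₀ c₀ = av (Ψ (cons c₀ ·))`, `step_cost`, `pl_sum` and the chain rule -/
theorem seq (A r : ℕ) (hA : 1 ≤ A) (hr : 1 ≤ r) (n : ℕ) (μ : (Fin n → G) → ℝ)
    (h0 : ∀ c, 0 ≤ μ c) (h1 : ∑ c, μ c = 1) :
    ∃ P : (Fin (A * r ^ 2) → G) → (Fin n → G) → (Fin n → Option (Fin (A * r ^ 2))) → ℝ,
      (∀ Y c κ, 0 ≤ P Y c κ) ∧ (∀ Y c, ∑ κ, P Y c κ = μ c) ∧
      (∀ (Y : Fin (A * r ^ 2) → G) (Φ : (Fin n → G) → (Fin n → Option (Fin (A * r ^ 2))) → ℝ)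
        (Ψ : (Fin n → G) → ℝ),
        (∀ c c' κ, (∀ j k, κ j = some k → c' j = c j * Y k) → Φ c' κ ≤ Ψ c) →
        ∑ c', ∑ κ, P Y c' κ * Φ c' κ ≤ av Ψ) ∧
      av (fun Y => ∑ c', ∑ κ, P Y c' κ *
          (Real.log (P Y c' κ / μ c') - 2 * ∑ j, Real.log (qw (A * r ^ 2) r (κ j)))) ≤
        ∑ c, μ c * Real.log ((Fintype.card G : ℝ) ^ n * μ c) + n * ee A r := by
  induction n with
  | zero =>
    have hμ : ∀ c, μ c = 1 := fun c => by
      rw [← h1, Fintype.sum_unique, Subsingleton.elim c default]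
    refine ⟨fun _ c _ => μ c, fun _ c _ => h0 c, fun _ c => by simp, fun Y Φ Ψ h => ?_, ?_⟩
    · simp only [av, hμ, Fintype.sum_unique, one_mul, Fintype.card_unique, Nat.cast_one, div_one]
      exact h _ _ _ fun j => j.elim0
    · simp [av, hμ]
  | succ n ih =>
    obtain ⟨m, m0, m1, hm⟩ := seq_cond (fun z (c : Fin n → G) => μ (Fin.cons z c))
      fun z c => h0 _
    obtain ⟨ν, hν⟩ : ∃ ν : G → ℝ, ∀ z, ν z = ∑ c : Fin n → G, μ (Fin.cons z c) := ⟨_, fun _ => rfl⟩
    simp only [← hν] at hm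
    have ν0 : ∀ z, 0 ≤ ν z := fun z => hν z ▸ sum_nonneg fun c _ => h0 _
    have ν1 : ∑ z, ν z = 1 := by rw [← h1, seq_sum]; exact sum_congr rfl fun z _ => hν z
    choose P P0 P1 P2 P3 using fun z => ih (m z) (m0 z) (m1 z)
    refine ⟨fun Y c κ => ν (c 0) * pl A (r ^ 2) ν Y (c 0) (κ 0) *
      P (c 0) Y (Fin.tail c) (Fin.tail κ), fun Y c κ =>
        mul_nonneg (mul_nonneg (ν0 _) (pl_nonneg _ _ _ _ _ _)) (P0 _ _ _ _), fun Y c => ?_,
      fun Y Φ Ψ h => ?_, ?_⟩
    · rw [seq_sum]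
      simp only [Fin.cons_zero, Fin.tail_cons, ← mul_sum, P1]
      rw [← sum_mul, ← mul_sum, pl_sum, mul_one, ← hm, Fin.cons_self_tail]
    · have key : ∀ c0 z κ0, (∀ k, κ0 = some k → z = c0 * Y k) →
          ∑ c', ∑ κ, P z Y c' κ * Φ (Fin.cons z c') (Fin.cons κ0 κ) ≤
            av fun c : Fin n → G => Ψ (Fin.cons c0 c) := fun c0 z κ0 hz =>
        P2 z Y (fun c' κ => Φ (Fin.cons z c') (Fin.cons κ0 κ)) _ fun c c' κ hc =>
          h _ _ _ fun j => Fin.cases hz hc j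
      rw [seq_av]
      refine le_of_eq_of_le ?_ (step_couple A (r ^ 2) ν ν0 ν1 Y
        (fun z κ0 => ∑ c', ∑ κ, P z Y c' κ * Φ (Fin.cons z c') (Fin.cons κ0 κ)) _
        (fun c k => key c _ _ fun k' hk => by rw [Option.some.inj hk])
        fun c z => key c z _ fun k hk => by simp at hk)
      rw [seq_sum]
      refine sum_congr rfl fun z _ => ?_
      simp only [seq_sum (α := Option (Fin (A * r ^ 2))), Fin.cons_zero, Fin.tail_cons, mul_sum,
        mul_assoc]
      exact sum_comm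
    · have hN : (Fintype.card G : ℝ) ≠ 0 := Nat.cast_ne_zero.mpr Fintype.card_ne_zero
      have hP : ∀ z Y c κ, P z Y c κ ≠ 0 → m z c ≠ 0 := fun z Y c κ hx hc =>
        hx ((sum_eq_zero_iff_of_nonneg fun κ _ => P0 z Y c κ).1 ((P1 z Y c).trans hc) κ
          (mem_univ κ))
      have e1 : ∀ Y : Fin (A * r ^ 2) → G,
          ∑ c' : Fin (n + 1) → G, ∑ κ : Fin (n + 1) → Option (Fin (A * r ^ 2)),
            ν (c' 0) * pl A (r ^ 2) ν Y (c' 0) (κ 0) * P (c' 0) Y (Fin.tail c') (Fin.tail κ) *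
            (Real.log (ν (c' 0) * pl A (r ^ 2) ν Y (c' 0) (κ 0) *
              P (c' 0) Y (Fin.tail c') (Fin.tail κ) / μ c') -
              2 * ∑ j, Real.log (qw (A * r ^ 2) r (κ j))) =
          ∑ z, ν z * ∑ κ, pl A (r ^ 2) ν Y z κ *
            (Real.log (pl A (r ^ 2) ν Y z κ) - 2 * Real.log (qw (A * r ^ 2) r κ)) +
          ∑ z, ν z * ∑ c', ∑ κ, P z Y c' κ *
            (Real.log (P z Y c' κ / m z c') - 2 * ∑ j, Real.log (qw (A * r ^ 2) r (κ j))) := by
        intro Y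
        rw [seq_sum, ← sum_add_distrib]
        refine sum_congr rfl fun z _ => ?_
        simp only [seq_sum (α := Option (Fin (A * r ^ 2))), Fin.cons_zero, Fin.tail_cons,
          Fin.sum_univ_succ, Fin.cons_succ, hm]
        have e : ∀ c κ0 κ s t, _ := fun c κ0 κ s t =>
          seq_log (a := ν z) (p := pl A (r ^ 2) ν Y z κ0) (s := s) (t := t) (hP z Y c κ)
        simp only [e, ← mul_sum, sum_add_distrib, P1, ← sum_mul, pl_sum, m1, mul_one, one_mul]
        ring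
      have e2 : ∑ c, μ c * Real.log ((Fintype.card G : ℝ) ^ (n + 1) * μ c) =
          ∑ z, ν z * Real.log (dens ν z) +
            ∑ z, ν z * ∑ c, m z c * Real.log ((Fintype.card G : ℝ) ^ n * m z c) := by
        rw [seq_sum, ← sum_add_distrib]
        refine sum_congr rfl fun z _ => ?_
        simp only [hm, seq_chain hN, sum_add_distrib, ← mul_sum, m1, mul_one, dens]
      have e3 := sum_le_sum fun z (_ : z ∈ univ) => mul_le_mul_of_nonneg_left (P3 z) (ν0 z)
      simp only [mul_add, sum_add_distrib, ← sum_mul, ν1, one_mul] at e3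
      simp only [e1, av_add, e2, av_sum, av_mul_left]
      have e4 := step_cost A r hA hr ν ν0 ν1
      simp only [av_sum, av_mul_left] at e3 e4
      push_cast
      linarith

end Pool.Agent.Lib.MP_d87a8f_pr.Q
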