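import Mathlib
import Pool.Agent.Lib.MP_d87a8f_pr.U.Fin
import Pool.Agent.Lib.MP_d87a8f_pr.Q.Kern
import Pool.Agent.Lib.MP_d87a8f_pr.Q.Gauge
import Pool.Agent.Lib.MP_d87a8f_pr.Q.Seq

/-!
The mean of the logarithm of the count against the logarithm of its mean.
-/

namespace Pool.Agent.Lib.MP_d87a8f_pr.Q

open Finset Pool.Agent.Lib.MP_d87a8f_pr.U

variable {G : Type} [Group G] [Fintype G] [DecidableEq G] {k m : ℕ}

/-- a failure at time `j` gets the private label `j` -/
def lb {B : ℕ} (κ : Fin (m + 1) → Option (Fin B)) : Fin (m + 1) → Fin B ⊕ Fin (m + 1) :=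
  fun j => match κ j with
    | some a => Sum.inl a
    | none => Sum.inr j

/-- the weights of these labels -/
noncomputable def qv (B m : ℕ) : Fin B ⊕ Fin (m + 1) → ℝ
  | Sum.inl a => qw B (2 * m + 2) (some a)
  | Sum.inr _ => qw B (2 * m + 2) none

theorem lb_inj {B : ℕ} : Function.Injective (lb (m := m) (B := B)) := by
  intro κ κ' h
  funext j
  have hj := congrFun h j
  unfold lb at hj
  rcases h1 : κ j with _ | a <;> rcases h2 : κ' j with _ | b <;> rw [h1, h2] at hj
  · exact absurd hj (by simp)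
  · exact absurd hj (by simp)
  · rw [Sum.inl.inj hj]

theorem qv_lb {B : ℕ} (κ : Fin (m + 1) → Option (Fin B)) (j : Fin (m + 1)) :
    qv B m (lb κ j) = qw B (2 * m + 2) (κ j) := by
  unfold lb
  rcases κ j with _ | a <;> rfl

theorem hs_pos_of {B : ℕ} (a : Fin B) : 0 < hs B :=
  Finset.sum_pos (fun _ _ => by positivity) ⟨a, Finset.mem_univ a⟩

theorem qv_pos {B : ℕ} (a : Fin B ⊕ Fin (m + 1)) : 0 < qv B m a := by
  rcases a with a | a
  · have := hs_pos_of a
    simp only [qv, qw]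
    positivity
  · simp only [qv, qw]
    positivity

theorem qv_sum (B : ℕ) : ∑ a, qv B m a ≤ 1 := by
  rw [Fintype.sum_sum_type]
  have h1 : ∑ a : Fin B, qv B m (Sum.inl a) ≤ 1 / 2 := by
    have e : ∀ a : Fin B, qv B m (Sum.inl a) = 1 / (2 * hs B) * (1 / ((a.val : ℝ) + 1)) := by
      intro a
      simp only [qv, qw]
      rw [one_div_mul_one_div]
    rw [Finset.sum_congr rfl (fun a _ => e a), ← Finset.mul_sum]
    change 1 / (2 * hs B) * hs B ≤ 1 / 2
    have h0 : 1 / (2 * hs B) * hs B = hs B / hs B / 2 := by ring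
    have := div_self_le_one (hs B)
    linarith
  have h2 : ∑ a : Fin (m + 1), qv B m (Sum.inr a) = 1 / 2 := by
    simp only [qv, qw, Finset.sum_const, Finset.card_univ, Fintype.card_fin, nsmul_eq_mul]
    push_cast
    field_simp
  linarith

/-- `log x ≥ 1 - 1 / x` -/
theorem aq_point {p μ N C q : ℝ} (hp : 0 ≤ p) (hμ : 0 < μ) (hN : 0 < N) (hC : 0 < C)
    (hq : 0 < q) :
    p * Real.log N - p * (Real.log (p / μ) - Real.log q) + p - μ * N * q / C ≤
      p * Real.log C := by
  rcases hp.eq_or_lt with rfl | hp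
  · have : 0 ≤ μ * N * q / C := by positivity
    simp only [zero_mul]
    linarith
  have h1 := Real.log_le_sub_one_of_pos (show 0 < N * q / (C * (p / μ)) by positivity)
  rw [Real.log_div (by positivity) (by positivity), Real.log_mul hN.ne' hq.ne',
    Real.log_mul hC.ne' (by positivity)] at h1
  have h2 := mul_le_mul_of_nonneg_left h1 hp.le
  have h3 : p * (N * q / (C * (p / μ)) - 1) = μ * N * q / C - p := by field_simp
  rw [h3] at h2
  linarith

omit [Fintype G] in
theorem aq_gauge {B : ℕ} (Y : Fin B → G) (c c' : Fin (m + 1) → G)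
    (κ : Fin (m + 1) → Option (Fin B)) (h : ∀ j a, κ j = some a → c' j = c j * Y a) :
    Real.log (comp (lt c') (lb κ)) ≤ lq (lt c) := by
  refine Real.log_le_log (by exact_mod_cast comp_pos _ _) ?_
  refine Nat.cast_le.mpr (gauge c c' (lb κ) fun i j hij => ?_)
  unfold lb at hij
  rcases h1 : κ i with _ | a <;> rcases h2 : κ j with _ | b <;> rw [h1, h2] at hij
  · rw [Sum.inr.inj hij]
  · exact absurd hij (by simp)
  · exact absurd hij (by simp)
  · rw [h i a h1, h j b h2, Sum.inl.inj hij, inv_mul_cancel_left, inv_mul_cancel_left]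

theorem aq_fibre (B : ℕ) :
    ∑ c : Fin (m + 1) → G, ∑ κ : Fin (m + 1) → Option (Fin B),
        (rearr (lt c) : ℝ) ^ 2 * (∏ j, qv B m (lb κ j) ^ 2) / comp (lt c) (lb κ) ≤
      ∑ c : Fin (m + 1) → G, (rearr (lt c) : ℝ) := by
  have hV : (0 : ℝ) < Fintype.card (Fin (m + 1) → G) := by exact_mod_cast Fintype.card_pos
  have h1 := fibre_av (G := G) (m := m) (qv B m) (fun a => (qv_pos a).le) (qv_sum B)
  rw [← av_lt, ← av_lt (fun h : Fin m → G => (rearr h : ℝ))] at h1
  refine le_trans (Finset.sum_le_sum fun c _ => ?_) ((div_le_div_iff_of_pos_right hV).mp h1)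
  rw [← Finset.sum_image (s := (univ : Finset (Fin (m + 1) → Option (Fin B)))) (g := lb)
    (f := fun v => (rearr (lt c) : ℝ) ^ 2 * (∏ j, qv B m (v j) ^ 2) / comp (lt c) v)
    (fun x _ y _ hxy => lb_inj hxy)]
  exact Finset.sum_le_sum_of_subset_of_nonneg (Finset.subset_univ _) fun v _ _ => by positivity

/-- `seq` for `μ c = rearr (lt c) / ∑`, `Ψ c = lq (lt c)`, `Φ c' κ = log (comp (lt c') (lb κ))`
(`gauge`); where `P > 0` use `log x ≥ 1 - 1 / x` for `x = comp * (P / μ) / (rearr * ∏ q ^ 2)`,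
then `fibre_av` -/
theorem aq_core (A : ℕ) (hA : 1 ≤ A) :
    Real.log (av (fun g : Fin m → G => (rearr g : ℝ))) - (m + 1) * ee A (2 * m + 2) ≤
      av (fun g : Fin m → G => lq g) := by
  have hV : (0 : ℝ) < Fintype.card (Fin (m + 1) → G) := by exact_mod_cast Fintype.card_pos
  have hN : ∀ c : Fin (m + 1) → G, (0 : ℝ) < rearr (lt c) := fun c => by
    exact_mod_cast rearr_pos _
  obtain ⟨S, hS⟩ : ∃ S : ℝ, S = ∑ c : Fin (m + 1) → G, (rearr (lt c) : ℝ) := ⟨_, rfl⟩
  have hS0 : 0 < S := hS ▸ Finset.sum_pos (fun c _ => hN c) Finset.univ_nonempty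
  have hμ1 : ∑ c : Fin (m + 1) → G, (rearr (lt c) : ℝ) / S = 1 := by
    rw [← Finset.sum_div, ← hS, div_self hS0.ne']
  obtain ⟨P, hP0, hP1, hP2, hP3⟩ := seq A (2 * m + 2) hA (by omega) (m + 1)
    (fun c : Fin (m + 1) → G => (rearr (lt c) : ℝ) / S) (fun c => (div_pos (hN c) hS0).le) hμ1
  have key : ∀ Y : Fin (A * (2 * m + 2) ^ 2) → G,
      ∑ c : Fin (m + 1) → G, (rearr (lt c) : ℝ) / S * Real.log (rearr (lt c)) -
        av (fun g : Fin m → G => lq g) ≤
      ∑ c', ∑ κ, P Y c' κ * (Real.log (P Y c' κ / ((rearr (lt c') : ℝ) / S)) -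
        2 * ∑ j, Real.log (qw (A * (2 * m + 2) ^ 2) (2 * m + 2) (κ j))) := by
    intro Y
    have h1 := hP2 Y (fun c' κ => Real.log (comp (lt c') (lb κ))) (fun c => lq (lt c))
      (fun c c' κ h => aq_gauge Y c c' κ h)
    rw [av_lt (fun g : Fin m → G => lq g)] at h1
    have h2 : ∀ (c' : Fin (m + 1) → G) (κ : Fin (m + 1) → Option (Fin (A * (2 * m + 2) ^ 2))),
        P Y c' κ * Real.log (rearr (lt c')) -
          P Y c' κ * (Real.log (P Y c' κ / ((rearr (lt c') : ℝ) / S)) -
            2 * ∑ j, Real.log (qw (A * (2 * m + 2) ^ 2) (2 * m + 2) (κ j))) + P Y c' κ -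
          S⁻¹ * ((rearr (lt c') : ℝ) ^ 2 * (∏ j, qv _ m (lb κ j) ^ 2) / comp (lt c') (lb κ)) ≤
        P Y c' κ * Real.log (comp (lt c') (lb κ)) := by
      intro c' κ
      have h3 := aq_point (q := ∏ j, qv _ m (lb κ j) ^ 2) (hP0 Y c' κ) (div_pos (hN c') hS0)
        (hN c') (C := comp (lt c') (lb κ)) (by exact_mod_cast comp_pos _ _)
        (Finset.prod_pos fun j _ => pow_pos (qv_pos _) 2)
      have h4 : Real.log (∏ j, qv (A * (2 * m + 2) ^ 2) m (lb κ j) ^ 2) =
          2 * ∑ j, Real.log (qw (A * (2 * m + 2) ^ 2) (2 * m + 2) (κ j)) := by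
        rw [Real.log_prod fun j _ => (pow_pos (qv_pos _) 2).ne', Finset.mul_sum]
        refine Finset.sum_congr rfl fun j _ => ?_
        rw [Real.log_pow, qv_lb]
        norm_num
      rw [h4] at h3
      refine le_trans (le_of_eq ?_) h3
      ring
    have h5 := Finset.sum_le_sum (s := (univ : Finset (Fin (m + 1) → G))) fun c' _ =>
      Finset.sum_le_sum (s := univ) fun κ _ => h2 c' κ
    simp only [Finset.sum_sub_distrib, Finset.sum_add_distrib, ← Finset.sum_mul, ← Finset.mul_sum,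
      hP1] at h5
    have h6 := mul_le_mul_of_nonneg_left
      (aq_fibre (G := G) (m := m) (A * (2 * m + 2) ^ 2)) (inv_pos.mpr hS0).le
    rw [← hS, inv_mul_cancel₀ hS0.ne'] at h6
    rw [hμ1] at h5
    linarith
  have h7 := av_mono key
  rw [av_const] at h7
  have h8 : ∑ c : Fin (m + 1) → G, (rearr (lt c) : ℝ) / S *
      Real.log ((Fintype.card G : ℝ) ^ (m + 1) * ((rearr (lt c) : ℝ) / S)) =
      ∑ c : Fin (m + 1) → G, (rearr (lt c) : ℝ) / S * Real.log (rearr (lt c)) -
        Real.log (S / Fintype.card (Fin (m + 1) → G)) := by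
    have e : ((Fintype.card G : ℝ)) ^ (m + 1) = Fintype.card (Fin (m + 1) → G) := by
      rw [Fintype.card_fun, Fintype.card_fin, Nat.cast_pow]
    rw [e, ← one_mul (Real.log (S / _)), ← hμ1, Finset.sum_mul, ← Finset.sum_sub_distrib]
    refine Finset.sum_congr rfl fun c _ => ?_
    rw [← mul_sub, ← Real.log_div (hN c).ne' (div_pos hS0 hV).ne']
    refine congrArg _ (congrArg _ ?_)
    field_simp
  have h9 : av (fun g : Fin m → G => (rearr g : ℝ)) = S / Fintype.card (Fin (m + 1) → G) := by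
    rw [← av_lt, hS]
    rfl
  rw [h8] at hP3
  rw [h9]
  push_cast at hP3
  linarith

theorem aq_hs_le (B : ℕ) : hs B ≤ 1 + Real.log B := by
  refine le_trans (le_of_eq ?_) (harmonic_le_one_add_log B)
  rw [hs, harmonic, Fin.sum_univ_eq_sum_range (fun k => 1 / ((k : ℝ) + 1)) B]
  push_cast
  simp only [one_div]

theorem aq_hs_pos {B : ℕ} (hB : 0 < B) : 0 < hs B :=
  haveI : Nonempty (Fin B) := ⟨⟨0, hB⟩⟩
  sum_pos (fun _ _ => by positivity) univ_nonempty

/-- `A = ⌈2 Λ ^ 2⌉` with `Λ = 2 log (2 m + 2)`, `hs B ≤ 1 + log B` -/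
theorem ee_le (hm : 1 ≤ m) :
    ∃ A : ℕ, 1 ≤ A ∧ ee A (2 * m + 2) ≤ 4 * Real.log (Real.log (2 * m + 2)) + 12 := by
  have hm' : (1 : ℝ) ≤ m := by exact_mod_cast hm
  have l1 := Real.log_two_gt_d9
  have l2 := Real.log_two_lt_d9
  have e4 : Real.log 4 = 2 * Real.log 2 := by
    rw [show (4 : ℝ) = 2 ^ 2 by norm_num, Real.log_pow]; norm_num
  have e16 : Real.log 16 = 4 * Real.log 2 := by
    rw [show (16 : ℝ) = 2 ^ 4 by norm_num, Real.log_pow]; norm_num
  have x1 : 1 ≤ Real.log (2 * m + 2) := by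
    have := Real.log_le_log (by norm_num) (show (4 : ℝ) ≤ 2 * m + 2 by linarith)
    linarith
  have er : ((2 * m + 2 : ℕ) : ℝ) = 2 * m + 2 := by push_cast; ring
  have r0 : (0 : ℝ) < 2 * m + 2 := by linarith
  obtain ⟨x, hx⟩ : ∃ x, x = Real.log (2 * m + 2) := ⟨_, rfl⟩
  rw [← hx] at x1 ⊢
  have x2 : 1 ≤ x ^ 2 := one_le_pow₀ x1
  have a1 : 8 * x ^ 2 ≤ (⌈8 * x ^ 2⌉₊ : ℝ) := Nat.le_ceil _
  have a2 : (⌈8 * x ^ 2⌉₊ : ℝ) < 8 * x ^ 2 + 1 := Nat.ceil_lt_add_one (by positivity)
  generalize ⌈8 * x ^ 2⌉₊ = A at a1 a2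
  have A0 : (0 : ℝ) < A := by linarith
  have A1 : 0 < A := by exact_mod_cast A0
  refine ⟨A, A1, ?_⟩
  have b1 : Real.log A ≤ 4 * Real.log 2 + 2 * Real.log x := by
    refine (Real.log_le_log A0 (show (A : ℝ) ≤ 16 * x ^ 2 by linarith)).trans (le_of_eq ?_)
    rw [Real.log_mul (by norm_num) (by positivity), Real.log_pow, e16]; norm_num
  have b2 := Real.log_le_sub_one_of_pos (show 0 < x by linarith)
  have b3 := aq_hs_le (A * (2 * m + 2) ^ 2)
  rw [Nat.cast_mul, Nat.cast_pow, er, Real.log_mul A0.ne' (by positivity), Real.log_pow,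
    ← hx] at b3
  have b4 : Real.log (2 * hs (A * (2 * m + 2) ^ 2)) ≤ 4 * Real.log 2 + Real.log x := by
    rw [← e16, ← Real.log_mul (by norm_num) (by linarith)]
    refine Real.log_le_log (mul_pos two_pos (aq_hs_pos (by positivity))) ?_
    push_cast at b3
    linarith
  have b5 : 2 * x * Real.sqrt (2 / A) ≤ 1 := by
    have : Real.sqrt (2 / A) ≤ 1 / (2 * x) := by
      refine Real.sqrt_le_iff.2 ⟨by positivity, ?_⟩
      rw [div_pow, div_le_div_iff₀ A0 (by positivity)]
      linarith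
    rwa [le_div_iff₀ (by linarith), mul_comm] at this
  rw [ee, er, ← hx]
  linarith

theorem aq_le_fixc (d : ℕ) (π : Equiv.Perm (Fin (m + 1))) : d ≤ fixc d π := by
  unfold fixc
  refine le_trans (card_fin d).ge (card_le_card_of_injOn (fun a _ => a) (fun a _ => by simp)
    fun a _ b _ e => congrFun e 0)

/-- `Irr.ind_eq`, `sum_trace`, the `d` constant colourings, `Irr.lowDim_le` -/
theorem av_rearr_ge (D : ℕ) (hD : 1 ≤ D) :
    (m.factorial : ℝ) * lowDim G D / (Fintype.card G * (D : ℝ) ^ m) ≤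
      av (fun g : Fin m → G => (rearr g : ℝ)) := by
  obtain ⟨I⟩ := exists_irr G
  have n0 : (0 : ℝ) < Fintype.card G := Nat.cast_pos.2 Fintype.card_pos
  have D0 : (0 : ℝ) < D := Nat.cast_pos.2 hD
  have h1 : ∀ g : Fin m → G, (rearr g : ℝ) = ∑ s : Equiv.Perm (Fin m), (Fintype.card G : ℝ)⁻¹ *
      ∑ i, (I.d i : ℝ) * ch (I.ρ i) (wp (fun j => g (s j)) * (wp g)⁻¹) := fun g => by
    rw [rearr_eq, ← sum_ind]
    exact sum_congr rfl fun s _ => I.ind_eq _ _
  have h2 : ∀ (s : Equiv.Perm (Fin m)) i,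
      av (fun g : Fin m → G => ch (I.ρ i) (wp (fun j => g (s j)) * (wp g)⁻¹)) =
        fixc (I.d i) (pim s) / (I.d i : ℝ) ^ m := fun s i => by
    have h := congrArg Complex.re (sum_trace (I.schur i) s)
    rw [Complex.re_sum, show ((Fintype.card G : ℂ) / I.d i) ^ m * (fixc (I.d i) (pim s) : ℂ) =
      ((((Fintype.card G : ℝ) / I.d i) ^ m * fixc (I.d i) (pim s) : ℝ) : ℂ) by push_cast; rfl,
      Complex.ofReal_re] at h
    have d0 : (0 : ℝ) < I.d i := Nat.cast_pos.2 (I.pos i)
    unfold av ch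
    rw [h, Fintype.card_fun, Fintype.card_fin, Nat.cast_pow, div_pow]
    field_simp
  have h3 : (lowDim G D : ℝ) ≤ ∑ i ∈ univ.filter (fun i => I.d i ≤ D), (I.d i : ℝ) ^ 2 := by
    exact_mod_cast I.lowDim_le D
  have h4 : ∀ s : Equiv.Perm (Fin m), (lowDim G D : ℝ) / (D : ℝ) ^ m ≤
      ∑ i, (I.d i : ℝ) * (fixc (I.d i) (pim s) / (I.d i : ℝ) ^ m) := fun s => by
    refine (div_le_div_of_nonneg_right h3 (by positivity)).trans ?_
    rw [sum_div]
    refine (sum_le_sum fun i hi => ?_).trans (sum_le_sum_of_subset_of_nonneg (filter_subset _ _)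
      fun _ _ _ => by positivity)
    have d0 : (0 : ℝ) < I.d i := Nat.cast_pos.2 (I.pos i)
    have d1 : (I.d i : ℝ) ≤ D := by exact_mod_cast (mem_filter.1 hi).2
    have d2 : (I.d i : ℝ) ≤ fixc (I.d i) (pim s) := by exact_mod_cast aq_le_fixc _ _
    rw [sq, mul_div_assoc]
    gcongr
  rw [congrArg av (funext h1), av_sum]
  simp only [av_mul_left, av_sum, h2]
  refine le_trans (le_of_eq ?_) (sum_le_sum fun s _ =>
    mul_le_mul_of_nonneg_left (h4 s) (inv_pos.2 n0).le)
  rw [sum_const, card_univ, Fintype.card_perm, Fintype.card_fin, nsmul_eq_mul]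
  field_simp

/-- as `av_glued`, with `rearrE_congr` -/
theorem av_rearrE (w : Fin m → Fin k) :
    av (fun Z : Fin k → G => Real.log (rearrE (nons w) (gw w Z))) =
      av (fun g : Fin m → G => Real.log (rearrE (nons w) g)) := by
  have key : ∀ g g' : Fin m → G,
      (∀ j, single w j → Fin.partialProd g j.succ = Fin.partialProd g' j.succ) →
      Real.log (rearrE (nons w) g) = Real.log (rearrE (nons w) g') := fun g g' h => by
    rw [rearrE_congr (nons w) g g' fun j hj => h j (by simpa [nons] using hj)]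
  have hP : Function.Injective fun (g : Fin m → G) (j : Fin m) => Fin.partialProd g j.succ := by
    intro g g' h
    have h1 : Fin.partialProd g = Fin.partialProd g' := funext fun q => by
      induction q using Fin.cases with
      | zero => rw [Fin.partialProd_zero, Fin.partialProd_zero]
      | succ j => exact congrFun h j
    funext j
    rw [← Fin.partialProd_right_inv g j, ← Fin.partialProd_right_inv g' j, h1]
  let e := Equiv.ofBijective _ (Finite.injective_iff_bijective.mp hP)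
  have he : ∀ c j, Fin.partialProd (e.symm c) j.succ = c j := fun c j =>
    congrFun (e.apply_symm_apply c) j
  rw [← av_equiv e.symm, ← av_bij (zz_bij w), ← av_coord w (univ.filter (single w))
    (fun i _ j hj h => (Finset.mem_filter.1 hj).2 i h) _ fun c c' h => key _ _ fun j hj => by
      rw [he, he, h j (Finset.mem_filter.2 ⟨Finset.mem_univ _, hj⟩)]]
  refine congrArg av (funext fun U => key _ _ fun j hj => ?_)
  rw [he, pre_zz, Fin.val_succ, cc_succ_single w U j hj]

/-- `sum_perm_SS` and exchangeability of the uniform law -/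
theorem av_SS_unif : av (fun g : Fin m → G => SS g) ≤ 3 := by
  have hm : (0 : ℝ) < m.factorial := by exact_mod_cast m.factorial_pos
  have h1 : ∀ t : Equiv.Perm (Fin m),
      av (fun g : Fin m → G => SS (fun j => g (t j))) = av (fun g : Fin m → G => SS g) :=
    fun t => av_equiv (Equiv.arrowCongr t.symm (Equiv.refl G)) (fun g : Fin m → G => SS g)
  refine le_of_mul_le_mul_left ?_ hm
  calc _ = ∑ t : Equiv.Perm (Fin m), av (fun g : Fin m → G => SS (fun j => g (t j))) := by
        rw [Finset.sum_congr rfl (fun t _ => h1 t), Finset.sum_const, Finset.card_univ,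
          Fintype.card_perm, Fintype.card_fin, nsmul_eq_mul]
    _ = av (fun g : Fin m → G => ∑ t : Equiv.Perm (Fin m), SS (fun j => g (t j))) :=
        (av_sum _ _).symm
    _ ≤ _ := (av_mono (fun g => (sum_perm_SS g).trans (mul_comm _ _).le)).trans
        (av_const_le (by positivity))

/-- `lq_sub_log` on both sides, `log x ≤ x`, `card_not_single_le`, `av_rho` -/
theorem meanLog_ge_unif (hk : 0 < k) :
    av (fun g : Fin m → G => lq g) - 2 * ((m : ℝ) ^ 2 / k) * Real.log ((m : ℝ) + 1) - 3 ≤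
      meanLog G k m := by
  have : Nonempty (Fin k) := ⟨⟨0, hk⟩⟩
  have hl : 0 ≤ Real.log ((m : ℝ) + 1) := Real.log_nonneg (by linarith [Nat.cast_nonneg (α := ℝ) m])
  have h1 : ∀ w : Fin m → Fin k, av (fun g : Fin m → G => lq g) - 3 -
      2 * Real.log ((m : ℝ) + 1) * rho w ≤ av (fun Z : Fin k → G => lq (gw w Z)) := by
    intro w
    have a1 : av (fun Z : Fin k → G => Real.log (rearrE (nons w) (gw w Z))) ≤
        av (fun Z : Fin k → G => lq (gw w Z)) :=
      av_mono fun Z => by linarith [(lq_sub_log (nons w) (gw w Z)).1]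
    have a2 : av (fun g : Fin m → G => lq g) ≤ av (fun g : Fin m → G =>
        Real.log (rearrE (nons w) g) + (2 * Real.log ((m : ℝ) + 1) * rho w + SS g)) :=
      av_mono fun g => by
        have b1 := (lq_sub_log (nons w) g).2
        have b2 := Real.log_le_sub_one_of_pos (lt_of_lt_of_le one_pos (one_le_SS g))
        have b3 : ((nons w).card : ℝ) ≤ rho w := card_not_single_le w
        nlinarith [mul_le_mul_of_nonneg_left b3 hl]
    rw [av_add, av_add, av_const, ← av_rearrE] at a2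
    linarith [av_SS_unif (G := G) (m := m)]
  have h2 := av_mono h1
  rw [av_sub, av_const, av_mul_left] at h2
  rw [meanLog_eq, av_prod]
  nlinarith [mul_le_mul_of_nonneg_left (av_rho (m := m) hk) hl]

end Pool.Agent.Lib.MP_d87a8f_pr.Q
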