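import Mathlib
import Pool.Agent.Lib.MP_d87a8f_pr.Q.Main
import Pool.Agent.Lib.MP_d87a8f_pr.Q.AQ

/-!
The cutoff time is given by the degrees.
-/

namespace Pool.Agent.Lib.MP_d87a8f_pr.Q

open Finset Filter Topology Pool.Agent.Lib.MP_d87a8f_pr.U

/-- with `y = k d / l ≥ k / (3 T)`: `log W ≤ T log y + T (1 + log 3) + error`,
`(l - T) log y ≥ ε T log (K log (2 T + 2) ^ K / 3)` -/
theorem exact_term (ε : ℝ) (hε : 0 < ε) (hε1 : ε < 1) : ∃ M K : ℕ, ∀ (k T l d : ℕ) (x : ℝ),
    M ≤ T → K * Real.log (2 * T + 2) ^ K * T ≤ k → (1 + ε) * T ≤ l → l ≤ 3 * T → 1 ≤ d →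
    x + Real.log T.factorial ≤ T * Real.log k + T * Real.log d +
      ((T + 1) * (4 * Real.log (Real.log (2 * T + 2)) + 12) +
        2 * ((T : ℝ) ^ 2 / k) * Real.log ((T : ℝ) + 1) + 3) →
    x + l * Real.log l ≤ l * Real.log ((k * d : ℕ) : ℝ) := by
  obtain ⟨K, hK⟩ := exists_nat_ge (41 / ε)
  rw [div_le_iff₀ hε] at hK
  have K0 : (0 : ℝ) ≤ K := Nat.cast_nonneg K
  have K3 : (3 : ℝ) ≤ K := by nlinarith
  refine ⟨7, K, fun k T l d x hM hk hl h3 hd hx => ?_⟩
  have T7 : (7 : ℝ) ≤ T := by exact_mod_cast hM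
  have T0 : (0 : ℝ) < T := by linarith
  have d1 : (1 : ℝ) ≤ d := by exact_mod_cast hd
  have l3 : (l : ℝ) ≤ 3 * T := by exact_mod_cast h3
  have eT : 0 < ε * T := mul_pos hε T0
  have l0 : (0 : ℝ) < l := by linarith
  have a1 : Real.exp 1 ≤ Real.log (2 * T + 2) := by
    have := Real.log_le_log (by norm_num) (by linarith : (2 : ℝ) ^ 4 ≤ 2 * T + 2)
    rw [Real.log_pow] at this
    push_cast at this
    linarith [Real.exp_one_lt_d9, Real.log_two_gt_d9]
  have a2 : Real.log ((T : ℝ) + 1) ≤ Real.log (2 * T + 2) :=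
    Real.log_le_log (by linarith) (by linarith)
  have a3 : 0 ≤ Real.log ((T : ℝ) + 1) := Real.log_nonneg (by linarith)
  generalize Real.log (2 * T + 2) = Λ at *
  have L1 : 1 ≤ Λ := by linarith [Real.add_one_le_exp (1 : ℝ)]
  have m1 : 1 ≤ Real.log Λ := (Real.le_log_iff_exp_le (by linarith)).2 a1
  have p1 : Λ ≤ Λ ^ K := le_self_pow₀ L1 (by rintro rfl; norm_num at K3)
  have p2 : 3 * Λ ^ K * T ≤ k := le_trans (by gcongr) hk
  have p3 : Λ * T ≤ Λ ^ K * T := mul_le_mul_of_nonneg_right p1 T0.le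
  have p4 : 0 < Λ * T := by positivity
  have k0 : (0 : ℝ) < k := by linarith
  have u1 : K * Real.log Λ + Real.log l ≤ Real.log k := by
    rw [← Real.log_pow, ← Real.log_mul (by positivity) l0.ne']
    exact Real.log_le_log (by positivity)
      (by linarith [mul_le_mul_of_nonneg_left l3 (by positivity : 0 ≤ Λ ^ K)])
  have u2 : 0 ≤ Real.log d := Real.log_nonneg d1
  have g3 : Real.log 3 ≤ 2 := by linarith [Real.log_le_sub_one_of_pos (by norm_num : (0 : ℝ) < 3)]
  have f1 : T * Real.log T ≤ T * Real.log 3 + Real.log T.factorial := by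
    rw [← Real.log_pow, ← Real.log_pow, ← Real.log_mul (by positivity) (by positivity)]
    exact Real.log_le_log (by positivity) (by exact_mod_cast pow_self_le T)
  have f2 : Real.log l ≤ Real.log 3 + Real.log T := by
    rw [← Real.log_mul (by norm_num) T0.ne']
    exact Real.log_le_log l0 l3
  have f3 : (T : ℝ) ^ 2 / k * Real.log ((T : ℝ) + 1) ≤ T := by
    rw [div_mul_eq_mul_div, div_le_iff₀ k0]
    nlinarith [mul_le_mul_of_nonneg_left a2 (sq_nonneg (T : ℝ)),
      mul_le_mul_of_nonneg_left (by linarith : Λ * T ≤ k) T0.le]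
  rw [Nat.cast_mul, Real.log_mul k0.ne' (by linarith)]
  have m0 : 0 ≤ K * Real.log Λ := by positivity
  have b1 := mul_le_mul_of_nonneg_right hl
    (by linarith : 0 ≤ Real.log k + Real.log d - Real.log l)
  have b2 := mul_le_mul_of_nonneg_left
    (by linarith : K * Real.log Λ ≤ Real.log k + Real.log d - Real.log l) eT.le
  have b3 := mul_le_mul_of_nonneg_right hK (by positivity : 0 ≤ T * Real.log Λ)
  have b4 := mul_le_mul_of_nonneg_left m1 T0.le
  have b5 := mul_le_mul_of_nonneg_left f2 T0.le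
  have b6 := mul_le_mul_of_nonneg_left g3 T0.le
  have b7 := mul_le_mul_of_nonneg_right (by linarith : (1 : ℝ) ≤ T) (by linarith : 0 ≤ Real.log Λ)
  linarith

/-- `aq_core`, `ee_le`, `av_rearr_ge`, `meanLog_ge_unif`, `exact_term`, `nat_of_log` -/
theorem fin_exact_low (ε : ℝ) (hε : 0 < ε) (hε1 : ε < 1) :
    ∃ M K : ℕ, ∀ (G : Type) [Group G] [Fintype G] [DecidableEq G] (k T l : ℕ),
      M ≤ T → K * Real.log (2 * T + 2) ^ K * T ≤ k → (1 + ε) * T ≤ l → l ≤ 3 * T →
      psi G k T ≤ 0 → DegCond 1 G k l := by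
  obtain ⟨M, K, h⟩ := exact_term ε hε hε1
  refine ⟨M + 1, K + 1, fun G _ _ _ k T l hM hK hl h3 hp => ?_⟩
  have T1 : (1 : ℝ) ≤ T := by exact_mod_cast (by omega : 1 ≤ T)
  have L1 : 1 ≤ Real.log (2 * T + 2) := by
    rw [Real.le_log_iff_exp_le (by linarith)]
    linarith [Real.exp_one_lt_d9]
  have hk' : (0 : ℝ) < k := lt_of_lt_of_le (by positivity) hK
  have hk : 0 < k := by exact_mod_cast hk'
  have hK' : K * Real.log (2 * T + 2) ^ K * T ≤ k := le_trans (by gcongr <;> omega) hK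
  have hG : (0 : ℝ) < Fintype.card G := by exact_mod_cast Fintype.card_pos
  have hTl : T ≤ l := by
    have : (T : ℝ) ≤ l := by nlinarith
    exact_mod_cast this
  unfold psi at hp
  refine ⟨?_, fun d hd => ?_⟩
  · have h1 : Real.log (Fintype.card G) ≤ Real.log ((k : ℝ) ^ T) := by
      rw [Real.log_pow]
      linarith [meanLog_nonneg (G := G) (k := k) (m := T)]
    have h4 : Fintype.card G ≤ k ^ T := by
      exact_mod_cast (Real.log_le_log_iff hG (by positivity)).1 h1
    exact h4.trans (Nat.pow_le_pow_right hk hTl)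
  · rcases Nat.eq_zero_or_pos (lowDim G d) with h0 | h0
    · rw [h0, zero_mul]
      exact Nat.zero_le _
    rw [pow_one]
    refine nat_of_log (by omega) (Nat.mul_pos hk hd) (h k T l d _ (by omega) hK' hl h3 hd ?_)
    obtain ⟨A, hA, e1⟩ := ee_le (m := T) (by omega)
    have hW : (0 : ℝ) < lowDim G d := by exact_mod_cast h0
    have hF : (0 : ℝ) < T.factorial := by exact_mod_cast T.factorial_pos
    have d0 : (0 : ℝ) < d := by exact_mod_cast hd
    have e2 := Real.log_le_log (by positivity) (av_rearr_ge (G := G) (m := T) d hd)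
    rw [Real.log_div (by positivity) (by positivity), Real.log_mul hF.ne' hW.ne',
      Real.log_mul hG.ne' (by positivity), Real.log_pow] at e2
    linarith [aq_core (G := G) (m := T) A hA, meanLog_ge_unif (G := G) (m := T) hk,
      mul_le_mul_of_nonneg_left e1 (by linarith : (0 : ℝ) ≤ T + 1)]

variable (G : ℕ → Type) [∀ n, Group (G n)] [∀ n, Fintype (G n)] [∀ n, DecidableEq (G n)]
  (k : ℕ → ℕ)

/-- `cutTime ≤ 2 L`, `log (4 L + 2) ≤ 2 log L` -/
theorem ev_room
    (h1 : Tendsto (fun n => (k n : ℝ) / Real.log (Fintype.card (G n))) atTop atTop)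
    (h2 : Tendsto (fun n => Real.log (k n) / Real.log (Fintype.card (G n))) atTop (𝓝 0))
    (h3 : Tendsto (fun n => Real.log ((k n : ℝ) / Real.log (Fintype.card (G n))) /
      Real.log (Real.log (Real.log (Fintype.card (G n))))) atTop atTop) (K : ℕ) :
    ∀ᶠ n in atTop, K * Real.log (2 * cutTime (G n) (k n) + 2) ^ K * cutTime (G n) (k n) ≤
      (k n : ℝ) := by
  have hE : 0 < Real.exp 2 := Real.exp_pos 2
  filter_upwards [ev_regime G k h1 h2 (Real.exp 2 + 6) (by linarith),
    h3.eventually_ge_atTop ((3 * K + 1 : ℕ) : ℝ)] with n ⟨b1, b2, _, _⟩ a3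
  have hT := (cutTime_spec (G n) (k n) (by linarith) (by nlinarith)).2.2.1
  have hT0 : (0 : ℝ) ≤ cutTime (G n) (k n) := Nat.cast_nonneg _
  generalize (cutTime (G n) (k n) : ℝ) = T at hT hT0 ⊢
  generalize Real.log (Fintype.card (G n)) = L at b1 b2 a3 hT
  have hL : 0 < L := by linarith
  have hk : (0 : ℝ) < k n := lt_of_lt_of_le (by positivity) b2
  have hl : 2 ≤ Real.log L := by
    rw [Real.le_log_iff_exp_le hL]; linarith
  have c1 : Real.log (2 * T + 2) ≤ 2 * Real.log L := by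
    have := Real.log_le_log (show 0 < 2 * T + 2 by linarith)
      (show 2 * T + 2 ≤ L ^ 2 by nlinarith)
    rw [Real.log_pow] at this
    exact_mod_cast this
  have c0 : 0 ≤ Real.log (2 * T + 2) := Real.log_nonneg (by linarith)
  generalize Real.log L = l at hl c1 a3
  rw [le_div_iff₀ (Real.log_pos (by linarith)), ← Real.log_pow,
    Real.log_le_log_iff (by positivity) (by positivity), le_div_iff₀ hL] at a3
  have c2 : (K : ℝ) ≤ 2 ^ K := by exact_mod_cast (Nat.lt_two_pow_self (n := K)).le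
  calc _ ≤ (2 : ℝ) ^ K * (2 * l) ^ K * (2 * L) := by gcongr
    _ = 2 ^ (2 * K + 1) * l ^ K * L := by ring
    _ ≤ l ^ (2 * K + 1) * l ^ K * L := by gcongr
    _ = l ^ (3 * K + 1) * L := by ring
    _ ≤ _ := a3

theorem deg_one_le_cut
    (h1 : Tendsto (fun n => (k n : ℝ) / Real.log (Fintype.card (G n))) atTop atTop)
    (h2 : Tendsto (fun n => Real.log (k n) / Real.log (Fintype.card (G n))) atTop (𝓝 0))
    (h3 : Tendsto (fun n => Real.log ((k n : ℝ) / Real.log (Fintype.card (G n))) /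
      Real.log (Real.log (Real.log (Fintype.card (G n))))) atTop atTop) (ε : ℝ) (hε : 0 < ε) :
    ∀ᶠ n in atTop, (degTime 1 (G n) (k n) : ℝ) ≤ (1 + ε) * cutTime (G n) (k n) := by
  obtain ⟨e, he, he1, M', hM'⟩ := exists_between_nat ε hε
  obtain ⟨M, K, hMK⟩ := fin_exact_low e he he1
  filter_upwards [ev_spec G k h1 h2 (max M M') 0, ev_room G k h1 h2 h3 K] with n
    ⟨_, a1, _, a3, _⟩ a2
  obtain ⟨l, b1, b2, b3⟩ := hM' _ (le_trans (le_max_right _ _) a1)
  have h := hMK (G n) (k n) _ l (le_trans (le_max_left _ _) a1) a2 b1 b2 a3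
  have hle : degTime 1 (G n) (k n) ≤ l :=
    Nat.sInf_le (s := {l : ℕ | DegCond 1 (G n) (k n) l}) h
  exact le_trans (by exact_mod_cast hle) b3

theorem exact_cutoff
    (h1 : Tendsto (fun n => (k n : ℝ) / Real.log (Fintype.card (G n))) atTop atTop)
    (h2 : Tendsto (fun n => Real.log (k n) / Real.log (Fintype.card (G n))) atTop (𝓝 0))
    (h3 : Tendsto (fun n => Real.log ((k n : ℝ) / Real.log (Fintype.card (G n))) /
      Real.log (Real.log (Real.log (Fintype.card (G n))))) atTop atTop) :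
    CutoffAt G k (fun n => (degTime 1 (G n) (k n) : ℝ)) := by
  have hpos : ∀ᶠ n in atTop, (0 : ℝ) < degTime 1 (G n) (k n) := by
    filter_upwards [ev_deg G k 1 h1 h2 1 0] with n hn
    exact_mod_cast hn.1
  refine ((main G k h1 h2).2 _ hpos).2 ?_
  rw [Metric.tendsto_nhds]
  intro η hη
  filter_upwards [hpos, cut_le_deg G k h1 h2 (η / 2) (by positivity),
    deg_one_le_cut G k h1 h2 h3 (η / 2) (by positivity)] with n a0 a1 a2
  have hT : (0 : ℝ) ≤ cutTime (G n) (k n) := Nat.cast_nonneg _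
  generalize (degTime 1 (G n) (k n) : ℝ) = t at a0 a1 a2 ⊢
  generalize (cutTime (G n) (k n) : ℝ) = T at hT a1 a2 ⊢
  have q1 := mul_pos hη a0
  rw [Real.dist_eq, abs_lt]
  constructor
  · have : 1 - η < T / t := by
      rw [lt_div_iff₀ a0]
      refine lt_of_mul_lt_mul_left (a := 1 + η / 2) ?_ (by linarith)
      have q3 := mul_pos hη q1
      linarith
    linarith
  · have : T / t < 1 + η := by
      rw [div_lt_iff₀ a0]
      linarith
    linarith

end Pool.Agent.Lib.MP_d87a8f_pr.Q
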