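import Mathlib
import Pool.Agent.Lib.MP_d87a8f_pr.Q.Exact
import Pool.Agent.Lib.MP_d87a8f_pr.P.Low

/-!
The cutoff time is given by the degrees in the whole regime: large degrees by the comparison of
the two means, small degrees by a bound through subgroups.
-/

namespace Pool.Agent.Lib.MP_d87a8f_pr.Q

open Finset Filter Topology Pool.Agent.Lib.MP_d87a8f_pr.U

/-- the bound on the representations of small degree -/
def GroupBound : Prop :=
  ∃ c C M0 : ℕ, 1 ≤ c ∧ ∀ (G : Type) [Group G] [Fintype G] (d T M : ℕ), 1 ≤ d → d ^ c ≤ T →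
    M0 ≤ T → Fintype.card G ≤ T ^ (2 * T) →
    (∀ H : Subgroup G, H.index ≤ d → Nat.card (Abelianization H) ≤ M) → lowDim G d ≤ C ^ T * M

theorem ev_loglog (a b : ℝ) (ha : 0 < a) :
    ∃ M : ℕ, ∀ T : ℕ, M ≤ T → 8 * Real.log (Real.log (2 * T + 2)) + b ≤ a * Real.log T := by
  have h1 : Tendsto (fun T : ℕ => Real.log (T : ℝ)) atTop atTop :=
    Real.tendsto_log_atTop.comp tendsto_natCast_atTop_atTop
  have h2 := (Real.isLittleO_log_id_atTop.bound (show 0 < a / 32 by positivity))
  have h3 : Tendsto (fun T : ℕ => 2 * Real.log (T : ℝ)) atTop atTop :=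
    h1.const_mul_atTop (by norm_num)
  have h4 := (h3.eventually h2).and ((h1.eventually_ge_atTop (2 * b / a)).and
    (eventually_ge_atTop 3))
  obtain ⟨M, hM⟩ := eventually_atTop.1 h4
  refine ⟨M, fun T hT => ?_⟩
  obtain ⟨a1, a2, a3⟩ := hM T hT
  have T3 : (3 : ℝ) ≤ T := by exact_mod_cast a3
  have l0 : 0 ≤ Real.log (T : ℝ) := Real.log_nonneg (by linarith)
  have b1 : Real.log (2 * T + 2) ≤ 2 * Real.log T := by
    have := Real.log_le_log (show (0 : ℝ) < 2 * T + 2 by linarith)
      (show (2 : ℝ) * T + 2 ≤ (T : ℝ) ^ 2 by nlinarith)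
    rw [Real.log_pow] at this
    exact_mod_cast this
  have b2 : Real.log (Real.log (2 * T + 2)) ≤ Real.log (2 * Real.log T) :=
    Real.log_le_log (Real.log_pos (by linarith)) b1
  simp only [id, Real.norm_eq_abs] at a1
  rw [abs_of_nonneg (by linarith : 0 ≤ 2 * Real.log (T : ℝ))] at a1
  have b3 := (le_abs_self _).trans a1
  rw [div_le_iff₀ ha] at a2
  linarith

theorem core_term {ε T l y x E : ℝ} (hl : (1 + ε) * T ≤ l) (hy : 0 ≤ y)
    (hx : x ≤ T * y + E) (hE : E ≤ ε * T * y) : x ≤ l * y := by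
  have := mul_le_mul_of_nonneg_right hl hy
  linarith

theorem log_shift {k T l d : ℕ} (x E : ℝ) (hT : 0 < T) (hl : 0 < l) (h3 : l ≤ 3 * T)
    (hx : x + Real.log T.factorial ≤ T * Real.log k + T * Real.log d + E) :
    x ≤ T * (Real.log k + Real.log d - Real.log l) + (4 * T + E) := by
  have T0 : (0 : ℝ) < T := by exact_mod_cast hT
  have l0 : (0 : ℝ) < l := by exact_mod_cast hl
  have l3 : (l : ℝ) ≤ 3 * T := by exact_mod_cast h3
  have g3 : Real.log 3 ≤ 2 := by linarith [Real.log_le_sub_one_of_pos (by norm_num : (0 : ℝ) < 3)]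
  have f1 : T * Real.log T ≤ T * Real.log 3 + Real.log T.factorial := by
    rw [← Real.log_pow, ← Real.log_pow, ← Real.log_mul (by positivity) (by positivity)]
    exact Real.log_le_log (by positivity) (by exact_mod_cast pow_self_le T)
  have f2 : Real.log l ≤ Real.log 3 + Real.log T := by
    rw [← Real.log_mul (by norm_num) T0.ne']
    exact Real.log_le_log l0 l3
  have b5 := mul_le_mul_of_nonneg_left f2 T0.le
  have b6 := mul_le_mul_of_nonneg_left g3 T0.le
  linarith

theorem big_term (ε : ℝ) (hε : 0 < ε) (c : ℕ) (hc : 1 ≤ c) : ∃ M K : ℕ,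
    ∀ (k T l d : ℕ) (x : ℝ), M ≤ T → K * T ≤ k → (1 + ε) * T ≤ l → l ≤ 3 * T → 1 ≤ d →
    (T ≤ d ^ c ∨ T ^ 2 ≤ k) →
    x + Real.log T.factorial ≤ T * Real.log k + T * Real.log d +
      ((T + 1) * (4 * Real.log (Real.log (2 * T + 2)) + 12) +
        2 * ((T : ℝ) ^ 2 / k) * Real.log ((T : ℝ) + 1) + 3) →
    x + l * Real.log l ≤ l * Real.log ((k * d : ℕ) : ℝ) := by
  have c1 : (1 : ℝ) ≤ c := by exact_mod_cast hc
  obtain ⟨M, hM⟩ := ev_loglog (ε / (2 * c)) (31 + 2 * ε) (by positivity)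
  obtain ⟨K, hK⟩ := exists_nat_ge (8 * c / ε)
  refine ⟨M + 3, K + 3, fun k T l d x hT hk hl h3 hd hor hx => ?_⟩
  have T3 : (3 : ℝ) ≤ T := by exact_mod_cast (by omega : 3 ≤ T)
  have T0 : (0 : ℝ) < T := by linarith
  have d1 : (1 : ℝ) ≤ d := by exact_mod_cast hd
  have l3 : (l : ℝ) ≤ 3 * T := by exact_mod_cast h3
  have eT : 0 < ε * T := mul_pos hε T0
  have l0 : (0 : ℝ) < l := by linarith
  have hk' : ((K : ℝ) + 3) * T ≤ k := by exact_mod_cast hk
  have K0 : (0 : ℝ) ≤ K := Nat.cast_nonneg K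
  have KT := mul_nonneg K0 T0.le
  have k0 : (0 : ℝ) < k := by linarith
  have lT : 0 ≤ Real.log (T : ℝ) := Real.log_nonneg (by linarith)
  have ld : 0 ≤ Real.log (d : ℝ) := Real.log_nonneg d1
  have g3 : Real.log 3 ≤ 2 := by linarith [Real.log_le_sub_one_of_pos (by norm_num : (0 : ℝ) < 3)]
  have lkl : Real.log l ≤ Real.log k := Real.log_le_log l0 (by linarith)
  have hq : Real.log T / c ≤ Real.log T := div_le_self lT c1
  have hy : Real.log T / c - 2 ≤ Real.log k + Real.log d - Real.log l := by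
    rcases hor with h | h
    · have h1 : Real.log T ≤ Real.log ((d : ℝ) ^ c) := Real.log_le_log T0 (by exact_mod_cast h)
      rw [Real.log_pow] at h1
      have h2 : Real.log T / c ≤ Real.log d := by rw [div_le_iff₀ (by linarith)]; linarith
      linarith
    · have h1 : Real.log ((T : ℝ) ^ 2) ≤ Real.log k :=
        Real.log_le_log (by positivity) (by exact_mod_cast h)
      rw [Real.log_pow] at h1
      push_cast at h1
      have f2 : Real.log l ≤ Real.log 3 + Real.log T := by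
        rw [← Real.log_mul (by norm_num) T0.ne']
        exact Real.log_le_log l0 l3
      linarith
  have h1 := log_shift x _ (by omega) (by exact_mod_cast l0) h3 hx
  have m0 : 0 ≤ Real.log (Real.log (2 * T + 2)) := by
    refine Real.log_nonneg ?_
    rw [Real.le_log_iff_exp_le (by linarith)]
    linarith [Real.exp_one_lt_d9]
  have a2 : Real.log ((T : ℝ) + 1) ≤ 2 * Real.log T := by
    have := Real.log_le_log (show (0 : ℝ) < T + 1 by linarith)
      (show (T : ℝ) + 1 ≤ (T : ℝ) ^ 2 by nlinarith)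
    rw [Real.log_pow] at this
    exact_mod_cast this
  have a3 : (T : ℝ) ^ 2 / k ≤ T * (ε / (8 * c)) := by
    rw [div_le_iff₀ k0]
    rw [div_le_iff₀ hε] at hK
    have q1 : 1 ≤ ε / (8 * c) * K := by
      rw [div_mul_eq_mul_div, le_div_iff₀ (by linarith)]; linarith
    have q2 : 0 ≤ ε / (8 * c) := by positivity
    have q3 : (T : ℝ) ≤ ε / (8 * c) * k := by
      have := mul_le_mul_of_nonneg_left (show (K : ℝ) * T ≤ k by linarith) q2
      nlinarith
    nlinarith
  have a4 : (T : ℝ) ^ 2 / k * Real.log ((T : ℝ) + 1) ≤ T * (ε / (8 * c)) * (2 * Real.log T) :=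
    mul_le_mul a3 a2 (Real.log_nonneg (by linarith)) (by positivity)
  have a5 : T * (ε / (8 * c)) * (2 * Real.log T) = T * (ε / (2 * c) * Real.log T) / 2 := by
    field_simp; ring
  have a6 := mul_le_mul_of_nonneg_left (hM T (by omega)) T0.le
  have a7 := mul_le_mul_of_nonneg_left hy eT.le
  have a8 : ε * T * (Real.log T / c - 2) = 2 * (T * (ε / (2 * c) * Real.log T)) - 2 * (ε * T) := by
    field_simp
  have a9 := mul_le_mul_of_nonneg_right (show (1 : ℝ) ≤ T by linarith) m0
  have h2 := core_term hl (by linarith : 0 ≤ Real.log k + Real.log d - Real.log l) h1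
    (by linarith)
  rw [Nat.cast_mul, Real.log_mul k0.ne' (by linarith)]
  linarith

theorem small_term (ε : ℝ) (hε : 0 < ε) (C : ℕ) : ∃ K : ℕ,
    ∀ (k T l d W : ℕ), 1 ≤ T → K * T ≤ k → (1 + ε) * T ≤ l → l ≤ 3 * T → 1 ≤ d →
    W * T.factorial ≤ C ^ T * (k * d) ^ T → W * l ^ l ≤ (k * d) ^ l := by
  obtain ⟨K, hK⟩ := exists_nat_ge (3 * Real.exp ((4 + Real.log (C + 1)) / ε))
  refine ⟨K + 3, fun k T l d W hT hk hl h3 hd hx => ?_⟩
  rcases Nat.eq_zero_or_pos W with h0 | h0
  · simp [h0]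
  have T1 : (1 : ℝ) ≤ T := by exact_mod_cast hT
  have T0 : (0 : ℝ) < T := by linarith
  have d1 : (1 : ℝ) ≤ d := by exact_mod_cast hd
  have l3 : (l : ℝ) ≤ 3 * T := by exact_mod_cast h3
  have eT : 0 < ε * T := mul_pos hε T0
  have l0 : (0 : ℝ) < l := by linarith
  have hk' : ((K : ℝ) + 3) * T ≤ k := by exact_mod_cast hk
  have K0 : (0 : ℝ) ≤ K := Nat.cast_nonneg K
  have KT := mul_nonneg K0 T0.le
  have k0 : (0 : ℝ) < k := by linarith
  have W0 : (0 : ℝ) < W := by exact_mod_cast h0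
  have F0 : (0 : ℝ) < T.factorial := by exact_mod_cast T.factorial_pos
  have ld : 0 ≤ Real.log (d : ℝ) := Real.log_nonneg d1
  have C0 : (0 : ℝ) ≤ C := Nat.cast_nonneg C
  have lC : 0 ≤ Real.log ((C : ℝ) + 1) := Real.log_nonneg (by linarith)
  have h1 : (W : ℝ) * T.factorial ≤ ((C : ℝ) + 1) ^ T * ((k : ℝ) * d) ^ T := by
    have : (W : ℝ) * T.factorial ≤ (C : ℝ) ^ T * ((k : ℝ) * d) ^ T := by exact_mod_cast hx
    refine this.trans ?_
    gcongr
    linarith
  have h2 := Real.log_le_log (by positivity) h1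
  rw [Real.log_mul W0.ne' F0.ne', Real.log_mul (by positivity) (by positivity), Real.log_pow,
    Real.log_pow, Real.log_mul k0.ne' (by linarith)] at h2
  have h4 := log_shift (k := k) (d := d) (Real.log W) (T * Real.log ((C : ℝ) + 1)) (by omega)
    (by exact_mod_cast l0) h3 (by linarith)
  have h5 : (4 + Real.log (C + 1)) / ε + Real.log l ≤ Real.log k := by
    have hE := Real.exp_pos ((4 + Real.log (C + 1)) / ε)
    have := Real.log_le_log (mul_pos hE l0) (show Real.exp ((4 + Real.log (C + 1)) / ε) * l ≤ k by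
      have q1 := mul_le_mul_of_nonneg_left l3 hE.le
      have q2 := mul_le_mul_of_nonneg_right hK T0.le
      linarith)
    rwa [Real.log_mul hE.ne' l0.ne', Real.log_exp] at this
  have h6 : 0 ≤ (4 + Real.log (C + 1)) / ε := by positivity
  have h7 := mul_le_mul_of_nonneg_left
    (show (4 + Real.log (C + 1)) / ε ≤ Real.log k + Real.log d - Real.log l by linarith) eT.le
  have h8 : ε * T * ((4 + Real.log (C + 1)) / ε) = 4 * T + T * Real.log ((C : ℝ) + 1) := by
    field_simp
  have h9 := core_term hl (by linarith : 0 ≤ Real.log k + Real.log d - Real.log l) h4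
    (by linarith)
  refine nat_of_log (by exact_mod_cast l0) (Nat.mul_pos (by exact_mod_cast k0) hd) ?_
  rw [Nat.cast_mul, Real.log_mul k0.ne' (by linarith)]
  linarith

theorem fin_full_low (hG : GroupBound) (ε : ℝ) (hε : 0 < ε) :
    ∃ M K : ℕ, ∀ (G : Type) [Group G] [Fintype G] [DecidableEq G] (k T l : ℕ),
      M ≤ T → K * T ≤ k → (1 + ε) * T ≤ l → l ≤ 3 * T → psi G k T ≤ 0 → DegCond 1 G k l := by
  obtain ⟨c, C, M0, hc, hGB⟩ := hG
  obtain ⟨M, K, h⟩ := big_term ε hε c hc
  obtain ⟨K', h'⟩ := small_term ε hε C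
  refine ⟨M + M0 + 1, K + K' + 1, fun G _ _ _ k T l hM hK hl h3 hp => ?_⟩
  have T1 : (1 : ℝ) ≤ T := by exact_mod_cast (by omega : 1 ≤ T)
  have hk : 0 < k := lt_of_lt_of_le (Nat.mul_pos (by omega) (by omega)) hK
  have hk' : (0 : ℝ) < k := by exact_mod_cast hk
  have hK1 : K * T ≤ k := le_trans (Nat.mul_le_mul_right _ (by omega)) hK
  have hK2 : K' * T ≤ k := le_trans (Nat.mul_le_mul_right _ (by omega)) hK
  have hG : (0 : ℝ) < Fintype.card G := by exact_mod_cast Fintype.card_pos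
  have hTl : T ≤ l := by
    have : (T : ℝ) ≤ l := by nlinarith
    exact_mod_cast this
  have h4 : Fintype.card G ≤ k ^ T := by
    have h1 : Real.log (Fintype.card G) ≤ Real.log ((k : ℝ) ^ T) := by
      rw [Real.log_pow]
      unfold psi at hp
      linarith [meanLog_nonneg (G := G) (k := k) (m := T)]
    exact_mod_cast (Real.log_le_log_iff hG (by positivity)).1 h1
  refine ⟨h4.trans (Nat.pow_le_pow_right hk hTl), fun d hd => ?_⟩
  rw [pow_one]
  by_cases hor : T ≤ d ^ c ∨ T ^ 2 ≤ k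
  · rcases Nat.eq_zero_or_pos (lowDim G d) with h0 | h0
    · rw [h0, zero_mul]
      exact Nat.zero_le _
    refine nat_of_log (by omega) (Nat.mul_pos hk hd) (h k T l d _ (by omega) hK1 hl h3 hd hor ?_)
    obtain ⟨A, hA, e1⟩ := ee_le (m := T) (by omega)
    have hW : (0 : ℝ) < lowDim G d := by exact_mod_cast h0
    have hF : (0 : ℝ) < T.factorial := by exact_mod_cast T.factorial_pos
    have d0 : (0 : ℝ) < d := by exact_mod_cast hd
    have e2 := Real.log_le_log (by positivity) (av_rearr_ge (G := G) (m := T) d hd)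
    rw [Real.log_div (by positivity) (by positivity), Real.log_mul hF.ne' hW.ne',
      Real.log_mul hG.ne' (by positivity), Real.log_pow] at e2
    unfold psi at hp
    linarith [aq_core (G := G) (m := T) A hA, meanLog_ge_unif (G := G) (m := T) hk,
      mul_le_mul_of_nonneg_left e1 (by linarith : (0 : ℝ) ≤ T + 1)]
  · push Not at hor
    have h5 : Fintype.card G ≤ T ^ (2 * T) := by
      rw [pow_mul]
      exact h4.trans (Nat.pow_le_pow_left hor.2.le T)
    have h6 := hGB G d T ((k * d) ^ T / T.factorial) hd hor.1.le (by omega) h5 (fun H hH => by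
      rw [Nat.le_div_iff_mul_le T.factorial_pos]
      exact (P.sub_low hk hp H).trans (Nat.pow_le_pow_left (Nat.mul_le_mul_left k hH) T))
    refine h' k T l d _ (by omega) hK2 hl h3 hd ?_
    refine (Nat.mul_le_mul_right _ h6).trans ?_
    rw [mul_assoc]
    exact Nat.mul_le_mul_left _ (Nat.div_mul_le_self _ _)

variable (G : ℕ → Type) [∀ n, Group (G n)] [∀ n, Fintype (G n)] [∀ n, DecidableEq (G n)]
  (k : ℕ → ℕ)

theorem deg_one_le_cut_full (hG : GroupBound)
    (h1 : Tendsto (fun n => (k n : ℝ) / Real.log (Fintype.card (G n))) atTop atTop)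
    (h2 : Tendsto (fun n => Real.log (k n) / Real.log (Fintype.card (G n))) atTop (𝓝 0))
    (ε : ℝ) (hε : 0 < ε) :
    ∀ᶠ n in atTop, (degTime 1 (G n) (k n) : ℝ) ≤ (1 + ε) * cutTime (G n) (k n) := by
  obtain ⟨e, he, he1, M', hM'⟩ := exists_between_nat ε hε
  obtain ⟨M, K, hMK⟩ := fin_full_low hG e he
  filter_upwards [ev_spec G k h1 h2 (max M M') K] with n ⟨_, a1, a2, a3, _⟩
  obtain ⟨l, b1, b2, b3⟩ := hM' _ (le_trans (le_max_right _ _) a1)
  have h := hMK (G n) (k n) _ l (le_trans (le_max_left _ _) a1) a2 b1 b2 a3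
  have hle : degTime 1 (G n) (k n) ≤ l :=
    Nat.sInf_le (s := {l : ℕ | DegCond 1 (G n) (k n) l}) h
  exact le_trans (by exact_mod_cast hle) b3

theorem full_cutoff (hG : GroupBound)
    (h1 : Tendsto (fun n => (k n : ℝ) / Real.log (Fintype.card (G n))) atTop atTop)
    (h2 : Tendsto (fun n => Real.log (k n) / Real.log (Fintype.card (G n))) atTop (𝓝 0)) :
    CutoffAt G k (fun n => (degTime 1 (G n) (k n) : ℝ)) := by
  have hpos : ∀ᶠ n in atTop, (0 : ℝ) < degTime 1 (G n) (k n) := by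
    filter_upwards [ev_deg G k 1 h1 h2 1 0] with n hn
    exact_mod_cast hn.1
  refine ((main G k h1 h2).2 _ hpos).2 ?_
  rw [Metric.tendsto_nhds]
  intro η hη
  filter_upwards [hpos, cut_le_deg G k h1 h2 (η / 2) (by positivity),
    deg_one_le_cut_full G k hG h1 h2 (η / 2) (by positivity)] with n a0 a1 a2
  have hT : (0 : ℝ) ≤ cutTime (G n) (k n) := Nat.cast_nonneg _
  generalize (degTime 1 (G n) (k n) : ℝ) = t at a0 a1 a2 ⊢
  generalize (cutTime (G n) (k n) : ℝ) = T at hT a1 a2 ⊢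
  have q1 := mul_pos hη a0
  rw [Real.dist_eq, abs_lt]
  constructor
  · have : 1 - η < T / t := by
      rw [lt_div_iff₀ a0]
      refine lt_of_mul_lt_mul_left (a := 1 + η / 2) ?_ (by linarith)
      have q3 := mul_pos hη q1
      linarith
    linarith
  · have : T / t < 1 + η := by
      rw [div_lt_iff₀ a0]
      linarith
    linarith

end Pool.Agent.Lib.MP_d87a8f_pr.Q
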