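import Mathlib
import Pool.Agent.Lib.MP_d87a8f_pr.Q.Main

/-!
Families for which the conjectured time is right.
-/

namespace Pool.Agent.Lib.MP_d87a8f_pr.Q

open Finset Filter Topology Pool.Agent.Lib.MP_d87a8f_pr.U

theorem log_lowDim_le {H : Type} [Group H] [Fintype H] {D : ℕ}
    (h : lowDim H D ≤ Nat.card (Abelianization H)) (x : ℝ) :
    Real.log (lowDim H D) ≤ Real.log (Nat.card (Abelianization H)) + 0 * x := by
  rw [zero_mul, add_zero]
  rcases Nat.eq_zero_or_pos (lowDim H D) with h0 | h0
  · rw [h0]; simp only [Nat.cast_zero, Real.log_zero]; exact Real.log_natCast_nonneg _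
  · exact Real.log_le_log (by exact_mod_cast h0) (by exact_mod_cast h)

/-- the analytic condition when `N / 16 ≤ D`, `N ≤ L ≤ N log N` -/
theorem ratio_small (N D : ℕ → ℕ) (L κ : ℕ → ℝ) (hN : Tendsto N atTop atTop)
    (hD : ∀ᶠ n in atTop, (N n : ℝ) ≤ 16 * D n) (hL : ∀ᶠ n in atTop, 0 ≤ L n ∧
      L n ≤ N n * Real.log (N n)) (hk : ∀ᶠ n in atTop, (N n : ℝ) ≤ κ n) :
    Tendsto (fun n => Real.log (1 + L n / D n) / Real.log (κ n)) atTop (𝓝 0) := by
  have hN' : Tendsto (fun n => Real.log (N n)) atTop atTop :=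
    Real.tendsto_log_atTop.comp (tendsto_natCast_atTop_atTop.comp hN)
  have h1 : Tendsto (fun x : ℝ => Real.log (17 * x) / x) atTop (𝓝 0) := by
    have a1 : Tendsto (fun x : ℝ => Real.log (17 * x) / (17 * x)) atTop (𝓝 0) := by
      have := Real.isLittleO_log_id_atTop.tendsto_div_nhds_zero
      exact this.comp (tendsto_id.const_mul_atTop (by norm_num))
    have a2 := a1.const_mul 17
    rw [mul_zero] at a2
    refine a2.congr' ?_
    filter_upwards [eventually_gt_atTop 0] with x hx
    field_simp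
  refine squeeze_zero' ?_ ?_ (h1.comp hN')
  · filter_upwards [hL, hk, hN.eventually_ge_atTop 1] with n a1 a2 a3
    have : (1 : ℝ) ≤ N n := by exact_mod_cast a3
    refine div_nonneg (Real.log_nonneg ?_) (Real.log_nonneg (by linarith))
    have := div_nonneg a1.1 (Nat.cast_nonneg (α := ℝ) (D n))
    linarith
  · filter_upwards [hD, hL, hk, hN'.eventually_ge_atTop 1, hN.eventually_ge_atTop 1] with n a0 a1
      a2 a3 a4
    have hN1 : (1 : ℝ) ≤ N n := by exact_mod_cast a4
    have hDp : (0 : ℝ) < D n := by linarith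
    have b1 : L n / D n ≤ 16 * Real.log (N n) := by
      rw [div_le_iff₀ hDp]
      nlinarith [a1.2]
    have b0 := div_nonneg a1.1 hDp.le
    have b2 : Real.log (1 + L n / D n) ≤ Real.log (17 * Real.log (N n)) :=
      Real.log_le_log (by linarith) (by linarith)
    have b3 : Real.log (N n) ≤ Real.log (κ n) := Real.log_le_log (by linarith) a2
    show _ ≤ Real.log (17 * Real.log (N n)) / Real.log (N n)
    exact div_le_div₀ (Real.log_nonneg (by linarith)) b2 (by linarith) b3

theorem log_fact_le (N : ℕ) : Real.log (N.factorial : ℝ) ≤ N * Real.log N := by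
  rw [← Real.log_pow]
  exact Real.log_le_log (by exact_mod_cast N.factorial_pos)
    (by exact_mod_cast Nat.factorial_le_pow N)

theorem le_log_fact {N : ℕ} (hN : 8 ≤ N) : (N : ℝ) + 1 ≤ Real.log (N.factorial : ℝ) := by
  have h1 : 3 ^ (N + 1) ≤ N.factorial := by
    induction N, hN using Nat.le_induction with
    | base => norm_num [Nat.factorial]
    | succ n hn ih =>
      rw [Nat.factorial_succ, pow_succ, mul_comm]
      exact Nat.mul_le_mul (by omega) ih
  have h3 : 1 ≤ Real.log 3 := by
    rw [Real.le_log_iff_exp_le (by norm_num)]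
    exact (Real.exp_one_lt_d9.le).trans (by norm_num)
  have h2 : Real.log ((3 : ℝ) ^ (N + 1)) ≤ Real.log (N.factorial : ℝ) :=
    Real.log_le_log (by positivity) (by exact_mod_cast h1)
  rw [Real.log_pow] at h2
  push_cast at h2
  nlinarith [Nat.cast_nonneg (α := ℝ) N]

theorem half_ge {N : ℕ} (hN : 8 ≤ N) : (N : ℝ) ≤ 16 * ((N / 2 - 3 : ℕ) : ℝ) := by
  have : N ≤ 16 * (N / 2 - 3) := by omega
  exact_mod_cast this

/-- a tower that forces `N → ∞` -/
theorem tendsto_of_log_fact (N : ℕ → ℕ) (L : ℕ → ℝ) (hL : Tendsto L atTop atTop)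
    (h : ∀ n, L n ≤ Real.log ((N n).factorial : ℝ)) : Tendsto N atTop atTop := by
  rw [tendsto_atTop]
  intro B
  filter_upwards [hL.eventually_gt_atTop (Real.log (B.factorial : ℝ))] with n hn
  by_contra hc
  have h1 : (N n).factorial ≤ B.factorial := Nat.factorial_le (by omega)
  have h2 : Real.log ((N n).factorial : ℝ) ≤ Real.log (B.factorial : ℝ) :=
    Real.log_le_log (by exact_mod_cast (N n).factorial_pos) (by exact_mod_cast h1)
  linarith [h n]

theorem tendsto_L (G : ℕ → Type) [∀ n, Fintype (G n)] [∀ n, Nonempty (G n)] (k : ℕ → ℕ)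
    (h1 : Tendsto (fun n => (k n : ℝ) / Real.log (Fintype.card (G n))) atTop atTop)
    (h2 : Tendsto (fun n => Real.log (k n) / Real.log (Fintype.card (G n))) atTop (𝓝 0)) :
    Tendsto (fun n => Real.log (Fintype.card (G n))) atTop atTop := by
  rw [tendsto_atTop]
  intro B
  filter_upwards [ev_regime G k h1 h2 (max B 1) (le_max_right _ _)] with n hn
  exact (le_max_left _ _).trans hn.1

/-- symmetric groups -/
theorem perm_cutoff (N k : ℕ → ℕ)
    (h1 : Tendsto (fun n => (k n : ℝ) / Real.log (Fintype.card (Equiv.Perm (Fin (N n)))))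
      atTop atTop)
    (h2 : Tendsto (fun n => Real.log (k n) / Real.log (Fintype.card (Equiv.Perm (Fin (N n)))))
      atTop (𝓝 0)) :
    (∀ᶠ n in atTop, ∃ t : ℝ, 0 ≤ t ∧ (k n : ℝ) * poissonEntropy (t / k n) =
      Real.log (Nat.card (Abelianization (Equiv.Perm (Fin (N n)))))) ∧
    ∀ t₀ : ℕ → ℝ, (∀ᶠ n in atTop, 0 ≤ t₀ n ∧ (k n : ℝ) * poissonEntropy (t₀ n / k n) =
        Real.log (Nat.card (Abelianization (Equiv.Perm (Fin (N n)))))) →
      CutoffAt (fun n => Equiv.Perm (Fin (N n))) k (fun n => max (t₀ n)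
        (Real.log (Fintype.card (Equiv.Perm (Fin (N n)))) / Real.log (k n))) := by
  have hc : ∀ n, Fintype.card (Equiv.Perm (Fin (N n))) = (N n).factorial := fun n => by
    rw [Fintype.card_perm, Fintype.card_fin]
  have hN : Tendsto N atTop atTop :=
    tendsto_of_log_fact N _ (tendsto_L (fun n => Equiv.Perm (Fin (N n))) k h1 h2)
      (fun n => by rw [hc])
  have h8 := hN.eventually_ge_atTop 8
  refine star_cutoff (fun n => Equiv.Perm (Fin (N n))) k h1 h2 (fun n => N n / 2 - 3) 0
    (h8.mono fun n hn => by omega) ?_ (h8.mono fun n hn => log_lowDim_le (lowDim_perm hn) _)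
  refine ratio_small N _ _ (fun n => (k n : ℝ)) hN (h8.mono fun n hn => half_ge hn)
    (Eventually.of_forall fun n => ⟨Real.log_natCast_nonneg _, by rw [hc]; exact log_fact_le _⟩) ?_
  filter_upwards [h8, ev_regime (fun n => Equiv.Perm (Fin (N n))) k h1 h2 1 le_rfl] with n a b
  have := le_log_fact a
  rw [← hc] at this
  linarith [b.2.1]

/-- alternating groups -/
theorem alt_cutoff (N k : ℕ → ℕ)
    (h1 : Tendsto (fun n => (k n : ℝ) / Real.log (Fintype.card (alternatingGroup (Fin (N n)))))
      atTop atTop)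
    (h2 : Tendsto (fun n => Real.log (k n) /
      Real.log (Fintype.card (alternatingGroup (Fin (N n))))) atTop (𝓝 0)) :
    (∀ᶠ n in atTop, ∃ t : ℝ, 0 ≤ t ∧ (k n : ℝ) * poissonEntropy (t / k n) =
      Real.log (Nat.card (Abelianization (alternatingGroup (Fin (N n)))))) ∧
    ∀ t₀ : ℕ → ℝ, (∀ᶠ n in atTop, 0 ≤ t₀ n ∧ (k n : ℝ) * poissonEntropy (t₀ n / k n) =
        Real.log (Nat.card (Abelianization (alternatingGroup (Fin (N n)))))) →
      CutoffAt (fun n => alternatingGroup (Fin (N n))) k (fun n => max (t₀ n)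
        (Real.log (Fintype.card (alternatingGroup (Fin (N n)))) / Real.log (k n))) := by
  have hc : ∀ n, Real.log (Fintype.card (alternatingGroup (Fin (N n)))) ≤
      Real.log ((N n).factorial : ℝ) := fun n => by
    have h := Fintype.card_subtype_le (fun x => x ∈ alternatingGroup (Fin (N n)))
    rw [Fintype.card_perm, Fintype.card_fin] at h
    exact Real.log_le_log (by exact_mod_cast Fintype.card_pos) (by exact_mod_cast h)
  have hN : Tendsto N atTop atTop :=
    tendsto_of_log_fact N _ (tendsto_L (fun n => alternatingGroup (Fin (N n))) k h1 h2) hc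
  have h8 := hN.eventually_ge_atTop 8
  refine star_cutoff (fun n => alternatingGroup (Fin (N n))) k h1 h2 (fun n => N n / 2 - 3) 0
    (h8.mono fun n hn => by omega) ?_ (h8.mono fun n hn => log_lowDim_le (lowDim_alt hn) _)
  refine ratio_small N _ _ (fun n => (k n : ℝ)) hN (h8.mono fun n hn => half_ge hn)
    (Eventually.of_forall fun n => ⟨Real.log_natCast_nonneg _, (hc n).trans (log_fact_le _)⟩) ?_
  filter_upwards [h8, ev_regime (fun n => alternatingGroup (Fin (N n))) k h1 h2 1 le_rfl] with n a b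
  have h3 := le_log_fact a
  have : Nontrivial (Fin (N n)) := Fin.nontrivial_iff_two_le.mpr (by omega)
  have h4 := two_mul_card_alternatingGroup (α := Fin (N n))
  rw [Fintype.card_perm, Fintype.card_fin] at h4
  have h5 : ((N n).factorial : ℝ) = 2 * (Fintype.card (alternatingGroup (Fin (N n))) : ℝ) := by
    exact_mod_cast h4.symm
  have h6 : (0 : ℝ) < Fintype.card (alternatingGroup (Fin (N n))) := by
    exact_mod_cast Fintype.card_pos
  rw [h5, Real.log_mul (by norm_num) h6.ne'] at h3
  linarith [b.2.1, Real.log_two_lt_d9]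

/-- groups whose order has only large prime factors -/
theorem prime_cutoff (G : ℕ → Type) [∀ n, Group (G n)] [∀ n, Fintype (G n)]
    [∀ n, DecidableEq (G n)] (k : ℕ → ℕ)
    (h1 : Tendsto (fun n => (k n : ℝ) / Real.log (Fintype.card (G n))) atTop atTop)
    (h2 : Tendsto (fun n => Real.log (k n) / Real.log (Fintype.card (G n))) atTop (𝓝 0))
    (hp : Tendsto (fun n => Real.log (1 + Real.log (Fintype.card (G n)) /
      ((Fintype.card (G n)).minFac - 1 : ℕ)) / Real.log (k n)) atTop (𝓝 0)) :
    (∀ᶠ n in atTop, ∃ t : ℝ, 0 ≤ t ∧ (k n : ℝ) * poissonEntropy (t / k n) =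
      Real.log (Nat.card (Abelianization (G n)))) ∧
    ∀ t₀ : ℕ → ℝ, (∀ᶠ n in atTop, 0 ≤ t₀ n ∧ (k n : ℝ) * poissonEntropy (t₀ n / k n) =
        Real.log (Nat.card (Abelianization (G n)))) →
      CutoffAt G k (fun n => max (t₀ n) (Real.log (Fintype.card (G n)) / Real.log (k n))) := by
  refine star_cutoff G k h1 h2 (fun n => (Fintype.card (G n)).minFac - 1) 0 ?_ hp
    (Eventually.of_forall fun n => log_lowDim_le lowDim_minFac _)
  filter_upwards [ev_regime G k h1 h2 1 le_rfl] with n b
  have h3 : Fintype.card (G n) ≠ 1 := fun h => by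
    have := b.1
    rw [h] at this
    simp only [Nat.cast_one, Real.log_one] at this
    linarith
  have := (Nat.minFac_prime h3).two_le
  omega

end Pool.Agent.Lib.MP_d87a8f_pr.Q
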