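import Mathlib
import Pool.Agent.Lib.MP_d87a8f_pr.Q.Full
import Pool.Agent.Lib.MP_d87a8f_pr.P.Sub

/-!
The bound used for the subgroup formula implies the bound used for the degree formula.
-/

namespace Pool.Agent.Lib.MP_d87a8f_pr.Q

theorem groupBound_of_gb (h : P.GB (fun _ _ => True)) : GroupBound := by
  obtain ⟨l0, hl⟩ := h 1
  refine ⟨2, 3, l0, by norm_num, fun G _ _ d T M hd hT hM hc hH => ?_⟩
  exact hl G trivial T d M hM (by simpa using hc) hd (by simpa using hT) hH

end Pool.Agent.Lib.MP_d87a8f_pr.Q
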